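import Pool.Agent.PolyTime.Ints

/-!
The classes P and NP, polynomial-time many-one reductions, NP-hardness.
-/

set_option linter.dupNamespace false

namespace Pool.Agent.PolyTime

section

variable {α β γ : Type} [PEnc α] [PEnc β] [PEnc γ]

/-! ### raw strings versus lists of booleans -/

/-- prepend the encoding of one bit -/
def encStep (t : List Bool) : List Bool :=
  match p1 t with
  | [] => t
  | false :: _ => pr (p1 t).tail (true :: false :: false :: p2 t)
  | true :: _ => pr (p1 t).tail (true :: true :: false :: p2 t)

theorem encStep_iter (n : ℕ) (u v : List Bool) :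
    encStep^[n] (pr u v) = pr (u.drop n) (enc ((u.take n).reverse) ++ v) := by
  induction n generalizing u v with
  | zero => simp [enc_nil]
  | succ n ih =>
    rw [Function.iterate_succ_apply]
    cases u with
    | nil =>
      have h : encStep (pr [] v) = pr [] v := by simp [encStep]
      rw [h, ih]; simp
    | cons b u =>
      have h : encStep (pr (b :: u) v) = pr u (enc [b] ++ v) := by
        cases b <;> simp [encStep] <;> rfl
      rw [h, ih]
      congr 1
      have happ : ∀ l m : List Bool, enc (l ++ m) = enc l ++ enc m := by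
        intro l m
        induction l with
        | nil => rfl
        | cons b t ih =>
          have h : ∀ u v w : List Bool, pr u (v ++ w) = pr u v ++ w := by
            intro u v w; simp [pr]
          rw [List.cons_append, enc_cons, enc_cons, ih, h]
      rw [List.take_succ_cons, List.reverse_cons, happ, List.append_assoc]

/-- the typed encoding of a raw string is computable -/
theorem FP_encString : FP (fun x : List Bool => enc x) := by
  have h0 : FP encStep :=
    FP.cases FP.p1 FP.id (FP.pair (FP.tail' FP.p1) (FP.cons' true (FP.cons' false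
      (FP.cons' false FP.p2)))) (FP.pair (FP.tail' FP.p1) (FP.cons' true (FP.cons' true
      (FP.cons' false FP.p2))))
  have h1 : FP (fun x => encStep^[(x.reverse).length] (pr x.reverse [])) := by
    refine FP.iterPB h0 (FP.reverse FP.id) (FP.pair (FP.reverse FP.id) FP.nil)
      (b := fun x => 2 * x.length + 1 + 3 * x.length) ?_ ?_
    · exact (((PB.const 2).mul PB.len).add (PB.const 1)).add ((PB.const 3).mul PB.len)
    · intro x i hi
      rw [encStep_iter, length_pr, List.append_nil]
      have h2 : (enc (List.take i x.reverse).reverse).length = 3 * (List.take i x.reverse).length :=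
        (size_list_bool _).trans (by rw [List.length_reverse])
      rw [h2]
      simp only [List.length_drop, List.length_take, List.length_reverse]
      omega
  refine (FP.p2' h1).congr (fun x => ?_)
  rw [encStep_iter, p2_pr, List.append_nil, List.take_length, List.reverse_reverse]

/-- read one bit of a typed string -/
def decStep (t : List Bool) : List Bool :=
  if p1 t = [] then t else pr (p2 (p1 t)) (p1 (p1 t) ++ p2 t)

theorem decStep_iter (n : ℕ) (u v : List Bool) :
    decStep^[n] (pr (enc u) v) = pr (enc (u.drop n)) ((u.take n).reverse ++ v) := by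
  induction n generalizing u v with
  | zero => simp
  | succ n ih =>
    rw [Function.iterate_succ_apply]
    cases u with
    | nil =>
      have h : decStep (pr (enc ([] : List Bool)) v) = pr (enc ([] : List Bool)) v := by
        simp [decStep, enc_nil]
      rw [h, ih]; simp
    | cons b u =>
      have h : decStep (pr (enc (b :: u)) v) = pr (enc u) (b :: v) := by
        rw [decStep, p1_pr, p2_pr, if_neg (by rw [enc_cons]; exact pr_ne_nil _ _), enc_cons,
          p2_pr, p1_pr, enc_bool]
        rfl
      rw [h, ih]
      simp

/-- decoding of typed strings -/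
theorem exists_decString : ∃ F, FP F ∧ ∀ l : List Bool, F (enc l) = l := by
  have h0 : FP decStep :=
    FP.ite_nil FP.p1 FP.id (FP.pair (FP.p2' FP.p1) (FP.append (FP.p1' FP.p1) FP.p2))
  obtain ⟨k, hk⟩ : PB (fun x => 2 * x.length + 1 + x.length) :=
    (((PB.const 2).mul PB.len).add (PB.const 1)).add PB.len
  obtain ⟨R, hR, hR'⟩ := FP.iterOn h0 FP.id (FP.pair FP.id FP.nil)
    (Set.range (enc : List Bool → List Bool)) k (by
    rintro _ ⟨l, rfl⟩ i hi
    rw [decStep_iter, length_pr]
    refine le_trans ?_ (hk _)
    have h1 : (enc (l.drop i)).length ≤ (enc l).length := size_sublist (List.drop_sublist _ _)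
    have h2 : l.length ≤ (enc l).length := length_le_size l
    simp only [List.length_append, List.length_reverse, List.length_take, List.length_nil]
    omega)
  refine ⟨fun x => (p2 (R x)).reverse, FP.reverse (FP.p2' hR), fun l => ?_⟩
  beta_reduce
  rw [hR' _ ⟨l, rfl⟩, decStep_iter]
  have h2 : l.length ≤ (enc l).length := length_le_size l
  simp [List.take_of_length_le h2]

/-- on strings, the typed notion agrees with polynomial-time computability of raw strings -/
theorem polyTime_string_iff {f : List Bool → List Bool} : PolyTime f ↔ FP f := by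
  obtain ⟨D, hD, hD'⟩ := exists_decString
  constructor
  · rintro ⟨F, hF, hF'⟩
    exact (hD.comp (hF.comp FP_encString)).congr (fun x => by rw [hF', hD'])
  · intro hf
    exact ⟨fun x => enc (f (D x)), FP_encString.comp (hf.comp hD), fun a => by
      beta_reduce; rw [hD']⟩

/-- functions from raw strings to an encoded type -/
theorem polyTime_from_string_iff {f : List Bool → β} :
    PolyTime f ↔ FP (fun x => enc (f x)) := by
  obtain ⟨D, hD, hD'⟩ := exists_decString
  constructor
  · rintro ⟨F, hF, hF'⟩
    exact (hF.comp FP_encString).congr (fun x => by rw [hF'])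
  · intro hf
    exact ⟨fun x => enc (f (D x)), hf.comp hD, fun a => by beta_reduce; rw [hD']⟩

/-! ### decision problems -/

/-- `L` is decidable in polynomial time. -/
def InP (L : Set α) : Prop := ∃ f : α → Bool, PolyTime f ∧ ∀ a, f a = true ↔ a ∈ L

/-- `L` is in NP: it has a polynomial-time verifier with certificates of polynomial length. -/
def InNP (L : Set α) : Prop :=
  ∃ (V : α × List Bool → Bool) (k : ℕ), PolyTime V ∧
    ∀ a, a ∈ L ↔ ∃ w : List Bool, w.length ≤ (size a + 2) ^ k ∧ V (a, w) = true

/-- polynomial-time many-one reducibility -/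
def Red (A : Set α) (B : Set β) : Prop := ∃ f : α → β, PolyTime f ∧ ∀ a, a ∈ A ↔ f a ∈ B

/-- `B` is NP-hard: every NP language of strings reduces to it. -/
def NPHard (B : Set β) : Prop := ∀ L : Set (List Bool), InNP L → Red L B

theorem Red.refl (A : Set α) : Red A A := ⟨id, PolyTime.id, fun _ => Iff.rfl⟩

theorem Red.trans {A : Set α} {B : Set β} {C : Set γ} (h1 : Red A B) (h2 : Red B C) :
    Red A C := by
  obtain ⟨f, hf, hf'⟩ := h1
  obtain ⟨g, hg, hg'⟩ := h2
  exact ⟨fun a => g (f a), hg.comp hf, fun a => (hf' a).trans (hg' _)⟩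

theorem InP.of_red {A : Set α} {B : Set β} (h : Red A B) (hB : InP B) : InP A := by
  obtain ⟨f, hf, hf'⟩ := h
  obtain ⟨g, hg, hg'⟩ := hB
  exact ⟨fun a => g (f a), hg.comp hf, fun a => (hg' _).trans (hf' a).symm⟩

theorem InNP.of_red {A : Set α} {B : Set β} (h : Red A B) (hB : InNP B) : InNP A := by
  obtain ⟨f, hf, hf'⟩ := h
  obtain ⟨V, k, hV, hV'⟩ := hB
  obtain ⟨l, hl⟩ := (hf.pbd.add (PBd.const 2)).pow k
  refine ⟨fun p => bif decide (p.2.length ≤ (size (f p.1) + 2) ^ k) then V (f p.1, p.2) else false,
    l, ?_, fun a => ?_⟩
  · fun_prop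
  · rw [hf' a, hV' (f a)]
    constructor
    · rintro ⟨w, h1, h2⟩
      exact ⟨w, h1.trans (hl a), by simp [h1, h2]⟩
    · rintro ⟨w, h1, h2⟩
      by_cases h3 : w.length ≤ (size (f a) + 2) ^ k
      · exact ⟨w, h3, by simpa [h3] using h2⟩
      · simp [h3] at h2

theorem InP.inNP {A : Set α} (h : InP A) : InNP A := by
  obtain ⟨f, hf, hf'⟩ := h
  refine ⟨fun p => f p.1, 0, by fun_prop, fun a => ?_⟩
  rw [← hf' a]
  constructor
  · intro h; exact ⟨[], by simp, h⟩
  · rintro ⟨w, _, h⟩; exact h

theorem NPHard.of_red {A : Set α} {B : Set β} (hA : NPHard A) (h : Red A B) : NPHard B :=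
  fun L hL => (hA L hL).trans h

theorem InP.compl {A : Set α} (h : InP A) : InP Aᶜ := by
  obtain ⟨f, hf, hf'⟩ := h
  refine ⟨fun a => !(f a), by fun_prop, fun a => ?_⟩
  rw [Set.mem_compl_iff, ← hf' a]
  simp

end

end Pool.Agent.PolyTime
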