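import Pool.Agent.PolyTime.Tableau

/-!
The Cook-Levin theorem for the classes `InNP`, `NPHard` of this library.
-/

namespace Pool.Agent.PolyTime

open Function Prog

set_option linter.unusedSectionVars false

namespace Tableau

theorem polyTime_constFlatMap {α β ι : Type} [PEnc α] [PEnc β] (ls : List ι)
    {F : ι → α → List β} (h : ∀ l, PolyTime (F l)) :
    PolyTime (fun a => ls.flatMap fun l => F l a) := by
  induction ls with
  | nil => simpa using PolyTime.const ([] : List β)
  | cons l ls ih =>
    have := h l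
    simp only [List.flatMap_cons]
    fun_prop

theorem polyTime_constMap {α β ι : Type} [PEnc α] [PEnc β] (ls : List ι)
    {F : ι → α → β} (h : ∀ l, PolyTime (F l)) :
    PolyTime (fun a => ls.map fun l => F l a) := by
  induction ls with
  | nil => simpa using PolyTime.const ([] : List β)
  | cons l ls ih =>
    have := h l
    simp only [List.map_cons]
    fun_prop

/-- data: `T`, the lists `range T`, `range (T + 1)`, the fixed part of the input and the length
of its free part -/
abbrev Dat : Type := ℕ × List ℕ × List ℕ × List Bool × ℕ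

variable {K Λ : Type} [DecidableEq K] (C : ℕ) (e : Λ ⊕ (K × Option Bool) → ℕ)

theorem polyTime_nextC (M : Λ → Ins K Λ) (l : Λ) :
    PolyTime (fun q : Dat × ℕ => nextC C e M q.1.1 q.2 l) := by
  unfold nextC
  apply polyTime_constMap
  intro s
  unfold vL vX vr
  fun_prop

theorem polyTime_copyC (l : Λ) (k : K) :
    PolyTime (fun q : Dat × ℕ => copyC C e q.1.1 q.2 q.1.2.1 l k) := by
  unfold copyC
  apply polyTime_constFlatMap
  intro s
  unfold vL vX vr
  fun_prop

theorem polyTime_popC (l : Λ) (k : K) :
    PolyTime (fun q : Dat × ℕ => popC C e q.1.1 q.2 q.1.2.1 l k) := by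
  unfold popC
  apply polyTime_constFlatMap
  intro s
  unfold vL vX vr
  fun_prop

theorem polyTime_pushC (l : Λ) (k : K) (b : Bool) :
    PolyTime (fun q : Dat × ℕ => pushC C e q.1.1 q.2 q.1.2.1 l k b) := by
  unfold pushC
  have h : PolyTime (fun q : Dat × ℕ => syms.flatMap fun s => q.1.2.1.map fun i =>
      [(vL C e q.1.1 q.2 l, false), (vX C e q.1.1 q.2 i k s, false),
        (vX C e q.1.1 (q.2 + 1) (i + 1) k s, true)]) := by
    apply polyTime_constFlatMap
    intro s
    unfold vL vX vr
    fun_prop
  have h2 : PolyTime (fun q : Dat × ℕ =>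
      [(vL C e q.1.1 q.2 l, false), (vX C e q.1.1 (q.2 + 1) 0 k (some b), true)]) := by
    unfold vL vX vr
    fun_prop
  exact PolyTime.cons h2 h

theorem polyTime_cellC (M : Λ → Ins K Λ) (l : Λ) (k : K) :
    PolyTime (fun q : Dat × ℕ => cellC C e M q.1.1 q.2 q.1.2.1 l k) := by
  unfold cellC
  cases (M l).op with
  | none => exact polyTime_copyC C e l k
  | some kb =>
    obtain ⟨k', b⟩ := kb
    by_cases h : k' = k
    · cases b with
      | none => simp only [if_pos h]; exact polyTime_popC C e l k
      | some b => simp only [if_pos h]; exact polyTime_pushC C e l k b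
    · cases b with
      | none => simp only [if_neg h]; exact polyTime_copyC C e l k
      | some b => simp only [if_neg h]; exact polyTime_copyC C e l k

theorem polyTime_initC (k₀ k : K) :
    PolyTime (fun q : Dat × ℕ => initC C e k₀ q.1.1 q.1.2.2.2.1 q.1.2.2.2.2 q.2 k) := by
  unfold initC
  by_cases h : k = k₀
  · simp only [if_pos h]
    unfold vX vr
    fun_prop
  · simp only [if_neg h]
    unfold vX vr
    fun_prop

theorem polyTime_gen (M : Λ → Ins K Λ) (en : Λ) (k₀ k₁ : K) (Ks : List K) (Ls : List Λ) :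
    PolyTime (fun q : Dat => gen C e M en k₀ k₁ Ks Ls q.1 q.2.1 q.2.2.1 q.2.2.2.1 q.2.2.2.2) := by
  have h1 : PolyTime (fun q : Dat => q.2.2.1.flatMap fun i => Ks.flatMap fun k =>
      initC C e k₀ q.1 q.2.2.2.1 q.2.2.2.2 i k) := by
    have h : PolyTime (fun q : Dat × ℕ => Ks.flatMap fun k =>
        initC C e k₀ q.1.1 q.1.2.2.2.1 q.1.2.2.2.2 q.2 k) :=
      polyTime_constFlatMap Ks (fun k => polyTime_initC C e k₀ k)
    exact PolyTime.flatMap (by fun_prop) h
  have h2 : PolyTime (fun q : Dat => q.2.1.flatMap fun t => Ls.flatMap fun l =>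
      nextC C e M q.1 t l ++ Ks.flatMap fun k => cellC C e M q.1 t q.2.1 l k) := by
    have h : PolyTime (fun q : Dat × ℕ => Ls.flatMap fun l =>
        nextC C e M q.1.1 q.2 l ++ Ks.flatMap fun k => cellC C e M q.1.1 q.2 q.1.2.1 l k) := by
      apply polyTime_constFlatMap
      intro l
      exact (polyTime_nextC C e M l).append
        (polyTime_constFlatMap Ks (fun k => polyTime_cellC C e M l k))
    exact PolyTime.flatMap (by fun_prop) h
  have h3 : PolyTime (fun q : Dat => [(vL C e q.1 0 en, true)]) := by
    unfold vL vr; fun_prop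
  have h4 : PolyTime (fun q : Dat => [(vX C e q.1 q.1 0 k₁ none, false)]) := by
    unfold vX vr; fun_prop
  have h5 : PolyTime (fun q : Dat => [(vX C e q.1 q.1 0 k₁ (some false), false)]) := by
    unfold vX vr; fun_prop
  unfold gen
  exact h3.cons (h4.cons (h5.cons (h1.append h2)))

theorem gen_length {M : Λ → Ins K Λ} {en : Λ} {k₀ k₁ : K} {Ks : List K} {Ls : List Λ} {T : ℕ}
    {R R' : List ℕ} {u : List Bool} {n : ℕ} {cl : List (ℕ × Bool)}
    (h : cl ∈ gen C e M en k₀ k₁ Ks Ls T R R' u n) : 1 ≤ cl.length ∧ cl.length ≤ 3 := by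
  unfold gen at h
  simp only [List.mem_cons, List.mem_append, List.mem_flatMap] at h
  rcases h with rfl | rfl | rfl | ⟨i, hi, k, _, h⟩ | ⟨t, ht, l, _, h⟩
  · simp
  · simp
  · simp
  · unfold initC at h
    split_ifs at h
    · cases h1 : decide (i < u.length) <;> cases h2 : u.getD i false <;>
        cases h3 : decide (i < u.length + n) <;> rw [h1] at h <;>
        simp only [h2, h3, cond_true, cond_false, List.mem_singleton] at h <;> subst h <;> simp
    · simp only [List.mem_singleton] at h; subst h; simp
  · have hcopy : ∀ k, cl ∈ copyC C e T t R l k → 1 ≤ cl.length ∧ cl.length ≤ 3 := by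
      intro k h
      unfold copyC at h
      simp only [List.mem_flatMap, List.mem_map] at h
      obtain ⟨s, _, i, _, rfl⟩ := h
      simp
    rcases h with h | ⟨k, _, h⟩
    · unfold nextC at h
      rw [List.mem_map] at h
      obtain ⟨s, _, rfl⟩ := h
      simp
    · unfold cellC at h
      split at h
      · exact hcopy k h
      · split_ifs at h
        · unfold pushC at h
          simp only [List.mem_cons, List.mem_flatMap, List.mem_map] at h
          rcases h with rfl | ⟨s, _, i, _, rfl⟩ <;> simp
        · exact hcopy k h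
      · split_ifs at h
        · unfold popC at h
          simp only [List.mem_flatMap, List.mem_map] at h
          obtain ⟨s, _, i, _, rfl⟩ := h
          simp
        · exact hcopy k h

end Tableau

theorem pr_append (x v : List Bool) : pr x [] ++ v = pr x v := by
  simp [pr]

theorem polyTime_encSelf {α : Type} [PEnc α] : PolyTime (fun a : α => (enc a : List Bool)) :=
  ⟨fun x => enc x, FP_encString, fun _ => rfl⟩

/-- the formula of the Cook-Levin reduction -/
theorem InNP.exists_formula {α : Type} [PEnc α] {L : Set α} (h : InNP L) :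
    ∃ f : α → List (List (ℕ × Bool)), PolyTime f ∧ (∀ a, a ∈ L ↔ f a ∈ SAT) ∧
      ∀ a, ∀ c ∈ f a, 1 ≤ c.length ∧ c.length ≤ 3 := by
  classical
  obtain ⟨V, k, hV, hL⟩ := h
  -- the padded verifier
  obtain ⟨V', hV'def⟩ : ∃ V' : α × List Bool → Bool, V' = fun p =>
      (List.range (true :: p.2).length).any (fun j => V (p.1, p.2.take j)) := ⟨_, rfl⟩
  have hV' : PolyTime V' := by rw [hV'def]; fun_prop
  obtain ⟨F, hF, hF'⟩ := hV'
  have hG : FP (fun x => F (pr (p1 x) (enc (p2 x)))) :=
    hF.comp (FP.pair FP.p1 (FP_encString.comp FP.p2))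
  obtain ⟨K, dK, fK, Λ, dΛ, fΛ, k₀, k₁, M, en, P, hM⟩ := exists_mach hG
  obtain ⟨m, hm⟩ := exists_pow_bound P
  obtain ⟨C, hC⟩ : ∃ C, C = Fintype.card (Λ ⊕ (K × Option Bool)) := ⟨_, rfl⟩
  obtain ⟨e⟩ : Nonempty ((Λ ⊕ (K × Option Bool)) ≃ Fin C) := by
    rw [hC]; exact ⟨Fintype.equivFin _⟩
  obtain ⟨q, hqdef⟩ : ∃ q : α → ℕ, q = fun a => (size a + 2) ^ k := ⟨_, rfl⟩
  obtain ⟨u, hudef⟩ : ∃ u : α → List Bool, u = fun a => pr (enc a) [] := ⟨_, rfl⟩
  obtain ⟨T, hTdef⟩ : ∃ T : α → ℕ, T = fun a => ((u a).length + q a + 2) ^ m := ⟨_, rfl⟩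
  have hq : PolyTime q := by
    have h0 : PolyTime (fun a : α => (enc a : List Bool)) := polyTime_encSelf
    have h1 : q = fun a : α => (((enc a : List Bool)).length + 2) ^ k := hqdef
    rw [h1]
    fun_prop
  have hqb : PBd q := by rw [hqdef]; exact (PBd.size.add (PBd.const 2)).pow k
  have hu : PolyTime u := by
    have h0 : PolyTime (fun a : α => (enc a : List Bool)) := polyTime_encSelf
    rw [hudef]
    unfold pr
    fun_prop
  have hT : PolyTime T := by
    rw [hTdef]
    fun_prop
  have hTb : PBd T := by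
    rw [hTdef]
    exact (((pbd_length hu).add hqb).add (PBd.const 2)).pow m
  have hR : PolyTime (fun a => List.range (T a)) := PolyTime.range hT hTb
  have hR' : PolyTime (fun a => List.range (T a + 1)) :=
    PolyTime.range (by fun_prop) (hTb.add (PBd.const 1))
  refine ⟨fun a => Tableau.gen C (Tableau.en' e) M en k₀ k₁
    Finset.univ.toList Finset.univ.toList
    (T a) (List.range (T a)) (List.range (T a + 1)) (u a) (q a), ?_, ?_, ?_⟩
  · have h1 := Tableau.polyTime_gen C (Tableau.en' e) M en
      k₀ k₁ Finset.univ.toList Finset.univ.toList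
    have h2 : PolyTime (fun a => ((T a, List.range (T a), List.range (T a + 1), u a, q a) :
        Tableau.Dat)) := by fun_prop
    have h3 := PolyTime.comp h1 h2
    dsimp only at h3
    exact h3
  · intro a
    have hrun : ∀ w : List Bool, w.length = q a →
        (((mstep M)^[T a] (en, single k₀ (u a ++ w))).2 k₁)[0]? = some (V' (a, w)) := by
      intro w hw
      have h1 : P.eval (u a ++ w).length ≤ T a := by
        refine (hm _).trans ?_
        rw [List.length_append, hw, hTdef]
      rw [hM _ _ h1, single_eq rfl]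
      have h2 : u a ++ w = pr (enc a) w := by rw [hudef]; exact pr_append _ _
      have h3 : F (pr (p1 (u a ++ w)) (enc (p2 (u a ++ w)))) = enc (V' (a, w)) := by
        rw [h2, p1_pr, p2_pr]
        exact hF' (a, w)
      rw [h3]
      rfl
    constructor
    · intro ha
      obtain ⟨w, hw, hVw⟩ := (hL a).1 ha
      have hlen : (w ++ List.replicate (q a - w.length) false).length = q a := by
        rw [List.length_append, List.length_replicate]
        have : w.length ≤ q a := by rw [hqdef]; exact hw
        omega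
      have hacc := hrun _ hlen
      have h1 : V' (a, w ++ List.replicate (q a - w.length) false) = true := by
        rw [hV'def]
        simp only [List.any_eq_true, List.mem_range, List.length_cons, hlen]
        refine ⟨w.length, Nat.lt_succ_of_le (by rw [hqdef]; exact hw), ?_⟩
        rw [List.take_left']
        · exact hVw
        · rfl
      rw [h1] at hacc
      have := Tableau.sat_of_run e M en k₀ k₁ Finset.univ.toList Finset.univ.toList (T a) (u a) _ hacc
      rw [hlen] at this
      exact this
    · intro hsat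
      obtain ⟨w, hw, hacc⟩ := Tableau.run_of_sat e M en k₀ k₁ Finset.univ.toList (by simp)
        Finset.univ.toList (by simp) (T a) (u a) (q a) hsat
      rw [hrun w hw] at hacc
      have h1 : V' (a, w) = true := by simpa using hacc
      rw [hV'def] at h1
      simp only [List.any_eq_true, List.mem_range, List.length_cons] at h1
      obtain ⟨j, hj, hVj⟩ := h1
      refine (hL a).2 ⟨w.take j, ?_, hVj⟩
      rw [List.length_take, hw, hqdef]
      exact min_le_right _ _
  · intro a c hc
    exact Tableau.gen_length _ _ hc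

/-- **Cook-Levin theorem.** -/
theorem npHard_SAT : NPHard SAT := fun L hL => by
  obtain ⟨f, hf, h, _⟩ := hL.exists_formula
  exact ⟨f, hf, h⟩

/-- satisfiable formulas whose clauses have at most three literals -/
def SATle3 : Set (List (List (ℕ × Bool))) := {φ | (∀ c ∈ φ, c.length ≤ 3) ∧ φ ∈ SAT}

/-- satisfiable formulas whose clauses have exactly three literals (possibly with repetitions) -/
def SAT3 : Set (List (List (ℕ × Bool))) := {φ | (∀ c ∈ φ, c.length = 3) ∧ φ ∈ SAT}

theorem npHard_SATle3 : NPHard SATle3 := fun L hL => by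
  obtain ⟨f, hf, h, h3⟩ := hL.exists_formula
  exact ⟨f, hf, fun a => ⟨fun ha => ⟨fun c hc => (h3 a c hc).2, (h a).1 ha⟩, fun ha => (h a).2 ha.2⟩⟩

/-- pad a clause to three literals -/
def pad3 (c : List (ℕ × Bool)) : List (ℕ × Bool) := (c ++ c ++ c).take 3

theorem mem_pad3 {c : List (ℕ × Bool)} (h1 : 1 ≤ c.length) (h3 : c.length ≤ 3) (l : ℕ × Bool) :
    l ∈ pad3 c ↔ l ∈ c := by
  unfold pad3
  match c, h1, h3 with
  | [a], _, _ => simp
  | [a, b], _, _ => simp; tauto
  | [a, b, c], _, _ => simp

theorem npHard_SAT3 : NPHard SAT3 := fun L hL => by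
  obtain ⟨f, hf, h, h3⟩ := hL.exists_formula
  refine ⟨fun a => (f a).map pad3, ?_, fun a => ?_⟩
  · unfold pad3
    fun_prop
  · have hsat : f a ∈ SAT ↔ (f a).map pad3 ∈ SAT := by
      constructor
      · rintro ⟨s, hs⟩
        refine ⟨s, fun c hc => ?_⟩
        obtain ⟨c', hc', rfl⟩ := List.mem_map.1 hc
        obtain ⟨l, hl, hl'⟩ := hs c' hc'
        exact ⟨l, (mem_pad3 (h3 a c' hc').1 (h3 a c' hc').2 l).2 hl, hl'⟩
      · rintro ⟨s, hs⟩
        refine ⟨s, fun c hc => ?_⟩
        obtain ⟨l, hl, hl'⟩ := hs (pad3 c) (List.mem_map_of_mem hc)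
        exact ⟨l, (mem_pad3 (h3 a c hc).1 (h3 a c hc).2 l).1 hl, hl'⟩
    constructor
    · intro ha
      refine ⟨fun c hc => ?_, hsat.1 ((h a).1 ha)⟩
      obtain ⟨c', hc', rfl⟩ := List.mem_map.1 hc
      have h4 := h3 a c' hc'
      unfold pad3
      rw [List.length_take, List.length_append, List.length_append]
      omega
    · intro ha
      exact (h a).2 (hsat.2 ha.2)

end Pool.Agent.PolyTime
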