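import Pool.Agent.PolyTime.More

/-!
Polynomial-time arithmetic on integers and rationals.
-/

set_option linter.dupNamespace false

namespace Pool.Agent.PolyTime

section

variable {α β γ δ σ : Type} [PEnc α] [PEnc β] [PEnc γ] [PEnc δ] [PEnc σ]

theorem size_int (z : ℤ) : size z = size z.natAbs + 3 := by
  change size (decide (z < 0), z.natAbs) = _
  rw [size_pair, size_bool]; omega

theorem pt_sgnAbs : PolyTime (fun z : ℤ => (decide (z < 0), z.natAbs)) :=
  ⟨fun x => x, FP.id, fun _ => rfl⟩

@[fun_prop]
protected theorem PolyTime.natAbs {f : α → ℤ} (hf : PolyTime f) :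
    PolyTime (fun a => (f a).natAbs) :=
  (pt_sgnAbs.comp hf).snd

@[fun_prop]
protected theorem PolyTime.int_neg_decide {f : α → ℤ} (hf : PolyTime f) :
    PolyTime (fun a => decide (f a < 0)) :=
  (pt_sgnAbs.comp hf).fst

/-- the integer with given sign and absolute value -/
def mkInt (s : Bool) (n : ℕ) : ℤ := bif s then -(n : ℤ) else n

@[fun_prop]
theorem pt_mkInt {s : α → Bool} {n : α → ℕ} (hs : PolyTime s) (hn : PolyTime n) :
    PolyTime (fun a => mkInt (s a) (n a)) := by
  refine PolyTime.of_enc (g := fun a => (s a && !decide (n a = 0), n a)) (by fun_prop)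
    (fun a => ?_)
  change enc (decide (mkInt (s a) (n a) < 0), (mkInt (s a) (n a)).natAbs) = _
  congr 2
  · rw [mkInt]
    cases s a
    · simp
    · by_cases h : n a = 0
      · simp [h]
      · simp [h]; omega
  · rw [mkInt]
    cases s a <;> simp

@[fun_prop]
protected theorem PolyTime.natCast_int {n : α → ℕ} (hn : PolyTime n) :
    PolyTime (fun a => ((n a : ℕ) : ℤ)) :=
  (pt_mkInt (PolyTime.const false) hn).congr (fun a => rfl)

@[fun_prop]
protected theorem PolyTime.int_neg {f : α → ℤ} (hf : PolyTime f) : PolyTime (fun a => -(f a)) := by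
  refine (pt_mkInt (s := fun a => !decide (f a < 0)) (n := fun a => (f a).natAbs) (by fun_prop)
    (by fun_prop)).congr (fun a => ?_)
  rw [mkInt]
  by_cases h : f a < 0
  · simp only [h, decide_true, Bool.not_true, cond_false]; omega
  · simp only [h, decide_false, Bool.not_false, cond_true]; omega

@[fun_prop]
protected theorem PolyTime.int_mul {f g : α → ℤ} (hf : PolyTime f) (hg : PolyTime g) :
    PolyTime (fun a => f a * g a) := by
  refine (pt_mkInt (s := fun a => Bool.xor (decide (f a < 0)) (decide (g a < 0)))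
    (n := fun a => (f a).natAbs * (g a).natAbs) (by fun_prop) (by fun_prop)).congr (fun a => ?_)
  rw [mkInt]
  push_cast
  by_cases h1 : f a < 0 <;> by_cases h2 : g a < 0
  · simp only [h1, h2, decide_true, Bool.xor_true, Bool.not_true, cond_false]
    rw [abs_of_neg h1, abs_of_neg h2]; ring
  · simp only [h1, h2, decide_true, decide_false, Bool.xor_false, cond_true]
    rw [abs_of_neg h1, abs_of_nonneg (by omega)]; ring
  · simp only [h1, h2, decide_true, decide_false, Bool.false_xor, cond_true]
    rw [abs_of_neg h2, abs_of_nonneg (by omega)]; ring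
  · simp only [h1, h2, decide_false, Bool.xor_false, cond_false]
    rw [abs_of_nonneg (by omega), abs_of_nonneg (by omega)]

@[fun_prop]
protected theorem PolyTime.int_add {f g : α → ℤ} (hf : PolyTime f) (hg : PolyTime g) :
    PolyTime (fun a => f a + g a) := by
  refine (PolyTime.cond (c := fun a => Bool.xor (decide (f a < 0)) (decide (g a < 0)))
    (f := fun a => bif decide ((g a).natAbs ≤ (f a).natAbs)
      then mkInt (decide (f a < 0)) ((f a).natAbs - (g a).natAbs)
      else mkInt (decide (g a < 0)) ((g a).natAbs - (f a).natAbs))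
    (g := fun a => mkInt (decide (f a < 0)) ((f a).natAbs + (g a).natAbs))
    (by fun_prop) (by fun_prop) (by fun_prop)).congr (fun a => ?_)
  simp only [mkInt]
  by_cases h1 : f a < 0 <;> by_cases h2 : g a < 0 <;>
    by_cases h3 : (g a).natAbs ≤ (f a).natAbs <;>
    simp only [h1, h2, h3, decide_true, decide_false, Bool.xor_true, Bool.xor_false,
      Bool.not_true, Bool.not_false, cond_true, cond_false] <;> omega

@[fun_prop]
protected theorem PolyTime.int_sub {f g : α → ℤ} (hf : PolyTime f) (hg : PolyTime g) :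
    PolyTime (fun a => f a - g a) :=
  (PolyTime.int_add hf (PolyTime.int_neg hg)).congr (fun a => by ring)

@[fun_prop]
protected theorem PolyTime.int_decide_lt {f g : α → ℤ} (hf : PolyTime f) (hg : PolyTime g) :
    PolyTime (fun a => decide (f a < g a)) :=
  (PolyTime.int_neg_decide (PolyTime.int_sub hf hg)).congr (fun a => by
    rw [Bool.eq_iff_iff]; simp)

@[fun_prop]
protected theorem PolyTime.int_decide_le {f g : α → ℤ} (hf : PolyTime f) (hg : PolyTime g) :
    PolyTime (fun a => decide (f a ≤ g a)) :=
  (PolyTime.not (PolyTime.int_decide_lt hg hf)).congr (fun a => by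
    rw [Bool.eq_iff_iff]; simp)

@[fun_prop]
protected theorem PolyTime.toNat {f : α → ℤ} (hf : PolyTime f) :
    PolyTime (fun a => (f a).toNat) :=
  (PolyTime.cond (PolyTime.int_neg_decide hf) (PolyTime.const 0) (PolyTime.natAbs hf)).congr
    (fun a => by
      by_cases h : f a < 0
      · simp only [h, decide_true, cond_true]; omega
      · simp only [h, decide_false, cond_false]; omega)

theorem size_int_add (x y : ℤ) : size (x + y) ≤ size x + size y + 1 := by
  rw [size_int, size_int, size_int]
  have h1 : (x + y).natAbs ≤ x.natAbs + y.natAbs := Int.natAbs_add_le _ _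
  have h2 := size_nat_mono h1
  have h3 := size_nat_add x.natAbs y.natAbs
  omega

theorem size_int_mul (x y : ℤ) : size (x * y) ≤ size x + size y := by
  rw [size_int, size_int, size_int, Int.natAbs_mul]
  have h3 := size_nat_mul x.natAbs y.natAbs
  omega

theorem size_int_sum_le (l : List ℤ) : size l.sum ≤ size l + 3 := by
  induction l with
  | nil => simp [size_int, size_nat]
  | cons a l ih =>
    rw [List.sum_cons, size_cons]
    have := size_int_add a l.sum
    have h2 := size_int a
    omega

@[fun_prop]
protected theorem PolyTime.int_sum {l : α → List ℤ} (hl : PolyTime l) :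
    PolyTime (fun a => (l a).sum) := by
  refine (PolyTime.foldr (s := fun _ => (0 : ℤ)) (h := fun _ m n => m + n) hl (PolyTime.const 0)
    (by fun_prop) (hl.pbd.add (PBd.const 3)) ?_).congr (fun a => rfl)
  intro a i
  refine (size_int_sum_le _).trans (Nat.add_le_add_right ?_ _)
  exact size_sublist (List.drop_sublist _ _)

/-! ### rationals -/

@[fun_prop]
protected theorem PolyTime.num {f : α → ℚ} (hf : PolyTime f) : PolyTime (fun a => (f a).num) := by
  have h : PolyTime (fun q : ℚ => (q.num, q.den)) := ⟨fun x => x, FP.id, fun _ => rfl⟩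
  exact (h.comp hf).fst

@[fun_prop]
protected theorem PolyTime.den {f : α → ℚ} (hf : PolyTime f) : PolyTime (fun a => (f a).den) := by
  have h : PolyTime (fun q : ℚ => (q.num, q.den)) := ⟨fun x => x, FP.id, fun _ => rfl⟩
  exact (h.comp hf).snd

/-- the fraction `n / d` in lowest terms -/
@[fun_prop]
theorem pt_divInt {n : α → ℤ} {d : α → ℕ} (hn : PolyTime n) (hd : PolyTime d) :
    PolyTime (fun a => mkRat (n a) (d a)) := by
  let g : α → ℕ := fun a => Nat.gcd (n a).natAbs (d a)
  have hg : PolyTime g := by fun_prop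
  refine PolyTime.of_enc (g := fun a => bif decide (d a = 0) then ((0 : ℤ), 1) else
    (mkInt (decide (n a < 0)) ((n a).natAbs / g a), d a / g a)) (by fun_prop) (fun a => ?_)
  change enc ((mkRat (n a) (d a)).num, (mkRat (n a) (d a)).den) = _
  congr 1
  by_cases h : d a = 0
  · rw [h]; rfl
  · simp only [h, decide_false, cond_false]
    rw [Rat.mkRat_eq_divInt, ]
    have h1 : (Rat.divInt (n a) (d a)).num = n a / ((n a).natAbs.gcd (d a) : ℕ) ∧
        (Rat.divInt (n a) (d a)).den = d a / ((n a).natAbs.gcd (d a)) := by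
      rw [← Rat.mkRat_eq_divInt, ← Rat.normalize_eq_mkRat h, Rat.normalize_eq]
      exact ⟨rfl, rfl⟩
    rw [h1.1, h1.2]
    refine Prod.ext ?_ rfl
    simp only [mkInt]
    have hdvd : ((n a).natAbs.gcd (d a)) ∣ (n a).natAbs := Nat.gcd_dvd_left _ _
    obtain ⟨c, hc⟩ := hdvd
    have hpos : 0 < (n a).natAbs.gcd (d a) := Nat.gcd_pos_of_pos_right _ (by omega)
    have h4 : (n a).natAbs / ((n a).natAbs.gcd (d a)) = c :=
      Nat.div_eq_of_eq_mul_right hpos hc
    have h5 : (((n a).natAbs.gcd (d a) : ℕ) : ℤ) ≠ 0 := by exact_mod_cast hpos.ne'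
    have h6 : ((n a).natAbs : ℤ) = ((n a).natAbs.gcd (d a) : ℕ) * (c : ℤ) := by
      exact_mod_cast hc
    by_cases h2 : n a < 0
    · simp only [h2, decide_true, cond_true]
      change n a / (((n a).natAbs.gcd (d a) : ℕ) : ℤ) =
        -(((n a).natAbs / ((n a).natAbs.gcd (d a)) : ℕ) : ℤ)
      rw [h4]
      refine Int.ediv_eq_of_eq_mul_right h5 ?_
      rw [mul_neg, ← h6]
      omega
    · simp only [h2, decide_false, cond_false]
      change n a / (((n a).natAbs.gcd (d a) : ℕ) : ℤ) =
        (((n a).natAbs / ((n a).natAbs.gcd (d a)) : ℕ) : ℤ)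
      rw [h4]
      refine Int.ediv_eq_of_eq_mul_right h5 ?_
      rw [← h6]
      omega

@[fun_prop]
protected theorem PolyTime.rat_neg {f : α → ℚ} (hf : PolyTime f) : PolyTime (fun a => -(f a)) :=
  (pt_divInt (n := fun a => -(f a).num) (d := fun a => (f a).den) (by fun_prop)
    (by fun_prop)).congr (fun a => by
      rw [Rat.mkRat_eq_div]
      push_cast
      conv_rhs => rw [← Rat.num_div_den (f a)]
      ring)

@[fun_prop]
protected theorem PolyTime.rat_add {f g : α → ℚ} (hf : PolyTime f) (hg : PolyTime g) :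
    PolyTime (fun a => f a + g a) :=
  (pt_divInt (n := fun a => (f a).num * (g a).den + (g a).num * (f a).den)
    (d := fun a => (f a).den * (g a).den) (by fun_prop) (by fun_prop)).congr (fun a => by
      rw [Rat.mkRat_eq_div]
      have h1 : ((f a).den : ℚ) ≠ 0 := by exact_mod_cast (f a).den_nz
      have h2 : ((g a).den : ℚ) ≠ 0 := by exact_mod_cast (g a).den_nz
      conv_rhs => rw [← Rat.num_div_den (f a), ← Rat.num_div_den (g a)]
      push_cast
      field_simp)

@[fun_prop]
protected theorem PolyTime.rat_sub {f g : α → ℚ} (hf : PolyTime f) (hg : PolyTime g) :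
    PolyTime (fun a => f a - g a) :=
  (PolyTime.rat_add hf (PolyTime.rat_neg hg)).congr (fun a => by ring)

@[fun_prop]
protected theorem PolyTime.rat_mul {f g : α → ℚ} (hf : PolyTime f) (hg : PolyTime g) :
    PolyTime (fun a => f a * g a) :=
  (pt_divInt (n := fun a => (f a).num * (g a).num)
    (d := fun a => (f a).den * (g a).den) (by fun_prop) (by fun_prop)).congr (fun a => by
      rw [Rat.mkRat_eq_div]
      have h1 : ((f a).den : ℚ) ≠ 0 := by exact_mod_cast (f a).den_nz
      have h2 : ((g a).den : ℚ) ≠ 0 := by exact_mod_cast (g a).den_nz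
      conv_rhs => rw [← Rat.num_div_den (f a), ← Rat.num_div_den (g a)]
      push_cast
      field_simp)

@[fun_prop]
protected theorem PolyTime.rat_inv {f : α → ℚ} (hf : PolyTime f) : PolyTime (fun a => (f a)⁻¹) := by
  refine (pt_divInt (n := fun a => bif decide ((f a).num < 0) then -((f a).den : ℤ)
    else ((f a).den : ℤ)) (d := fun a => (f a).num.natAbs) (by fun_prop)
    (by fun_prop)).congr (fun a => ?_)
  rw [Rat.mkRat_eq_div]
  have h1 : ((f a).den : ℚ) ≠ 0 := by exact_mod_cast (f a).den_nz
  conv_rhs => rw [← Rat.num_div_den (f a)]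
  by_cases h2 : (f a).num < 0
  · simp only [h2, decide_true, cond_true]
    have h3 : (((f a).num.natAbs : ℕ) : ℚ) = -((f a).num : ℚ) := by
      have : (((f a).num.natAbs : ℕ) : ℤ) = -(f a).num := by omega
      rw [← Int.cast_natCast, this, Int.cast_neg]
    rw [h3, inv_div]
    push_cast
    rw [neg_div_neg_eq]
  · simp only [h2, decide_false, cond_false]
    have h3 : (((f a).num.natAbs : ℕ) : ℚ) = ((f a).num : ℚ) := by
      have : (((f a).num.natAbs : ℕ) : ℤ) = (f a).num := by omega
      rw [← Int.cast_natCast, this]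
    rw [h3, inv_div]
    push_cast
    rfl

@[fun_prop]
protected theorem PolyTime.rat_div {f g : α → ℚ} (hf : PolyTime f) (hg : PolyTime g) :
    PolyTime (fun a => f a / g a) :=
  (PolyTime.rat_mul hf (PolyTime.rat_inv hg)).congr (fun a => by rw [div_eq_mul_inv])

@[fun_prop]
protected theorem PolyTime.intCast_rat {f : α → ℤ} (hf : PolyTime f) :
    PolyTime (fun a => ((f a : ℤ) : ℚ)) :=
  (pt_divInt hf (PolyTime.const 1)).congr (fun a => by rw [Rat.mkRat_eq_div]; simp)

@[fun_prop]
protected theorem PolyTime.natCast_rat {f : α → ℕ} (hf : PolyTime f) :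
    PolyTime (fun a => ((f a : ℕ) : ℚ)) :=
  (PolyTime.intCast_rat (PolyTime.natCast_int hf)).congr (fun a => by simp)

@[fun_prop]
protected theorem PolyTime.rat_decide_lt {f g : α → ℚ} (hf : PolyTime f) (hg : PolyTime g) :
    PolyTime (fun a => decide (f a < g a)) := by
  refine (PolyTime.int_neg_decide (f := fun a => (f a - g a).num) (by fun_prop)).congr
    (fun a => ?_)
  rw [Bool.eq_iff_iff]
  simp only [decide_eq_true_eq, Rat.num_neg, sub_neg]

@[fun_prop]
protected theorem PolyTime.rat_decide_le {f g : α → ℚ} (hf : PolyTime f) (hg : PolyTime g) :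
    PolyTime (fun a => decide (f a ≤ g a)) :=
  (PolyTime.not (PolyTime.rat_decide_lt hg hf)).congr (fun a => by
    rw [Bool.eq_iff_iff]; simp)

end

end Pool.Agent.PolyTime
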