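import Pool.Agent.PolyTime.Simul

/-!
# Polynomial time computable string functions: closure properties

`FP f` says that `f : List Bool → List Bool` is computed in polynomial time by one of Mathlib's
multi-stack Turing machines (`Turing.TM2ComputableInPolyTime`).  This file collects the closure
properties of `FP`.
-/

namespace Pool.Agent.PolyTime

theorem FP_iff_ProgFP {f : List Bool → List Bool} : FP f ↔ Prog.ProgFP f :=
  ⟨ProgFP_of_FP, FP_of_ProgFP⟩

/-- The identity. -/
theorem FP.id : FP (fun x => x) := FP_of_ProgFP Prog.ProgFP.id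

/-- Composition. -/
theorem FP.comp {g f : List Bool → List Bool} (hg : FP g) (hf : FP f) : FP (fun x => g (f x)) :=
  FP_of_ProgFP (Prog.ProgFP.comp (ProgFP_of_FP hg) (ProgFP_of_FP hf))

/-- The empty string. -/
theorem FP.nil : FP (fun _ => []) := FP_of_ProgFP Prog.ProgFP.nil

/-- Adding a bit in front. -/
theorem FP.cons (b : Bool) : FP (fun x => b :: x) := FP_of_ProgFP (Prog.ProgFP.cons b)

/-- Removing the first bit. -/
theorem FP.tail : FP (fun x => x.tail) := FP_of_ProgFP Prog.ProgFP.tail

/-- Pairing. -/
theorem FP.pair {f g : List Bool → List Bool} (hf : FP f) (hg : FP g) :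
    FP (fun x => pr (f x) (g x)) :=
  FP_of_ProgFP (Prog.ProgFP.pair (ProgFP_of_FP hf) (ProgFP_of_FP hg))

/-- First component. -/
theorem FP.p1 : FP p1 := FP_of_ProgFP Prog.ProgFP.p1

/-- Second component. -/
theorem FP.p2 : FP p2 := FP_of_ProgFP Prog.ProgFP.p2

/-- Case distinction on the first bit. -/
theorem FP.cases {c f g h : List Bool → List Bool} (hc : FP c) (hf : FP f) (hg : FP g)
    (hh : FP h) : FP (fun x => match c x with
      | [] => f x
      | false :: _ => g x
      | true :: _ => h x) :=
  FP_of_ProgFP (Prog.ProgFP.cases (ProgFP_of_FP hc) (ProgFP_of_FP hf) (ProgFP_of_FP hg)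
    (ProgFP_of_FP hh))

/-- Iteration of a function, with a polynomial bound on the intermediate results. -/
theorem FP.iter {f g h : List Bool → List Bool} (hf : FP f) (hg : FP g) (hh : FP h)
    (p : Polynomial ℕ)
    (hp : ∀ x i, i ≤ (g x).length → (f^[i] (h x)).length ≤ p.eval x.length) :
    FP (fun x => f^[(g x).length] (h x)) :=
  FP_of_ProgFP (Prog.ProgFP.iter (ProgFP_of_FP hf) (ProgFP_of_FP hg) (ProgFP_of_FP hh) p hp)

/-- The output length is polynomially bounded. -/
theorem FP.length_le {f : List Bool → List Bool} (hf : FP f) :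
    ∃ p : Polynomial ℕ, ∀ x, (f x).length ≤ p.eval x.length :=
  Prog.ProgFP.length_le (ProgFP_of_FP hf)

end Pool.Agent.PolyTime
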