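import Pool.Agent.PolyTime.Classes

/-!
NP with certificates that are lists of natural numbers; NP problems on arbitrary encoded types.
-/

set_option linter.dupNamespace false

namespace Pool.Agent.PolyTime

section

variable {α β γ : Type} [PEnc α] [PEnc β] [PEnc γ]

/-- Every NP problem on an encoded type reduces to an NP language of strings. -/
theorem InNP.exists_string {A : Set α} (hA : InNP A) :
    ∃ L : Set (List Bool), InNP L ∧ Red A L := by
  obtain ⟨V, k, hV, hV'⟩ := hA
  obtain ⟨F, hF, hF'⟩ := hV
  obtain ⟨D, hD, hD'⟩ := exists_decString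
  have hG : PolyTime (fun p : List Bool × List Bool => F (pr p.1 (enc p.2))) := by
    refine ⟨fun x => enc (F (pr (D (p1 x)) (p2 x))),
      FP_encString.comp (hF.comp (FP.pair (hD.comp FP.p1) FP.p2)), fun p => ?_⟩
    beta_reduce
    rw [enc_prod, p1_pr, p2_pr, hD']
  refine ⟨{x | ∃ w : List Bool, w.length ≤ (x.length + 2) ^ k ∧ F (pr x (enc w)) = [true]},
    ⟨fun p => decide (p.2.length ≤ (p.1.length + 2) ^ k) &&
      decide (F (pr p.1 (enc p.2)) = [true]), k, ?_, fun x => ?_⟩, ?_⟩
  · exact PolyTime.and (PolyTime.decide_le (by fun_prop) (by fun_prop))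
      (PolyTime.decideEq hG (PolyTime.const _))
  · simp only [Set.mem_setOf_eq, Bool.and_eq_true, decide_eq_true_eq]
    constructor
    · rintro ⟨w, h1, h2⟩
      refine ⟨w, h1.trans (Nat.pow_le_pow_left ?_ k), h1, h2⟩
      have := length_le_size x
      omega
    · rintro ⟨w, _, h1, h2⟩
      exact ⟨w, h1, h2⟩
  · refine ⟨fun a => enc a, ⟨fun x => enc x, FP_encString, fun a => rfl⟩, fun a => ?_⟩
    rw [hV' a]
    simp only [Set.mem_setOf_eq]
    refine exists_congr fun w => and_congr Iff.rfl ?_
    have h1 : F (pr (enc a) (enc w)) = [V (a, w)] := hF' (a, w)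
    rw [h1]
    simp

/-- If P = NP on strings, then P = NP on every encoded type. -/
theorem InP.of_NP {A : Set α} (H : ∀ L : Set (List Bool), InNP L → InP L) (hA : InNP A) :
    InP A := by
  obtain ⟨L, hL, hR⟩ := hA.exists_string
  exact InP.of_red hR (H L hL)

/-! ### certificates that are lists of natural numbers of fixed width -/

/-- the `i`-th block of width `W` of a string, as a number -/
def blk (W : ℕ) (w : List Bool) (i : ℕ) : ℕ := valMSB ((w.drop (i * W)).take W)

theorem blk_lt (W : ℕ) (w : List Bool) (i : ℕ) : blk W w i < 2 ^ W :=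
  (valMSB_lt _).trans_le (Nat.pow_le_pow_right (by norm_num) (by simp))

/-- every small number is the value of a block -/
theorem exists_block (W x : ℕ) (hx : x < 2 ^ W) : ∃ l : List Bool, l.length = W ∧ valMSB l = x := by
  induction W generalizing x with
  | zero =>
    refine ⟨[], rfl, ?_⟩
    have : x = 0 := by simpa using hx
    subst this
    rfl
  | succ W ih =>
    obtain ⟨l, hl, hl'⟩ := ih (x / 2) (by rw [pow_succ] at hx; omega)
    refine ⟨l ++ [Nat.bodd x], by simp [hl], ?_⟩
    rw [valMSB_append_singleton, hl', ← Nat.div2_val, Nat.bit_bodd_div2]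

theorem exists_blocks (W N : ℕ) (f : ℕ → ℕ) (hf : ∀ i < N, f i < 2 ^ W) :
    ∃ w : List Bool, w.length = N * W ∧ ∀ i < N, blk W w i = f i := by
  induction N with
  | zero => exact ⟨[], by simp, fun i hi => absurd hi (Nat.not_lt_zero i)⟩
  | succ N ih =>
    obtain ⟨w, hw, hw'⟩ := ih (fun i hi => hf i (by omega))
    obtain ⟨l, hl, hl'⟩ := exists_block W (f N) (hf N (by omega))
    refine ⟨w ++ l, by rw [List.length_append, hw, hl, Nat.succ_mul], fun i hi => ?_⟩
    rcases Nat.lt_succ_iff_lt_or_eq.1 hi with h | rfl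
    · have h1 : (i + 1) * W ≤ w.length := by
        rw [hw]; exact Nat.mul_le_mul_right _ h
      rw [← hw' i h]
      unfold blk
      have h2 : i * W ≤ w.length := by
        rw [Nat.succ_mul] at h1; omega
      rw [List.drop_append_of_le_length h2, List.take_append_of_le_length]
      rw [List.length_drop]
      rw [Nat.succ_mul] at h1
      omega
    · unfold blk
      rw [← hw, List.drop_left, List.take_of_length_le hl.le, hl']

theorem polyTime_blk {W i : α → ℕ} {w : α → List Bool} (hW : PolyTime W) (hw : PolyTime w)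
    (hi : PolyTime i) : PolyTime (fun a => blk (W a) (w a) (i a)) := by
  unfold blk
  exact pt_valMSB (by fun_prop)

/-- NP membership from certificates that are lists of `N a` numbers below `2 ^ W a`. -/
theorem InNP.of_list {A : Set α} (V : α × List ℕ → Bool) (hV : PolyTime V) (N W : α → ℕ)
    (hN : PolyTime N) (hNb : PBd N) (hW : PolyTime W) (hWb : PBd W)
    (h : ∀ a, a ∈ A ↔ ∃ f : ℕ → ℕ, (∀ i < N a, f i < 2 ^ W a) ∧
      V (a, (List.range (N a)).map f) = true) : InNP A := by
  obtain ⟨k, hk⟩ := hNb.mul hWb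
  have h1 : PolyTime (fun p : α × List Bool => List.range (N p.1)) :=
    (PolyTime.range hN hNb).comp PolyTime.fst'
  have h2 : PolyTime (fun p : α × List Bool =>
      (List.range (N p.1)).map (fun i => blk (W p.1) p.2 i)) :=
    PolyTime.map h1 (polyTime_blk (by fun_prop) (by fun_prop) (by fun_prop))
  refine ⟨fun p => V (p.1, (List.range (N p.1)).map (fun i => blk (W p.1) p.2 i)), k,
    hV.comp (PolyTime.fst'.prodMk h2), fun a => ?_⟩
  rw [h a]
  constructor
  · rintro ⟨f, hf, hv⟩
    obtain ⟨w, hw, hw'⟩ := exists_blocks (W a) (N a) f hf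
    refine ⟨w, by rw [hw]; exact hk a, ?_⟩
    have h3 : (List.range (N a)).map (fun i => blk (W a) w i) = (List.range (N a)).map f :=
      List.map_congr_left (fun i hi => hw' i (List.mem_range.1 hi))
    beta_reduce
    rw [h3]
    exact hv
  · rintro ⟨w, _, hv⟩
    exact ⟨fun i => blk (W a) w i, fun i _ => blk_lt _ _ _, hv⟩

end

end Pool.Agent.PolyTime
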