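import Pool.Agent.PolyTime.CookLevin

/-!
CLIQUE is NP-hard, also for instances in a padded normal form.
-/

set_option linter.dupNamespace false

namespace Pool.Agent.PolyTime

/-- The graph on `0, ..., n-1` whose edges are the pairs `u < v` in `E` has a clique with `k`
vertices. -/
def HasClique (n : ℕ) (E : List (ℕ × ℕ)) (k : ℕ) : Prop :=
  ∃ K : Finset ℕ, K ⊆ Finset.range n ∧ K.card = k ∧ ∀ u ∈ K, ∀ v ∈ K, u < v → (u, v) ∈ E

/-- the problem CLIQUE -/
def CLIQUE : Set (ℕ × List (ℕ × ℕ) × ℕ) := {G | HasClique G.1 G.2.1 G.2.2}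

namespace Clq

abbrev Vt : Type := ℕ × ℕ × Bool

/-- pairs (clause index, literal) -/
def verts (φ : List (List (ℕ × Bool))) : List Vt :=
  (List.range φ.length).flatMap (fun i => (φ.getD i []).map (fun l => (i, l)))

/-- different clauses, literals not complementary -/
def compat (x y : Vt) : Bool :=
  !decide (x.1 = y.1) && !(decide (x.2.1 = y.2.1) && !decide (x.2.2 = y.2.2))

def E0 (V : List Vt) : List (ℕ × ℕ) :=
  (List.range V.length).flatMap (fun a =>
    ((List.range V.length).filter (fun b => decide (b < a) &&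
      compat (V.getD b (0, 0, false)) (V.getD a (0, 0, false)))).map (fun b => (b, a)))

def Em (n P : ℕ) : List (ℕ × ℕ) := (List.range P).map (fun t => (n + 2 * t, n + 2 * t + 1))

/-- the instance -/
def inst (φ : List (List (ℕ × Bool))) : ℕ × List (ℕ × ℕ) × ℕ :=
  ((verts φ).length + 2 * (φ.length * φ.length),
    E0 (verts φ) ++ Em (verts φ).length (φ.length * φ.length), φ.length)

/-- four dummy clauses -/
def dummy (φ : List (List (ℕ × Bool))) : List (List (ℕ × Bool)) :=
  [[(0, true)], [(0, true)], [(0, true)], [(0, true)]] ++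
    φ.map (fun c => c.map (fun l => (l.1 + 1, l.2)))

theorem polyTime_verts : PolyTime verts := by
  unfold verts
  fun_prop

theorem polyTime_E0 : PolyTime E0 := by
  unfold E0 compat
  fun_prop

theorem polyTime_inst : PolyTime inst := by
  unfold inst
  have h1 := polyTime_verts
  have h2 := polyTime_E0
  unfold Em
  have h3 : PolyTime (fun φ => E0 (verts φ)) := h2.comp h1
  have h4 : PolyTime (fun φ : List (List (ℕ × Bool)) => List.range (φ.length * φ.length)) :=
    PolyTime.range (by fun_prop) ((pbd_length PolyTime.id).mul (pbd_length PolyTime.id))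
  have h5 : PolyTime (fun φ : List (List (ℕ × Bool)) => (List.range (φ.length * φ.length)).map
      (fun t => ((verts φ).length + 2 * t, (verts φ).length + 2 * t + 1))) :=
    PolyTime.map h4 (by fun_prop)
  fun_prop

theorem polyTime_dummy : PolyTime dummy := by
  unfold dummy
  fun_prop

theorem mem_verts {φ : List (List (ℕ × Bool))} {x : Vt} :
    x ∈ verts φ ↔ x.1 < φ.length ∧ x.2 ∈ φ.getD x.1 [] := by
  unfold verts
  simp only [List.mem_flatMap, List.mem_range, List.mem_map]
  constructor
  · rintro ⟨i, hi, l, hl, rfl⟩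
    exact ⟨hi, hl⟩
  · rintro ⟨h1, h2⟩
    exact ⟨x.1, h1, x.2, h2, rfl⟩

theorem mem_E0 {V : List Vt} {u v : ℕ} : (u, v) ∈ E0 V ↔
    u < v ∧ v < V.length ∧ compat (V.getD u (0, 0, false)) (V.getD v (0, 0, false)) = true := by
  unfold E0
  simp only [List.mem_flatMap, List.mem_range, List.mem_map, List.mem_filter, Bool.and_eq_true,
    decide_eq_true_eq, Prod.mk.injEq]
  constructor
  · rintro ⟨a, ha, b, ⟨hb, hba, hc⟩, rfl, rfl⟩
    exact ⟨hba, ha, hc⟩
  · rintro ⟨h1, h2, h3⟩
    exact ⟨v, h2, u, ⟨h1.trans h2, h1, h3⟩, rfl, rfl⟩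

theorem mem_Em {n P u v : ℕ} : (u, v) ∈ Em n P ↔ ∃ t < P, u = n + 2 * t ∧ v = n + 2 * t + 1 := by
  unfold Em
  simp only [List.mem_map, List.mem_range, Prod.mk.injEq]
  constructor
  · rintro ⟨t, ht, rfl, rfl⟩; exact ⟨t, ht, rfl, rfl⟩
  · rintro ⟨t, ht, rfl, rfl⟩; exact ⟨t, ht, rfl, rfl⟩

theorem nodup_E0 (V : List Vt) : (E0 V).Nodup := by
  unfold E0
  rw [List.nodup_flatMap]
  refine ⟨fun a _ => ?_, ?_⟩
  · exact (List.nodup_range.filter _).map (fun x y h => by simpa using h)
  · refine List.nodup_range.imp (fun {a b} hab => ?_)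
    intro x hx hy
    rw [List.mem_map] at hx hy
    obtain ⟨c, _, rfl⟩ := hx
    obtain ⟨d, _, hd⟩ := hy
    simp only [Prod.mk.injEq] at hd
    exact hab hd.2.symm

theorem nodup_Em (n P : ℕ) : (Em n P).Nodup :=
  List.nodup_range.map (fun x y h => by
    simp only [Prod.mk.injEq] at h
    omega)

theorem nodup_inst (φ : List (List (ℕ × Bool))) : (inst φ).2.1.Nodup := by
  unfold inst
  rw [List.nodup_append]
  refine ⟨nodup_E0 _, nodup_Em _ _, ?_⟩
  rintro ⟨u, v⟩ h1 ⟨u', v'⟩ h2 h
  rw [mem_E0] at h1
  rw [mem_Em] at h2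
  obtain ⟨t, ht, h3, h4⟩ := h2
  simp only [Prod.mk.injEq] at h
  omega

theorem inst_edges {φ : List (List (ℕ × Bool))} {u v : ℕ} (h : (u, v) ∈ (inst φ).2.1) :
    u < v ∧ v < (inst φ).1 := by
  unfold inst at h ⊢
  simp only [List.mem_append] at h
  rcases h with h | h
  · rw [mem_E0] at h
    simp only
    omega
  · rw [mem_Em] at h
    obtain ⟨t, ht, h3, h4⟩ := h
    simp only
    omega

theorem inst_card {φ : List (List (ℕ × Bool))} (h4 : 4 ≤ φ.length) :
    (inst φ).2.2.choose 2 < (inst φ).2.1.length := by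
  unfold inst
  simp only [List.length_append]
  have h1 : (Em (verts φ).length (φ.length * φ.length)).length = φ.length * φ.length := by
    unfold Em; simp
  rw [h1]
  have h2 : φ.length.choose 2 < φ.length * φ.length := by
    rw [Nat.choose_two_right]
    have h3 : φ.length * (φ.length - 1) ≤ φ.length * φ.length := Nat.mul_le_mul_left _ (Nat.sub_le _ _)
    have h5 : 0 < φ.length * φ.length := by positivity
    omega
  omega

theorem inst_n {φ : List (List (ℕ × Bool))} (h4 : 4 ≤ φ.length) :
    (inst φ).2.2 + 1 ≤ (inst φ).1 := by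
  unfold inst
  simp only
  have : φ.length * 1 ≤ φ.length * φ.length := Nat.mul_le_mul_left _ (by omega)
  omega

theorem getD_mem_verts {φ : List (List (ℕ × Bool))} {a : ℕ} (ha : a < (verts φ).length) :
    (verts φ).getD a (0, 0, false) ∈ verts φ := by
  rw [List.getD_eq_getElem _ _ ha]
  exact List.getElem_mem ha

theorem compat_iff {x y : Vt} : compat x y = true ↔
    x.1 ≠ y.1 ∧ (x.2.1 = y.2.1 → x.2.2 = y.2.2) := by
  unfold compat
  simp only [Bool.and_eq_true, Bool.not_eq_true', decide_eq_false_iff_not, Bool.and_eq_false_iff,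
    Bool.not_eq_false', decide_eq_true_eq]
  tauto

theorem inst_iff {φ : List (List (ℕ × Bool))} (h4 : 4 ≤ φ.length) :
    HasClique (inst φ).1 (inst φ).2.1 (inst φ).2.2 ↔ φ ∈ SAT := by
  classical
  constructor
  · rintro ⟨K, hK, hcard, hE⟩
    have hcard' : K.card = φ.length := hcard
    -- no vertex of the matching belongs to the clique
    have hlow : ∀ w ∈ K, w < (verts φ).length := by
      intro w hw
      by_contra hge
      have h1 : 1 < (K.erase w).card := by
        rw [Finset.card_erase_of_mem hw]; omega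
      obtain ⟨a, ha, b, hb, hab⟩ := Finset.one_lt_card.1 h1
      rw [Finset.mem_erase] at ha hb
      have key : ∀ c ∈ K, c ≠ w → ∃ t, (w = (verts φ).length + 2 * t ∧ c = w + 1) ∨
          (c = (verts φ).length + 2 * t ∧ w = c + 1) := by
        intro c hc hcw
        rcases lt_or_gt_of_ne hcw with h | h
        · have h2 := hE c hc w hw h
          unfold inst at h2
          simp only [List.mem_append] at h2
          rcases h2 with h2 | h2
          · rw [mem_E0] at h2; omega
          · rw [mem_Em] at h2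
            obtain ⟨t, _, h3, h4⟩ := h2
            exact ⟨t, Or.inr ⟨h3, by omega⟩⟩
        · have h2 := hE w hw c hc h
          unfold inst at h2
          simp only [List.mem_append] at h2
          rcases h2 with h2 | h2
          · rw [mem_E0] at h2; omega
          · rw [mem_Em] at h2
            obtain ⟨t, _, h3, h4⟩ := h2
            exact ⟨t, Or.inl ⟨h3, by omega⟩⟩
      obtain ⟨t, ht⟩ := key a ha.2 ha.1
      obtain ⟨t', ht'⟩ := key b hb.2 hb.1
      omega
    have hcomp : ∀ u ∈ K, ∀ v ∈ K, u ≠ v →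
        compat ((verts φ).getD u (0, 0, false)) ((verts φ).getD v (0, 0, false)) = true := by
      have key : ∀ u ∈ K, ∀ v ∈ K, u < v →
          compat ((verts φ).getD u (0, 0, false)) ((verts φ).getD v (0, 0, false)) = true := by
        intro u hu v hv huv
        have h2 := hE u hu v hv huv
        unfold inst at h2
        simp only [List.mem_append] at h2
        rcases h2 with h2 | h2
        · exact (mem_E0.1 h2).2.2
        · rw [mem_Em] at h2
          obtain ⟨t, _, h3, h4⟩ := h2
          have := hlow u hu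
          omega
      intro u hu v hv huv
      rcases lt_or_gt_of_ne huv with h | h
      · exact key u hu v hv h
      · have := key v hv u hu h
        rw [compat_iff] at this ⊢
        exact ⟨this.1.symm, fun h => (this.2 h.symm).symm⟩
    -- the map to clause indices is injective, hence surjective
    let g : ℕ → ℕ := fun u => ((verts φ).getD u (0, 0, false)).1
    have hginj : Set.InjOn g K := by
      intro u hu v hv huv
      by_contra hne
      exact (compat_iff.1 (hcomp u hu v hv hne)).1 huv
    have himg : K.image g = Finset.range φ.length := by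
      apply Finset.eq_of_subset_of_card_le
      · intro i hi
        rw [Finset.mem_image] at hi
        obtain ⟨u, hu, rfl⟩ := hi
        rw [Finset.mem_range]
        exact (mem_verts.1 (getD_mem_verts (hlow u hu))).1
      · rw [Finset.card_image_of_injOn hginj, Finset.card_range, hcard']
    refine ⟨fun x => decide (∃ u ∈ K, ((verts φ).getD u (0, 0, false)).2 = (x, true)),
      fun c hc => ?_⟩
    obtain ⟨i, hi, rfl⟩ := List.getElem_of_mem hc
    have hi' : i ∈ K.image g := by rw [himg, Finset.mem_range]; exact hi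
    rw [Finset.mem_image] at hi'
    obtain ⟨u, hu, hgu⟩ := hi'
    have hmem := (mem_verts.1 (getD_mem_verts (hlow u hu))).2
    have hgu' : ((verts φ).getD u (0, 0, false)).1 = i := hgu
    rw [hgu', List.getD_eq_getElem _ _ hi] at hmem
    refine ⟨_, hmem, ?_⟩
    obtain ⟨x, hx⟩ : ∃ x, x = ((verts φ).getD u (0, 0, false)).2 := ⟨_, rfl⟩
    rw [← hx]
    cases hb : x.2 with
    | true =>
      rw [decide_eq_true_eq]
      exact ⟨u, hu, by rw [← hx, ← hb]⟩
    | false =>
      rw [decide_eq_false_iff_not]
      rintro ⟨v, hv, hv'⟩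
      have hne : u ≠ v := by
        rintro rfl
        rw [← hx] at hv'
        rw [hv'] at hb
        exact absurd hb (by simp)
      have := (compat_iff.1 (hcomp u hu v hv hne)).2 (by rw [hv', ← hx])
      rw [hv', ← hx, hb] at this
      exact absurd this (by simp)
  · rintro ⟨s, hs⟩
    have hex : ∀ i : Fin φ.length, ∃ a < (verts φ).length,
        ((verts φ).getD a (0, 0, false)).1 = i ∧
        s ((verts φ).getD a (0, 0, false)).2.1 = ((verts φ).getD a (0, 0, false)).2.2 := by
      intro i
      obtain ⟨l, hl, hsl⟩ := hs (φ[i.val]) (List.getElem_mem i.2)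
      have hm : ((i : ℕ), l) ∈ verts φ := by
        rw [mem_verts]
        refine ⟨i.2, ?_⟩
        rw [List.getD_eq_getElem _ _ i.2]
        exact hl
      obtain ⟨a, ha, ha'⟩ := List.getElem_of_mem hm
      refine ⟨a, ha, ?_⟩
      rw [List.getD_eq_getElem _ _ ha, ha']
      exact ⟨rfl, hsl⟩
    choose a ha ha1 ha2 using hex
    have hinj : Function.Injective a := by
      intro i j hij
      apply Fin.ext
      rw [← ha1 i, ← ha1 j, hij]
    refine ⟨Finset.univ.image a, ?_, ?_, ?_⟩
    · intro x hx
      rw [Finset.mem_image] at hx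
      obtain ⟨i, _, rfl⟩ := hx
      rw [Finset.mem_range]
      have := ha i
      unfold inst
      simp only
      omega
    · rw [Finset.card_image_of_injective _ hinj, Finset.card_univ, Fintype.card_fin]
      rfl
    · intro u hu v hv huv
      rw [Finset.mem_image] at hu hv
      obtain ⟨i, _, rfl⟩ := hu
      obtain ⟨j, _, rfl⟩ := hv
      unfold inst
      simp only [List.mem_append]
      left
      rw [mem_E0]
      refine ⟨huv, ha j, ?_⟩
      rw [compat_iff]
      constructor
      · rw [ha1, ha1]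
        intro h
        rw [Fin.ext h] at huv
        exact lt_irrefl _ huv
      · intro h
        rw [← ha2 i, ← ha2 j, h]

theorem length_dummy (φ : List (List (ℕ × Bool))) : (dummy φ).length = φ.length + 4 := by
  unfold dummy
  simp

theorem dummy_iff (φ : List (List (ℕ × Bool))) : dummy φ ∈ SAT ↔ φ ∈ SAT := by
  constructor
  · rintro ⟨s, hs⟩
    refine ⟨fun x => s (x + 1), fun c hc => ?_⟩
    obtain ⟨l, hl, hl'⟩ := hs (c.map (fun l => (l.1 + 1, l.2))) (by
      unfold dummy
      rw [List.mem_append]
      exact Or.inr (List.mem_map_of_mem hc))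
    rw [List.mem_map] at hl
    obtain ⟨l0, hl0, rfl⟩ := hl
    exact ⟨l0, hl0, hl'⟩
  · rintro ⟨s, hs⟩
    refine ⟨fun x => bif decide (x = 0) then true else s (x - 1), fun c hc => ?_⟩
    unfold dummy at hc
    rw [List.mem_append] at hc
    rcases hc with hc | hc
    · have : c = [(0, true)] := by simpa using hc
      subst this
      exact ⟨(0, true), by simp, by simp⟩
    · rw [List.mem_map] at hc
      obtain ⟨c0, hc0, rfl⟩ := hc
      obtain ⟨l, hl, hl'⟩ := hs c0 hc0
      exact ⟨(l.1 + 1, l.2), List.mem_map_of_mem hl, by simpa using hl'⟩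

end Clq

/-- CLIQUE instances `(n, E, k)` in a padded normal form. -/
structure CliqueNormal (G : ℕ × List (ℕ × ℕ) × ℕ) : Prop where
  nodup : G.2.1.Nodup
  edges : ∀ u v, (u, v) ∈ G.2.1 → u < v ∧ v < G.1
  four_le : 4 ≤ G.2.2
  lt_n : G.2.2 + 1 ≤ G.1
  card : G.2.2.choose 2 < G.2.1.length

/-- Reduction from SAT to CLIQUE, all instances being in normal form. -/
theorem exists_sat_to_clique : ∃ g : List (List (ℕ × Bool)) → ℕ × List (ℕ × ℕ) × ℕ,
    PolyTime g ∧ ∀ φ, CliqueNormal (g φ) ∧ (φ ∈ SAT ↔ g φ ∈ CLIQUE) := by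
  refine ⟨fun φ => Clq.inst (Clq.dummy φ), Clq.polyTime_inst.comp Clq.polyTime_dummy, fun φ => ?_⟩
  have h4 : 4 ≤ (Clq.dummy φ).length := by rw [Clq.length_dummy]; omega
  refine ⟨⟨Clq.nodup_inst _, fun u v h => Clq.inst_edges h, h4, Clq.inst_n h4,
    Clq.inst_card h4⟩, ?_⟩
  rw [← Clq.dummy_iff, ← Clq.inst_iff h4]
  rfl

theorem npHard_CLIQUE : NPHard CLIQUE := by
  obtain ⟨g, hg, h⟩ := exists_sat_to_clique
  exact npHard_SAT.of_red ⟨g, hg, fun φ => (h φ).2⟩

end Pool.Agent.PolyTime
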