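import Pool.Agent.PolyTime.Frame

/-!
Closure properties of `ProgFP`: length bound, composition, pairing.
-/

namespace Pool.Agent.PolyTime

open Function

set_option linter.unusedSectionVars false

theorem poly_mono (P : Polynomial ℕ) {m n : ℕ} (h : m ≤ n) : P.eval m ≤ P.eval n := by
  rw [Polynomial.eval_eq_sum, Polynomial.eval_eq_sum]
  apply Finset.sum_le_sum
  intro i _
  exact Nat.mul_le_mul_left _ (Nat.pow_le_pow_left h i)

/-- pairing of strings: every bit `b` of `u` becomes `true :: b`, then `false`, then `v` -/
def pr (u v : List Bool) : List Bool := (u.flatMap fun b => [true, b]) ++ false :: v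

/-- first component of a pair -/
def p1 : List Bool → List Bool
  | true :: b :: w => b :: p1 w
  | _ => []

/-- second component of a pair -/
def p2 : List Bool → List Bool
  | true :: _ :: w => p2 w
  | false :: w => w
  | _ => []

namespace Prog

/-- `p` computes `f` from register `k₀` to register `k₁` in time `P`. -/
def Comp {K : Type} [DecidableEq K] (p : Prog K) (k₀ k₁ : K) (f : List Bool → List Bool)
    (P : Polynomial ℕ) : Prop :=
  ∀ x, ∃ t, t ≤ P.eval x.length ∧ Exec p (single k₀ x) (single k₁ (f x)) t

theorem Comp.progFP {K : Type} [DecidableEq K] [Fintype K] {p : Prog K} {k₀ k₁ : K}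
    {f : List Bool → List Bool} {P : Polynomial ℕ} (h : Comp p k₀ k₁ f P) : ProgFP f :=
  ⟨K, inferInstance, inferInstance, k₀, k₁, p, P, h⟩

theorem ProgFP.length_le {f : List Bool → List Bool} (hf : ProgFP f) :
    ∃ p : Polynomial ℕ, ∀ x, (f x).length ≤ p.eval x.length := by
  obtain ⟨K, _, _, k₀, k₁, p, P, h⟩ := hf
  refine ⟨P + Polynomial.X, fun x => ?_⟩
  obtain ⟨t, ht, he⟩ := h x
  have := he.tot_le
  rw [tot_single, tot_single] at this
  simp only [Polynomial.eval_add, Polynomial.eval_X]
  omega

/-- The empty state. -/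
def bot (K : Type) : St K := fun _ => []

theorem bot_apply {K : Type} (k : K) : bot K k = [] := rfl

theorem bot_sum (K K' : Type) : bot (K ⊕ K') = Sum.elim (bot K) (bot K') := by
  funext j
  rcases j with j | j <;> rfl

theorem single_nil {K : Type} [DecidableEq K] (k : K) : single k [] = bot K := by
  unfold single bot
  simp

theorem update_bot {K : Type} [DecidableEq K] (k : K) (x : List Bool) :
    update (bot K) k x = single k x := rfl

theorem update_single {K : Type} [DecidableEq K] (k : K) (x y : List Bool) :
    update (single k x) k y = single k y := by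
  simp [single]

theorem single_self {K : Type} [DecidableEq K] (k : K) (x : List Bool) : single k x k = x := by
  simp [single]

theorem single_inl {K K' : Type} [DecidableEq K] [DecidableEq K'] (k : K) (x : List Bool) :
    single (Sum.inl k : K ⊕ K') x = Sum.elim (single k x) (bot K') := by
  funext j
  rcases j with j | j
  · by_cases h : j = k
    · subst h; simp [single]
    · simp [single, h]
  · simp [single, bot]

theorem single_inr {K K' : Type} [DecidableEq K] [DecidableEq K'] (k : K') (x : List Bool) :
    single (Sum.inr k : K ⊕ K') x = Sum.elim (bot K) (single k x) := by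
  funext j
  rcases j with j | j
  · simp [single, bot]
  · by_cases h : j = k
    · subst h; simp [single]
    · simp [single, h]

/-- State of a single register. -/
def one (u : List Bool) : St Unit := fun _ => u

theorem one_apply (u : List Bool) : one u () = u := rfl

theorem update_one (u v : List Bool) : update (one u) () v = one v := by
  funext j; simp [one]

theorem bot_unit : bot Unit = one [] := rfl

theorem single_unit (u : List Bool) : single () u = one u := by
  funext j; simp [one, single]

theorem ProgFP.comp_on {f v : List Bool → List Bool} (hf : ProgFP f)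
    {Kg : Type} [DecidableEq Kg] [Fintype Kg] (g₀ g₁ : Kg) (pg : Prog Kg) (Pg : Polynomial ℕ)
    (hg : ∀ x, ∃ t, t ≤ Pg.eval x.length ∧ Exec pg (single g₀ (f x)) (single g₁ (v x)) t) :
    ProgFP v := by
  obtain ⟨Kf, _, _, f₀, f₁, pf, Pf, hf⟩ := hf
  let p : Prog (Kf ⊕ (Kg ⊕ Unit)) :=
    seq (pf.map Sum.inl) (seq (moveRev (Sum.inl f₁) (Sum.inr (Sum.inr ())))
      (seq (moveRev (Sum.inr (Sum.inr ())) (Sum.inr (Sum.inl g₀)))
        ((pg.map Sum.inl).map Sum.inr)))
  refine Comp.progFP (p := p) (k₀ := Sum.inl f₀) (k₁ := Sum.inr (Sum.inl g₁))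
    (P := Pf + (2 * (Pf + Polynomial.X) + 1) + (2 * (Pf + Polynomial.X) + 1) + Pg)
    (fun x => ?_)
  obtain ⟨t, ht, he⟩ := hf x
  obtain ⟨t', ht', he'⟩ := hg x
  have hlen : (f x).length ≤ Pf.eval x.length + x.length := by
    have := he.tot_le
    rw [tot_single, tot_single] at this
    omega
  have e1 : Exec (pf.map Sum.inl)
      (Sum.elim (single f₀ x) (Sum.elim (bot Kg) (bot Unit)))
      (Sum.elim (single f₁ (f x)) (Sum.elim (bot Kg) (bot Unit))) t := he.inl _
  have e2 : Exec (moveRev (Sum.inl f₁ : Kf ⊕ (Kg ⊕ Unit)) (Sum.inr (Sum.inr ())))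
      (Sum.elim (single f₁ (f x)) (Sum.elim (bot Kg) (bot Unit)))
      (Sum.elim (bot _) (Sum.elim (bot _) (single () (f x).reverse)))
      (2 * (f x).length + 1) := by
    refine (exec_moveRev (by simp) (f x) _ (by simp only [Sum.elim_inl, single_self])).cast
      rfl ?_ rfl
    simp only [Sum.update_elim_inl, Sum.update_elim_inr, Sum.elim_inr, bot_apply,
      update_single, single_nil, update_bot, List.append_nil]
  have e3 : Exec (moveRev (Sum.inr (Sum.inr ()) : Kf ⊕ (Kg ⊕ Unit)) (Sum.inr (Sum.inl g₀)))
      (Sum.elim (bot _) (Sum.elim (bot _) (single () (f x).reverse)))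
      (Sum.elim (bot _) (Sum.elim (single g₀ (f x)) (bot _)))
      (2 * (f x).reverse.length + 1) := by
    refine (exec_moveRev (by simp) (f x).reverse _
      (by simp only [Sum.elim_inr, single_self])).cast rfl ?_ rfl
    simp only [Sum.update_elim_inl, Sum.update_elim_inr, Sum.elim_inr, Sum.elim_inl, bot_apply,
      update_single, single_nil, update_bot, List.append_nil, List.reverse_reverse]
  have e4 : Exec ((pg.map Sum.inl).map Sum.inr)
      (Sum.elim (bot Kf) (Sum.elim (single g₀ (f x)) (bot Unit)))
      (Sum.elim (bot _) (Sum.elim (single g₁ (v x)) (bot _))) t' := (he'.inl _).inr _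
  have e := Exec.seq e1 (Exec.seq e2 (Exec.seq e3 e4))
  refine ⟨_, ?_, e.cast ?_ ?_ rfl⟩
  · simp only [Polynomial.eval_add, Polynomial.eval_mul, Polynomial.eval_X, Polynomial.eval_one,
      Polynomial.eval_ofNat, List.length_reverse]
    omega
  · rw [single_inl, bot_sum]
  · rw [single_inr, single_inl]

theorem ProgFP.comp {g f : List Bool → List Bool} (hg : ProgFP g) (hf : ProgFP f) :
    ProgFP (fun x => g (f x)) := by
  obtain ⟨P, hP⟩ := hf.length_le
  obtain ⟨Kg, _, _, g₀, g₁, pg, Pg, hg⟩ := hg
  refine hf.comp_on g₀ g₁ pg (Pg.comp P) (fun x => ?_)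
  obtain ⟨t, ht, he⟩ := hg (f x)
  refine ⟨t, ht.trans ?_, he⟩
  rw [Polynomial.eval_comp]
  exact poly_mono _ (hP x)

/-- Pop the bits `b` of `a` and push `b`, then `true`, on `c`. -/
def weave {K : Type} (a c : K) : Prog K :=
  loop a (seq (push c false) (push c true)) (seq (push c true) (push c true))

theorem exec_weave {K : Type} [DecidableEq K] {a c : K} (hac : a ≠ c) :
    ∀ (l : List Bool) (S : St K), S a = l →
    Exec (weave a c) S
      (update (update S a []) c ((l.reverse.flatMap fun b => [true, b]) ++ S c))
      (3 * l.length + 1) := by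
  intro l
  induction l with
  | nil =>
    intro S hS
    have e : update (update S a []) c ((([] : List Bool).reverse.flatMap fun b => [true, b]) ++ S c)
        = S := by
      funext k
      by_cases hkc : k = c
      · subst hkc; simp
      · by_cases hka : k = a
        · subst hka; simp [hkc, hS]
        · simp [hkc, hka]
    rw [e]
    exact Exec.loop_nil hS
  | cons d l ih =>
    intro S hS
    have h2 := ih (update (update S a l) c (true :: d :: S c)) (by
      rw [update_of_ne hac]; simp)
    have h1 : Exec (seq (push c d) (push c true)) (update S a l)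
        (update (update S a l) c (true :: d :: S c)) 2 := by
      have h3 := Exec.push c d (update S a l)
      rw [update_of_ne (Ne.symm hac)] at h3
      have h4 := Exec.push c true (update (update S a l) c (d :: S c))
      rw [update_self, update_idem] at h4
      exact Exec.seq h3 h4
    have e : update (update (update (update S a l) c (true :: d :: S c)) a []) c
        ((l.reverse.flatMap fun b => [true, b]) ++
          update (update S a l) c (true :: d :: S c) c) =
        update (update S a []) c (((d :: l).reverse.flatMap fun b => [true, b]) ++ S c) := by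
      funext k
      by_cases hkc : k = c
      · subst hkc; simp
      · by_cases hka : k = a
        · subst hka; simp [hkc]
        · simp [hkc, hka]
    rw [e] at h2
    have e2 : 3 * (d :: l).length + 1 = 2 + (3 * l.length + 1) + 1 := by
      simp only [List.length_cons]; ring
    rw [e2]
    cases d with
    | false => exact Exec.loop_false hS h1 h2
    | true => exact Exec.loop_true hS h1 h2

/-- Length bound for the output of a computation. -/
theorem Comp.length_le {K : Type} [DecidableEq K] [Fintype K] {p : Prog K} {k₀ k₁ : K}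
    {f : List Bool → List Bool} {P : Polynomial ℕ} (h : Comp p k₀ k₁ f P) (x : List Bool) :
    (f x).length ≤ P.eval x.length + x.length := by
  obtain ⟨t, ht, he⟩ := h x
  have := he.tot_le
  rw [tot_single, tot_single] at this
  omega

theorem mv {K : Type} [DecidableEq K] {a b : K} {S S' : St K} {l : List Bool} (hab : a ≠ b)
    (hl : S a = l) (hS : update (update S a []) b (l.reverse ++ S b) = S') :
    Exec (moveRev a b) S S' (2 * l.length + 1) := hS ▸ exec_moveRev hab l S hl

theorem mv2 {K : Type} [DecidableEq K] {a b c : K} {S S' : St K} {l : List Bool} (hab : a ≠ b)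
    (hac : a ≠ c) (hbc : b ≠ c) (hl : S a = l)
    (hS : update (update (update S a []) b (l.reverse ++ S b)) c (l.reverse ++ S c) = S') :
    Exec (moveRev2 a b c) S S' (3 * l.length + 1) := hS ▸ exec_moveRev2 hab hac hbc l S hl

theorem psh {K : Type} [DecidableEq K] {a : K} {b : Bool} {S S' : St K}
    (hS : update S a (b :: S a) = S') : Exec (push a b) S S' 1 := hS ▸ Exec.push a b S

theorem pp {K : Type} [DecidableEq K] {a : K} {S S' : St K}
    (hS : update S a (S a).tail = S') : Exec (pop a) S S' 1 := hS ▸ Exec.pop a S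

theorem cl {K : Type} [DecidableEq K] {a : K} {S S' : St K} {l : List Bool}
    (hl : S a = l) (hS : update S a [] = S') :
    Exec (clear a) S S' (2 * l.length + 1) := hS ▸ exec_clear l S hl

theorem wv {K : Type} [DecidableEq K] {a c : K} {S S' : St K} {l : List Bool} (hac : a ≠ c)
    (hl : S a = l)
    (hS : update (update S a []) c ((l.reverse.flatMap fun b => [true, b]) ++ S c) = S') :
    Exec (weave a c) S S' (3 * l.length + 1) := hS ▸ exec_weave hac l S hl

section Two

variable {A B : Type} [DecidableEq A] [DecidableEq B]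

/-- Registers: those of two subprograms, and two extra ones. -/
abbrev K2 (A B : Type) : Type := A ⊕ (B ⊕ (Unit ⊕ Unit))

/-- Register of the first subprogram. -/
def rf (k : A) : K2 A B := Sum.inl k
/-- Register of the second subprogram. -/
def rg (k : B) : K2 A B := Sum.inr (Sum.inl k)
/-- Main register. -/
def ra : K2 A B := Sum.inr (Sum.inr (Sum.inl ()))
/-- Auxiliary register. -/
def rt : K2 A B := Sum.inr (Sum.inr (Sum.inr ()))

/-- A state. -/
def st2 (S : St A) (T : St B) (u v : List Bool) : St (K2 A B) :=
  Sum.elim S (Sum.elim T (Sum.elim (one u) (one v)))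

variable (S : St A) (T : St B) (u v w : List Bool) (j : A) (k : B)

@[simp] theorem st2_rf : st2 S T u v (rf j) = S j := rfl
@[simp] theorem st2_rg : st2 S T u v (rg k) = T k := rfl
@[simp] theorem st2_ra : st2 S T u v ra = u := rfl
@[simp] theorem st2_rt : st2 S T u v rt = v := rfl
@[simp] theorem up2_rf : update (st2 S T u v) (rf j) w = st2 (update S j w) T u v := by
  unfold st2 rf; simp only [Sum.update_elim_inl]
@[simp] theorem up2_rg : update (st2 S T u v) (rg k) w = st2 S (update T k w) u v := by
  unfold st2 rg; simp only [Sum.update_elim_inl, Sum.update_elim_inr]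
@[simp] theorem up2_ra : update (st2 S T u v) ra w = st2 S T w v := by
  unfold st2 ra; simp only [Sum.update_elim_inl, Sum.update_elim_inr, update_one]
@[simp] theorem up2_rt : update (st2 S T u v) rt w = st2 S T u w := by
  unfold st2 rt; simp only [Sum.update_elim_inr, update_one]
@[simp] theorem ra_ne_rt : (ra : K2 A B) ≠ rt := by simp [ra, rt]
@[simp] theorem rt_ne_ra : (rt : K2 A B) ≠ ra := by simp [ra, rt]
@[simp] theorem rf_ne_ra : (rf j : K2 A B) ≠ ra := by simp [ra, rf]
@[simp] theorem rf_ne_rt : (rf j : K2 A B) ≠ rt := by simp [rt, rf]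
@[simp] theorem ra_ne_rf : (ra : K2 A B) ≠ rf j := by simp [ra, rf]
@[simp] theorem rt_ne_rf : (rt : K2 A B) ≠ rf j := by simp [rt, rf]
@[simp] theorem rg_ne_ra : (rg k : K2 A B) ≠ ra := by simp [ra, rg]
@[simp] theorem rg_ne_rt : (rg k : K2 A B) ≠ rt := by simp [rt, rg]
@[simp] theorem ra_ne_rg : (ra : K2 A B) ≠ rg k := by simp [ra, rg]
@[simp] theorem rt_ne_rg : (rt : K2 A B) ≠ rg k := by simp [rt, rg]
@[simp] theorem rf_ne_rg : (rf j : K2 A B) ≠ rg k := by simp [rf, rg]
@[simp] theorem rg_ne_rf : (rg k : K2 A B) ≠ rf j := by simp [rf, rg]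

theorem single_ra : single (ra : K2 A B) u = st2 (bot A) (bot B) u [] := by
  unfold ra st2
  simp only [single_inr, single_inl, bot_unit, single_unit]

theorem exec_f {p : Prog A} {S S' : St A} {t : ℕ} (h : Exec p S S' t) (T : St B)
    (u v : List Bool) :
    Exec (p.map (rf : A → K2 A B)) (st2 S T u v) (st2 S' T u v) t := h.inl _

theorem exec_g {p : Prog B} {T T' : St B} {t : ℕ} (h : Exec p T T' t) (S : St A)
    (u v : List Bool) :
    Exec (p.map (rg : B → K2 A B)) (st2 S T u v) (st2 S T' u v) t := by
  have := (h.inl (Sum.elim (one u) (one v))).inr S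
  have e : ∀ q : Prog B, (q.map (Sum.inl : B → B ⊕ (Unit ⊕ Unit))).map
      (Sum.inr : _ → A ⊕ _) = q.map (rg : B → K2 A B) := by
    intro q
    induction q with
    | skip => rfl
    | push k b => rfl
    | pop k => rfl
    | seq p q ih1 ih2 => simp only [map, ih1, ih2]
    | ite k p q r ih1 ih2 ih3 => simp only [map, ih1, ih2, ih3]; rfl
    | loop k q r ih1 ih2 => simp only [map, ih1, ih2]; rfl
  rw [e] at this
  exact this

attribute [simp] bot_apply single_self update_single single_nil update_bot List.append_nil
  List.reverse_reverse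

end Two

theorem ProgFP.pair {f g : List Bool → List Bool} (hf : ProgFP f) (hg : ProgFP g) :
    ProgFP (fun x => pr (f x) (g x)) := by
  obtain ⟨Kf, _, _, f₀, f₁, pf, Pf, hf⟩ := hf
  obtain ⟨Kg, _, _, g₀, g₁, pg, Pg, hg⟩ := hg
  refine Comp.progFP (K := K2 Kf Kg)
    (p := seq (moveRev ra rt) (seq (moveRev2 rt (rf f₀) (rg g₀)) (seq (pf.map rf)
      (seq (pg.map rg) (seq (moveRev (rg g₁) rt) (seq (moveRev rt ra)
        (seq (push ra false) (seq (moveRev (rf f₁) rt) (weave rt ra)))))))))
    (k₀ := ra) (k₁ := ra)
    (P := (2 * Polynomial.X + 1) + (3 * Polynomial.X + 1) + Pf + Pg +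
      4 * (Pg + Polynomial.X) + 3 + 5 * (Pf + Polynomial.X) + 2) (fun x => ?_)
  have hlf := Comp.length_le (p := pf) (k₀ := f₀) (k₁ := f₁) hf x
  have hlg := Comp.length_le (p := pg) (k₀ := g₀) (k₁ := g₁) hg x
  obtain ⟨tf, htf, hef⟩ := hf x
  obtain ⟨tg, htg, heg⟩ := hg x
  have e1 : Exec (moveRev ra rt) (st2 (bot Kf) (bot Kg) x []) (st2 (bot _) (bot _) [] x.reverse)
      (2 * x.length + 1) :=
    mv (by simp) (by simp) (by simp)
  have e2 : Exec (moveRev2 rt (rf f₀) (rg g₀)) (st2 (bot _) (bot _) [] x.reverse)
      (st2 (single f₀ x) (single g₀ x) [] []) (3 * x.reverse.length + 1) :=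
    mv2 (by simp) (by simp) (by simp) (by simp) (by simp)
  have e3 := exec_f hef (single g₀ x) [] []
  have e4 := exec_g heg (single f₁ (f x)) [] []
  have e5 : Exec (moveRev (rg g₁) rt) (st2 (single f₁ (f x)) (single g₁ (g x)) [] [])
      (st2 (single f₁ (f x)) (bot _) [] (g x).reverse) (2 * (g x).length + 1) :=
    mv (by simp) (by simp) (by simp)
  have e6 : Exec (moveRev rt ra) (st2 (single f₁ (f x)) (bot Kg) [] (g x).reverse)
      (st2 (single f₁ (f x)) (bot _) (g x) []) (2 * (g x).reverse.length + 1) :=
    mv (by simp) (by simp) (by simp)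
  have e7 : Exec (push ra false) (st2 (single f₁ (f x)) (bot Kg) (g x) [])
      (st2 (single f₁ (f x)) (bot _) (false :: g x) []) 1 :=
    psh (by simp)
  have e8 : Exec (moveRev (rf f₁) rt) (st2 (single f₁ (f x)) (bot Kg) (false :: g x) [])
      (st2 (bot _) (bot _) (false :: g x) (f x).reverse) (2 * (f x).length + 1) :=
    mv (by simp) (by simp) (by simp)
  have e9 : Exec (weave rt ra) (st2 (bot Kf) (bot Kg) (false :: g x) (f x).reverse)
      (st2 (bot _) (bot _) (pr (f x) (g x)) []) (3 * (f x).reverse.length + 1) :=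
    wv (by simp) (by simp) (by simp [pr])
  have e := Exec.seq e1 (Exec.seq e2 (Exec.seq e3 (Exec.seq e4 (Exec.seq e5 (Exec.seq e6
    (Exec.seq e7 (Exec.seq e8 e9)))))))
  refine ⟨_, ?_, e.cast ?_ ?_ rfl⟩
  · simp only [Polynomial.eval_add, Polynomial.eval_mul, Polynomial.eval_X, Polynomial.eval_one,
      Polynomial.eval_ofNat, List.length_reverse]
    omega
  · rw [single_ra]
  · rw [single_ra]

end Prog

end Pool.Agent.PolyTime
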