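import Pool.Agent.PolyTime.Closure1

/-!
Closure properties of `ProgFP`: basic functions, projections, case distinction, iteration.
-/

namespace Pool.Agent.PolyTime

open Function

set_option linter.unusedSectionVars false

namespace Prog

theorem ProgFP.id : ProgFP (fun x => x) :=
  ⟨Unit, inferInstance, inferInstance, (), (), skip, 1, fun x => ⟨1, by simp, Exec.skip _⟩⟩

theorem ProgFP.nil : ProgFP (fun _ => []) :=
  ⟨Unit, inferInstance, inferInstance, (), (), clear (), 2 * Polynomial.X + 1, fun x =>
    ⟨2 * x.length + 1, by simp, cl (by simp) (by simp)⟩⟩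

theorem ProgFP.cons (b : Bool) : ProgFP (fun x => b :: x) :=
  ⟨Unit, inferInstance, inferInstance, (), (), push () b, 1, fun x =>
    ⟨1, by simp, psh (by simp)⟩⟩

theorem ProgFP.tail : ProgFP (fun x => x.tail) :=
  ⟨Unit, inferInstance, inferInstance, (), (), pop (), 1, fun x =>
    ⟨1, by simp, pp (by simp)⟩⟩

/-- Main loop for `p1`. -/
def p1loop : Prog (K2 Empty Empty) :=
  loop ra (clear ra) (ite ra skip (seq (pop ra) (push rt false)) (seq (pop ra) (push rt true)))

theorem exec_p1loop : ∀ (n : ℕ) (w u : List Bool), w.length ≤ n →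
    ∃ t, t ≤ 4 * w.length + 2 ∧ Exec p1loop (st2 (bot _) (bot _) w u)
      (st2 (bot _) (bot _) [] ((p1 w).reverse ++ u)) t := by
  intro n
  induction n with
  | zero =>
    intro w u hw
    have : w = [] := List.length_eq_zero_iff.mp (by omega)
    subst this
    exact ⟨1, by omega, (Exec.loop_nil rfl).cast rfl (by simp [p1]) rfl⟩
  | succ n ih =>
    intro w u hw
    match w, hw with
    | [], _ => exact ⟨1, by omega, (Exec.loop_nil rfl).cast rfl (by simp [p1]) rfl⟩
    | false :: w, hw =>
      have h1 : Exec (clear ra) (update (st2 (bot Empty) (bot Empty) (false :: w) u) ra w)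
          (st2 (bot _) (bot _) [] u) (2 * w.length + 1) := cl (by simp) (by simp)
      have h2 : Exec p1loop (st2 (bot Empty) (bot Empty) [] u) (st2 (bot _) (bot _) [] u) 1 :=
        Exec.loop_nil rfl
      refine ⟨2 * w.length + 1 + 1 + 1, ?_, (Exec.loop_false (k := ra) (w := w) (by simp) h1 h2).cast rfl
        (by simp [p1]) rfl⟩
      simp only [List.length_cons]; omega
    | [true], _ =>
      have h1 : Exec (ite ra skip (seq (pop ra) (push rt false)) (seq (pop ra) (push rt true)))
          (update (st2 (bot Empty) (bot Empty) [true] u) ra [])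
          (st2 (bot _) (bot _) [] u) (1 + 1) :=
        Exec.ite_nil (by simp) ((Exec.skip _).cast rfl (by simp) rfl)
      have h2 : Exec p1loop (st2 (bot Empty) (bot Empty) [] u) (st2 (bot _) (bot _) [] u) 1 :=
        Exec.loop_nil rfl
      refine ⟨1 + 1 + 1 + 1, by simp, (Exec.loop_true (k := ra) (w := []) (by simp) h1 h2).cast rfl
        (by simp [p1]) rfl⟩
    | true :: b :: w, hw =>
      obtain ⟨t, ht, h2⟩ := ih w (b :: u) (by simp only [List.length_cons] at hw; omega)
      have h0 : Exec (seq (pop ra) (push rt b)) (st2 (bot Empty) (bot Empty) (b :: w) u)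
          (st2 (bot _) (bot _) w (b :: u)) (1 + 1) := by
        refine Exec.seq (S' := st2 (bot _) (bot _) w u) (pp (by simp)) (psh (by simp))
      have h1 : Exec (ite ra skip (seq (pop ra) (push rt false)) (seq (pop ra) (push rt true)))
          (update (st2 (bot Empty) (bot Empty) (true :: b :: w) u) ra (b :: w))
          (st2 (bot _) (bot _) w (b :: u)) (1 + 1 + 1) := by
        rw [up2_ra]
        cases b with
        | false => exact Exec.ite_false (w := w) rfl h0
        | true => exact Exec.ite_true (w := w) rfl h0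
      refine ⟨1 + 1 + 1 + t + 1, ?_, (Exec.loop_true (k := ra) (w := b :: w) (by simp) h1 h2).cast rfl
        (by simp [p1]) rfl⟩
      simp only [List.length_cons]; omega

theorem ProgFP.p1 : ProgFP p1 := by
  refine Comp.progFP (K := K2 Empty Empty) (p := seq p1loop (moveRev rt ra)) (k₀ := ra)
    (k₁ := ra) (P := 6 * Polynomial.X + 3) (fun x => ?_)
  obtain ⟨t, ht, h1⟩ := exec_p1loop x.length x [] le_rfl
  have hl : ∀ (n : ℕ) (w : List Bool), w.length ≤ n → (Pool.Agent.PolyTime.p1 w).length ≤ w.length := by
    intro n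
    induction n with
    | zero =>
      intro w hw
      have : w = [] := List.length_eq_zero_iff.mp (by omega)
      subst this; simp [Pool.Agent.PolyTime.p1]
    | succ n ih =>
      intro w hw
      match w, hw with
      | [], _ => simp [Pool.Agent.PolyTime.p1]
      | false :: w, _ => simp [Pool.Agent.PolyTime.p1]
      | [true], _ => simp [Pool.Agent.PolyTime.p1]
      | true :: b :: w, hw =>
        have := ih w (by simp only [List.length_cons] at hw; omega)
        simp [Pool.Agent.PolyTime.p1]; omega
  have h2 : Exec (moveRev rt ra)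
      (st2 (bot Empty) (bot Empty) [] ((Pool.Agent.PolyTime.p1 x).reverse ++ []))
      (st2 (bot _) (bot _) (Pool.Agent.PolyTime.p1 x) [])
      (2 * ((Pool.Agent.PolyTime.p1 x).reverse ++ []).length + 1) :=
    mv (by simp) (by simp) (by simp)
  refine ⟨_, ?_, (Exec.seq h1 h2).cast ?_ ?_ rfl⟩
  · have := hl x.length x le_rfl
    simp only [List.append_nil, List.length_reverse, Polynomial.eval_add, Polynomial.eval_mul,
      Polynomial.eval_X, Polynomial.eval_ofNat]
    omega
  · rw [single_ra]
  · rw [single_ra]

/-- Main loop for `p2`. -/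
def p2loop : Prog (K2 Empty Empty) :=
  loop ra (moveRev ra rt) (pop ra)

theorem exec_p2loop : ∀ (n : ℕ) (w : List Bool), w.length ≤ n →
    ∃ t, t ≤ 4 * w.length + 2 ∧ Exec p2loop (st2 (bot _) (bot _) w [])
      (st2 (bot _) (bot _) [] (p2 w).reverse) t := by
  intro n
  induction n with
  | zero =>
    intro w hw
    have : w = [] := List.length_eq_zero_iff.mp (by omega)
    subst this
    exact ⟨1, by omega, (Exec.loop_nil rfl).cast rfl (by simp [p2]) rfl⟩
  | succ n ih =>
    intro w hw
    match w, hw with
    | [], _ => exact ⟨1, by omega, (Exec.loop_nil rfl).cast rfl (by simp [p2]) rfl⟩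
    | false :: w, hw =>
      have h1 : Exec (moveRev ra rt) (update (st2 (bot Empty) (bot Empty) (false :: w) []) ra w)
          (st2 (bot _) (bot _) [] w.reverse) (2 * w.length + 1) :=
        mv (by simp) (by simp) (by simp)
      have h2 : Exec p2loop (st2 (bot Empty) (bot Empty) [] w.reverse)
          (st2 (bot _) (bot _) [] w.reverse) 1 := Exec.loop_nil rfl
      refine ⟨2 * w.length + 1 + 1 + 1, ?_, (Exec.loop_false (k := ra) (w := w) (by simp) h1 h2).cast rfl
        (by simp [p2]) rfl⟩
      simp only [List.length_cons]; omega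
    | [true], _ =>
      have h1 : Exec (pop ra) (update (st2 (bot Empty) (bot Empty) [true] []) ra [])
          (st2 (bot _) (bot _) [] []) 1 := pp (by simp)
      have h2 : Exec p2loop (st2 (bot Empty) (bot Empty) [] []) (st2 (bot _) (bot _) [] []) 1 :=
        Exec.loop_nil rfl
      refine ⟨1 + 1 + 1, by simp, (Exec.loop_true (k := ra) (w := []) (by simp) h1 h2).cast rfl
        (by simp [p2]) rfl⟩
    | true :: b :: w, hw =>
      obtain ⟨t, ht, h2⟩ := ih w (by simp only [List.length_cons] at hw; omega)
      have h1 : Exec (pop ra)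
          (update (st2 (bot Empty) (bot Empty) (true :: b :: w) []) ra (b :: w))
          (st2 (bot _) (bot _) w []) 1 := pp (by simp)
      refine ⟨1 + t + 1, ?_, (Exec.loop_true (k := ra) (w := b :: w) (by simp) h1 h2).cast rfl
        (by simp [p2]) rfl⟩
      simp only [List.length_cons]; omega

theorem ProgFP.p2 : ProgFP p2 := by
  refine Comp.progFP (K := K2 Empty Empty) (p := seq p2loop (moveRev rt ra)) (k₀ := ra)
    (k₁ := ra) (P := 6 * Polynomial.X + 3) (fun x => ?_)
  obtain ⟨t, ht, h1⟩ := exec_p2loop x.length x le_rfl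
  have hl : ∀ (n : ℕ) (w : List Bool), w.length ≤ n → (Pool.Agent.PolyTime.p2 w).length ≤ w.length := by
    intro n
    induction n with
    | zero =>
      intro w hw
      have : w = [] := List.length_eq_zero_iff.mp (by omega)
      subst this; simp [Pool.Agent.PolyTime.p2]
    | succ n ih =>
      intro w hw
      match w, hw with
      | [], _ => simp [Pool.Agent.PolyTime.p2]
      | false :: w, _ => simp [Pool.Agent.PolyTime.p2]
      | [true], _ => simp [Pool.Agent.PolyTime.p2]
      | true :: b :: w, hw =>
        have := ih w (by simp only [List.length_cons] at hw; omega)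
        simp [Pool.Agent.PolyTime.p2]; omega
  have h2 : Exec (moveRev rt ra)
      (st2 (bot Empty) (bot Empty) [] (Pool.Agent.PolyTime.p2 x).reverse)
      (st2 (bot _) (bot _) (Pool.Agent.PolyTime.p2 x) [])
      (2 * (Pool.Agent.PolyTime.p2 x).reverse.length + 1) :=
    mv (by simp) (by simp) (by simp)
  refine ⟨_, ?_, (Exec.seq h1 h2).cast ?_ ?_ rfl⟩
  · have := hl x.length x le_rfl
    simp only [List.length_reverse, Polynomial.eval_add, Polynomial.eval_mul,
      Polynomial.eval_X, Polynomial.eval_ofNat]
    omega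
  · rw [single_ra]
  · rw [single_ra]

/-- Branch on the first bit and apply a function to the rest. -/
def bw (f g : List Bool → List Bool) : List Bool → List Bool
  | [] => []
  | false :: w => f w
  | true :: w => g w

theorem ProgFP.bw {f g : List Bool → List Bool} (hf : ProgFP f) (hg : ProgFP g) :
    ProgFP (bw f g) := by
  obtain ⟨Kf, _, _, f₀, f₁, pf, Pf, hf⟩ := hf
  obtain ⟨Kg, _, _, g₀, g₁, pg, Pg, hg⟩ := hg
  refine Comp.progFP (K := K2 Kf Kg)
    (p := ite ra skip
      (seq (pop ra) (seq (moveRev ra rt) (seq (moveRev rt (rf f₀)) (seq (pf.map rf)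
        (seq (moveRev (rf f₁) rt) (moveRev rt ra))))))
      (seq (pop ra) (seq (moveRev ra rt) (seq (moveRev rt (rg g₀)) (seq (pg.map rg)
        (seq (moveRev (rg g₁) rt) (moveRev rt ra)))))))
    (k₀ := ra) (k₁ := ra)
    (P := 6 + 4 * Polynomial.X + Pf + Pg + 4 * (Pf + Polynomial.X) + 4 * (Pg + Polynomial.X))
    (fun x => ?_)
  match x with
  | [] =>
    refine ⟨1 + 1, ?_, Exec.ite_nil (by simp) ((Exec.skip _).cast rfl (by simp [Prog.bw]) rfl)⟩
    simp only [Polynomial.eval_add, Polynomial.eval_mul, Polynomial.eval_X, Polynomial.eval_ofNat]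
    omega
  | false :: w =>
    have hlf := Comp.length_le (p := pf) (k₀ := f₀) (k₁ := f₁) hf w
    obtain ⟨tf, htf, hef⟩ := hf w
    have e0 : Exec (pop ra) (st2 (bot Kf) (bot Kg) (false :: w) []) (st2 (bot _) (bot _) w []) 1 :=
      pp (by simp)
    have e1 : Exec (moveRev ra rt) (st2 (bot Kf) (bot Kg) w []) (st2 (bot _) (bot _) [] w.reverse)
        (2 * w.length + 1) := mv (by simp) (by simp) (by simp)
    have e2 : Exec (moveRev rt (rf f₀)) (st2 (bot Kf) (bot Kg) [] w.reverse)
        (st2 (single f₀ w) (bot _) [] []) (2 * w.reverse.length + 1) :=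
      mv (by simp) (by simp) (by simp)
    have e3 := exec_f hef (bot Kg) [] []
    have e4 : Exec (moveRev (rf f₁) rt) (st2 (single f₁ (f w)) (bot Kg) [] [])
        (st2 (bot _) (bot _) [] (f w).reverse) (2 * (f w).length + 1) :=
      mv (by simp) (by simp) (by simp)
    have e5 : Exec (moveRev rt ra) (st2 (bot Kf) (bot Kg) [] (f w).reverse)
        (st2 (bot _) (bot _) (f w) []) (2 * (f w).reverse.length + 1) :=
      mv (by simp) (by simp) (by simp)
    have e := Exec.seq e0 (Exec.seq e1 (Exec.seq e2 (Exec.seq e3 (Exec.seq e4 e5))))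
    refine ⟨_, ?_, (Exec.ite_false (k := ra) (w := w) (by simp) e).cast ?_ ?_ rfl⟩
    · have h1 : Pf.eval w.length ≤ Pf.eval (w.length + 1) := poly_mono _ (by omega)
      have h2 : Pg.eval w.length ≤ Pg.eval (w.length + 1) := poly_mono _ (by omega)
      simp only [Polynomial.eval_add, Polynomial.eval_mul, Polynomial.eval_X,
        Polynomial.eval_ofNat, List.length_reverse, List.length_cons]
      omega
    · rw [single_ra]
    · rw [single_ra]; rfl
  | true :: w =>
    have hlf := Comp.length_le (p := pg) (k₀ := g₀) (k₁ := g₁) hg w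
    obtain ⟨tf, htf, hef⟩ := hg w
    have e0 : Exec (pop ra) (st2 (bot Kf) (bot Kg) (true :: w) []) (st2 (bot _) (bot _) w []) 1 :=
      pp (by simp)
    have e1 : Exec (moveRev ra rt) (st2 (bot Kf) (bot Kg) w []) (st2 (bot _) (bot _) [] w.reverse)
        (2 * w.length + 1) := mv (by simp) (by simp) (by simp)
    have e2 : Exec (moveRev rt (rg g₀)) (st2 (bot Kf) (bot Kg) [] w.reverse)
        (st2 (bot _) (single g₀ w) [] []) (2 * w.reverse.length + 1) :=
      mv (by simp) (by simp) (by simp)
    have e3 := exec_g hef (bot Kf) [] []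
    have e4 : Exec (moveRev (rg g₁) rt) (st2 (bot Kf) (single g₁ (g w)) [] [])
        (st2 (bot _) (bot _) [] (g w).reverse) (2 * (g w).length + 1) :=
      mv (by simp) (by simp) (by simp)
    have e5 : Exec (moveRev rt ra) (st2 (bot Kf) (bot Kg) [] (g w).reverse)
        (st2 (bot _) (bot _) (g w) []) (2 * (g w).reverse.length + 1) :=
      mv (by simp) (by simp) (by simp)
    have e := Exec.seq e0 (Exec.seq e1 (Exec.seq e2 (Exec.seq e3 (Exec.seq e4 e5))))
    refine ⟨_, ?_, (Exec.ite_true (k := ra) (w := w) (by simp) e).cast ?_ ?_ rfl⟩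
    · have h1 : Pf.eval w.length ≤ Pf.eval (w.length + 1) := poly_mono _ (by omega)
      have h2 : Pg.eval w.length ≤ Pg.eval (w.length + 1) := poly_mono _ (by omega)
      simp only [Polynomial.eval_add, Polynomial.eval_mul, Polynomial.eval_X,
        Polynomial.eval_ofNat, List.length_reverse, List.length_cons]
      omega
    · rw [single_ra]
    · rw [single_ra]; rfl

end Prog

@[simp] theorem p1_pr (u v : List Bool) : p1 (pr u v) = u := by
  induction u with
  | nil => simp [pr, p1]
  | cons b u ih =>
    have : pr (b :: u) v = true :: b :: pr u v := by simp [pr]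
    rw [this, p1, ih]

@[simp] theorem p2_pr (u v : List Bool) : p2 (pr u v) = v := by
  induction u with
  | nil => simp [pr, p2]
  | cons b u ih =>
    have : pr (b :: u) v = true :: b :: pr u v := by simp [pr]
    rw [this, p2, ih]

namespace Prog

theorem ProgFP.cases {c f g h : List Bool → List Bool} (hc : ProgFP c) (hf : ProgFP f)
    (hg : ProgFP g) (hh : ProgFP h) : ProgFP (fun x => match c x with
      | [] => f x
      | false :: _ => g x
      | true :: _ => h x) := by
  have hE := ProgFP.bw (ProgFP.cons false) ((ProgFP.cons true).comp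
    (ProgFP.bw ((ProgFP.cons false).comp ProgFP.p2) ((ProgFP.cons true).comp ProgFP.p2)))
  have hB := ProgFP.bw hf (ProgFP.bw hg hh)
  have h3 := (hB.comp hE).comp (hc.pair ProgFP.id)
  have e : (fun x => match c x with
      | [] => f x
      | false :: _ => g x
      | true :: _ => h x) = (fun x => Prog.bw f (Prog.bw g h)
        (Prog.bw (fun x => false :: x) (fun x => true :: (Prog.bw
          (fun x => false :: PolyTime.p2 x) (fun x => true :: PolyTime.p2 x)) x)
            (pr (c x) x))) := by
    funext x
    rcases hcx : c x with _ | ⟨b, u⟩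
    · simp [pr, Prog.bw]
    · have e : pr (b :: u) x = true :: b :: pr u x := by simp [pr]
      rw [e]
      cases b <;> simp [Prog.bw]
  rw [e]
  exact h3

/-- One round of the iteration. -/
def iterBody {K : Type} (pf : Prog K) (f₀ f₁ : K) : Prog (K2 K Unit) :=
  seq (pf.map rf) (seq (moveRev (rf f₁) rt) (moveRev rt (rf f₀)))

theorem exec_iterBody {K : Type} [DecidableEq K] {pf : Prog K} {f₀ f₁ : K}
    {f : List Bool → List Bool} {x : List Bool} {t : ℕ} (c : List Bool)
    (h : Exec pf (single f₀ x) (single f₁ (f x)) t) :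
    Exec (iterBody pf f₀ f₁) (st2 (single f₀ x) (one c) [] [])
      (st2 (single f₀ (f x)) (one c) [] []) (t + ((2 * (f x).length + 1) +
        (2 * (f x).reverse.length + 1))) := by
  have e1 := exec_f h (one c) [] []
  have e2 : Exec (moveRev (rf f₁) rt) (st2 (single f₁ (f x)) (one c) [] [])
      (st2 (bot _) (one c) [] (f x).reverse) (2 * (f x).length + 1) :=
    mv (by simp) (by simp) (by simp)
  have e3 : Exec (moveRev rt (rf f₀)) (st2 (bot K) (one c) [] (f x).reverse)
      (st2 (single f₀ (f x)) (one c) [] []) (2 * (f x).reverse.length + 1) :=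
    mv (by simp) (by simp) (by simp)
  exact Exec.seq e1 (Exec.seq e2 e3)

theorem exec_iterLoop {K : Type} [DecidableEq K] [Fintype K] {pf : Prog K} {f₀ f₁ : K}
    {f : List Bool → List Bool} {P : Polynomial ℕ} (h : Comp pf f₀ f₁ f P) (Bd : ℕ) :
    ∀ (c y : List Bool), (∀ i, i ≤ c.length → (f^[i] y).length ≤ Bd) →
    ∃ t, t ≤ c.length * (P.eval Bd + 4 * Bd + 3) + 1 ∧
      Exec (loop (rg ()) (iterBody pf f₀ f₁) (iterBody pf f₀ f₁))
        (st2 (single f₀ y) (one c) [] [])
        (st2 (single f₀ (f^[c.length] y)) (one []) [] []) t := by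
  intro c
  induction c with
  | nil =>
    intro y _
    exact ⟨1, by omega, Exec.loop_nil (by simp [one])⟩
  | cons b c ih =>
    intro y hy
    obtain ⟨t, ht, h1⟩ := h y
    have h2 := exec_iterBody (f := f) c h1
    obtain ⟨t', ht', h3⟩ := ih (f y) (fun i hi => by
      have := hy (i + 1) (by simp only [List.length_cons]; omega)
      rwa [iterate_succ_apply] at this)
    have hb0 : y.length ≤ Bd := hy 0 (by omega)
    have hb1 : (f y).length ≤ Bd := hy 1 (by simp only [List.length_cons]; omega)
    have hP : P.eval y.length ≤ P.eval Bd := poly_mono _ hb0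
    have hS : update (st2 (single f₀ y) (one (b :: c)) [] []) (rg ()) c =
        st2 (single f₀ y) (one c) [] [] := by
      rw [up2_rg, update_one]
    refine ⟨(t + ((2 * (f y).length + 1) + (2 * (f y).reverse.length + 1))) + t' + 1, ?_, ?_⟩
    · have e : (b :: c).length * (P.eval Bd + 4 * Bd + 3) =
          c.length * (P.eval Bd + 4 * Bd + 3) + (P.eval Bd + 4 * Bd + 3) := by
        simp only [List.length_cons]; ring
      rw [e, List.length_reverse]
      omega
    · have e : f^[(b :: c).length] y = f^[c.length] (f y) := by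
        rw [List.length_cons, iterate_succ_apply]
      rw [e]
      cases b with
      | false =>
        exact Exec.loop_false (k := rg ()) (w := c) (by simp [one]) (hS.symm ▸ h2) h3
      | true =>
        exact Exec.loop_true (k := rg ()) (w := c) (by simp [one]) (hS.symm ▸ h2) h3

theorem exec_iterInit {K : Type} [DecidableEq K] (v : List Bool) : ∀ (u c : List Bool),
    ∃ t c', t ≤ 3 * u.length + 2 * v.length + 3 ∧ c'.length = u.length + c.length ∧
      Exec (loop ra (moveRev ra rt) (seq (pop ra) (push (rg ()) true)) : Prog (K2 K Unit))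
        (st2 (bot K) (one c) (pr u v) []) (st2 (bot K) (one c') [] v.reverse) t := by
  intro u
  induction u with
  | nil =>
    intro c
    have e : pr [] v = false :: v := by simp [pr]
    have h1 : Exec (moveRev ra rt) (update (st2 (bot K) (one c) (pr [] v) []) ra v)
        (st2 (bot K) (one c) [] v.reverse) (2 * v.length + 1) :=
      mv (by simp) (by simp) (by simp)
    have h2 : Exec (loop ra (moveRev ra rt) (seq (pop ra) (push (rg ()) true)) :
        Prog (K2 K Unit)) (st2 (bot K) (one c) [] v.reverse)
        (st2 (bot K) (one c) [] v.reverse) 1 := Exec.loop_nil (by simp)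
    exact ⟨_, c, by simp, by simp, Exec.loop_false (k := ra) (w := v) (by simp [e]) h1 h2⟩
  | cons b u ih =>
    intro c
    have e : pr (b :: u) v = true :: b :: pr u v := by simp [pr]
    obtain ⟨t, c', ht, hc', h2⟩ := ih (true :: c)
    have h1 : Exec (seq (pop ra) (push (rg ()) true))
        (update (st2 (bot K) (one c) (pr (b :: u) v) []) ra (b :: pr u v))
        (st2 (bot K) (one (true :: c)) (pr u v) []) (1 + 1) := by
      rw [up2_ra]
      refine Exec.seq (S' := st2 (bot K) (one c) (pr u v) []) (pp (by simp)) (psh ?_)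
      simp [one_apply, update_one]
    refine ⟨_, c', ?_, ?_, Exec.loop_true (k := ra) (w := b :: pr u v) (by simp [e]) h1 h2⟩
    · simp only [List.length_cons]; omega
    · simp only [List.length_cons] at *; omega

theorem ProgFP.iter {f g h : List Bool → List Bool} (hf : ProgFP f) (hg : ProgFP g)
    (hh : ProgFP h) (p : Polynomial ℕ)
    (hp : ∀ x i, i ≤ (g x).length → (f^[i] (h x)).length ≤ p.eval x.length) :
    ProgFP (fun x => f^[(g x).length] (h x)) := by
  obtain ⟨Q, hQ⟩ := hg.length_le
  obtain ⟨Kf, _, _, f₀, f₁, pf, Pf, hf⟩ := hf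
  refine (hg.pair hh).comp_on (Kg := K2 Kf Unit) ra ra
    (seq (loop ra (moveRev ra rt) (seq (pop ra) (push (rg ()) true)))
      (seq (moveRev rt (rf f₀)) (seq (loop (rg ()) (iterBody pf f₀ f₁) (iterBody pf f₀ f₁))
        (seq (moveRev (rf f₀) rt) (moveRev rt ra)))))
    ((3 * Q + 2 * p + 3) + (2 * p + 1) + (Q * (Pf.comp p + 4 * p + 3) + 1) +
      (2 * p + 1) + (2 * p + 1)) (fun x => ?_)
  obtain ⟨t0, c', ht0, hc', e0⟩ := exec_iterInit (K := Kf) (h x) (g x) []
  have hc0 : c'.length = (g x).length := by simpa using hc'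
  obtain ⟨t1, ht1, e2⟩ := exec_iterLoop (pf := pf) (f₀ := f₀) (f₁ := f₁) (f := f) hf
    (p.eval x.length) c' (h x) (fun i hi => hp x i (by omega))
  rw [hc0] at e2 ht1
  have e1 : Exec (moveRev rt (rf f₀)) (st2 (bot Kf) (one c') [] (h x).reverse)
      (st2 (single f₀ (h x)) (one c') [] []) (2 * (h x).reverse.length + 1) :=
    mv (by simp) (by simp) (by simp)
  have e3 : Exec (moveRev (rf f₀) rt)
      (st2 (single f₀ (f^[(g x).length] (h x))) (one []) [] [])
      (st2 (bot Kf) (one []) [] (f^[(g x).length] (h x)).reverse)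
      (2 * (f^[(g x).length] (h x)).length + 1) := mv (by simp) (by simp) (by simp)
  have e4 : Exec (moveRev rt ra)
      (st2 (bot Kf) (one []) [] (f^[(g x).length] (h x)).reverse)
      (st2 (bot Kf) (one []) (f^[(g x).length] (h x)) [])
      (2 * (f^[(g x).length] (h x)).reverse.length + 1) := mv (by simp) (by simp) (by simp)
  refine ⟨_, ?_, (Exec.seq e0 (Exec.seq e1 (Exec.seq e2 (Exec.seq e3 e4)))).cast ?_ ?_ rfl⟩
  · have h1 := hQ x
    have h2 := hp x 0 (by omega)
    have h3 := hp x (g x).length le_rfl
    simp only [iterate_zero, _root_.id] at h2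
    have h4 : (g x).length * (Pf.eval (p.eval x.length) + 4 * p.eval x.length + 3) ≤
        Q.eval x.length * (Pf.eval (p.eval x.length) + 4 * p.eval x.length + 3) :=
      Nat.mul_le_mul_right _ h1
    simp only [Polynomial.eval_add, Polynomial.eval_mul, Polynomial.eval_one,
      Polynomial.eval_comp, Polynomial.eval_ofNat, List.length_reverse]
    omega
  · rw [single_ra, bot_unit]
  · rw [single_ra, bot_unit]

end Prog

end Pool.Agent.PolyTime
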