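import Pool.Agent.PolyTime.Prog

/-!
Renaming of registers, frame property, basic macros.
-/

namespace Pool.Agent.PolyTime

open Function

set_option linter.unusedSectionVars false

namespace Prog

variable {K K' : Type} [DecidableEq K] [DecidableEq K']

/-- Renaming of registers. -/
def map {K K' : Type} (i : K → K') : Prog K → Prog K'
  | skip => skip
  | push k b => push (i k) b
  | pop k => pop (i k)
  | seq p q => seq (map i p) (map i q)
  | ite k p q r => ite (i k) (map i p) (map i q) (map i r)
  | loop k q r => loop (i k) (map i q) (map i r)

open Classical in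
/-- Override the registers in the range of `i`. -/
noncomputable def ov (i : K → K') (T : St K') (S : St K) : St K' :=
  fun k => if h : ∃ j, i j = k then S h.choose else T k

theorem ov_apply {i : K → K'} (hi : Injective i) (T : St K') (S : St K) (k : K) :
    ov i T S (i k) = S k := by
  have h : ∃ j, i j = i k := ⟨k, rfl⟩
  unfold ov
  rw [dif_pos h]
  rw [hi h.choose_spec]

theorem ov_apply_of_not {i : K → K'} (T : St K') (S : St K) (k : K') (h : ¬ ∃ j, i j = k) :
    ov i T S k = T k := by
  unfold ov
  rw [dif_neg h]

theorem ov_ov {i : K → K'} (T : St K') (S S' : St K) :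
    ov i (ov i T S) S' = ov i T S' := by
  funext k
  by_cases h : ∃ j, i j = k
  · simp only [ov, dif_pos h]
  · simp only [ov, dif_neg h]

theorem ov_self {i : K → K'} (T : St K') (S : St K) (h : ∀ k, T (i k) = S k) :
    ov i T S = T := by
  funext k
  by_cases hk : ∃ j, i j = k
  · unfold ov
    rw [dif_pos hk, ← h, hk.choose_spec]
  · exact ov_apply_of_not _ _ _ hk

theorem update_eq_ov {i : K → K'} (hi : Injective i) (T : St K') (S : St K)
    (h : ∀ k, T (i k) = S k) (k : K) (v : List Bool) :
    update T (i k) v = ov i T (update S k v) := by
  funext j
  by_cases hj : ∃ l, i l = j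
  · obtain ⟨l, rfl⟩ := hj
    rw [ov_apply hi]
    by_cases hl : l = k
    · subst hl; simp
    · rw [update_of_ne (fun e => hl (hi e)), update_of_ne hl, h]
  · rw [ov_apply_of_not _ _ _ hj, update_of_ne]
    rintro rfl
    exact hj ⟨k, rfl⟩

theorem Exec.map {i : K → K'} (hi : Injective i) {p : Prog K} {S S' : St K} {t : ℕ}
    (h : Exec p S S' t) : ∀ T : St K', (∀ k, T (i k) = S k) →
      Exec (p.map i) T (ov i T S') t := by
  induction h with
  | skip S =>
    intro T hT
    rw [ov_self T S hT]
    exact Exec.skip T
  | push k b S =>
    intro T hT
    rw [← update_eq_ov hi T S hT, ← hT]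
    exact Exec.push (i k) b T
  | pop k S =>
    intro T hT
    rw [← update_eq_ov hi T S hT, ← hT]
    exact Exec.pop (i k) T
  | @seq p q S S' S'' t t' _ _ ih1 ih2 =>
    intro T hT
    have h1 := ih1 T hT
    have h2 := ih2 (ov i T S') (fun k => ov_apply hi _ _ _)
    rw [ov_ov] at h2
    exact Exec.seq h1 h2
  | @ite_nil k p q r S S' t hk _ ih =>
    intro T hT
    exact Exec.ite_nil (by rw [hT, hk]) (ih T hT)
  | @ite_false k p q r S S' t w hk _ ih =>
    intro T hT
    exact Exec.ite_false (w := w) (by rw [hT, hk]) (ih T hT)
  | @ite_true k p q r S S' t w hk _ ih =>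
    intro T hT
    exact Exec.ite_true (w := w) (by rw [hT, hk]) (ih T hT)
  | @loop_nil k q r S hk =>
    intro T hT
    rw [ov_self T S hT]
    exact Exec.loop_nil (by rw [hT, hk])
  | @loop_false k q r S S' S'' t t' w hk _ _ ih1 ih2 =>
    intro T hT
    have h1 := ih1 (update T (i k) w) (fun j => by
      rw [update_eq_ov hi T S hT, ov_apply hi])
    have h2 := ih2 (ov i (update T (i k) w) S') (fun j => ov_apply hi _ _ _)
    have e : ov i (ov i (update T (i k) w) S') S'' = ov i T S'' := by
      rw [ov_ov, update_eq_ov hi T S hT, ov_ov]
    rw [e] at h2
    exact Exec.loop_false (w := w) (by rw [hT, hk]) h1 h2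
  | @loop_true k q r S S' S'' t t' w hk _ _ ih1 ih2 =>
    intro T hT
    have h1 := ih1 (update T (i k) w) (fun j => by
      rw [update_eq_ov hi T S hT, ov_apply hi])
    have h2 := ih2 (ov i (update T (i k) w) S') (fun j => ov_apply hi _ _ _)
    have e : ov i (ov i (update T (i k) w) S') S'' = ov i T S'' := by
      rw [ov_ov, update_eq_ov hi T S hT, ov_ov]
    rw [e] at h2
    exact Exec.loop_true (w := w) (by rw [hT, hk]) h1 h2

theorem ov_inl (S S' : St K) (R : St K') :
    ov (Sum.inl : K → K ⊕ K') (Sum.elim S R) S' = Sum.elim S' R := by
  funext k
  rcases k with k | k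
  · rw [ov_apply Sum.inl_injective]; rfl
  · rw [ov_apply_of_not]
    · rfl
    · rintro ⟨j, hj⟩; cases hj

theorem ov_inr (R : St K) (S S' : St K') :
    ov (Sum.inr : K' → K ⊕ K') (Sum.elim R S) S' = Sum.elim R S' := by
  funext k
  rcases k with k | k
  · rw [ov_apply_of_not]
    · rfl
    · rintro ⟨j, hj⟩; cases hj
  · rw [ov_apply Sum.inr_injective]; rfl

theorem Exec.inl {p : Prog K} {S S' : St K} {t : ℕ} (h : Exec p S S' t) (R : St K') :
    Exec (p.map (Sum.inl : K → K ⊕ K')) (Sum.elim S R) (Sum.elim S' R) t := by
  have := h.map Sum.inl_injective (Sum.elim S R) (fun k => rfl)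
  rwa [ov_inl] at this

theorem Exec.inr {p : Prog K'} {S S' : St K'} {t : ℕ} (h : Exec p S S' t) (R : St K) :
    Exec (p.map (Sum.inr : K' → K ⊕ K')) (Sum.elim R S) (Sum.elim R S') t := by
  have := h.map Sum.inr_injective (Sum.elim R S) (fun k => rfl)
  rwa [ov_inr] at this

/-- Total number of stored bits. -/
def tot [Fintype K] (S : St K) : ℕ := ∑ k, (S k).length

theorem tot_update [Fintype K] (S : St K) (k : K) (v : List Bool) :
    tot (update S k v) + (S k).length = tot S + v.length := by
  have h1 := Finset.add_sum_erase Finset.univ (fun j => (update S k v j).length)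
    (Finset.mem_univ k)
  have h2 := Finset.add_sum_erase Finset.univ (fun j => (S j).length) (Finset.mem_univ k)
  have h3 : ∑ j ∈ Finset.univ.erase k, (update S k v j).length =
      ∑ j ∈ Finset.univ.erase k, (S j).length := by
    apply Finset.sum_congr rfl
    intro j hj
    rw [update_of_ne (Finset.ne_of_mem_erase hj)]
  simp only [update_self] at h1
  unfold tot
  omega

theorem tot_single [Fintype K] (k : K) (x : List Bool) : tot (single k x) = x.length := by
  have h := tot_update (fun _ : K => []) k x
  have h0 : tot (fun _ : K => ([] : List Bool)) = 0 := by simp [tot]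
  have : tot (single k x) = tot (update (fun _ : K => []) k x) := rfl
  simp only [List.length_nil] at h
  omega

theorem Exec.tot_le [Fintype K] {p : Prog K} {S S' : St K} {t : ℕ} (h : Exec p S S' t) :
    tot S' ≤ tot S + t := by
  induction h with
  | skip S => omega
  | push k b S =>
    have := tot_update S k (b :: S k)
    simp only [List.length_cons] at this
    omega
  | pop k S =>
    have := tot_update S k (S k).tail
    simp only [List.length_tail] at this
    omega
  | seq _ _ ih1 ih2 => omega
  | ite_nil _ _ ih => omega
  | ite_false _ _ ih => omega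
  | ite_true _ _ ih => omega
  | loop_nil _ => omega
  | @loop_false k q r S S' S'' t t' w hk _ _ ih1 ih2 =>
    have := tot_update S k w
    rw [hk] at this
    simp only [List.length_cons] at this
    omega
  | @loop_true k q r S S' S'' t t' w hk _ _ ih1 ih2 =>
    have := tot_update S k w
    rw [hk] at this
    simp only [List.length_cons] at this
    omega

/-- Move the content of `a` on top of `b`, reversing it. -/
def moveRev (a b : K) : Prog K := loop a (push b false) (push b true)

theorem exec_moveRev {a b : K} (hab : a ≠ b) : ∀ (l : List Bool) (S : St K), S a = l →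
    Exec (moveRev a b) S (update (update S a []) b (l.reverse ++ S b)) (2 * l.length + 1) := by
  intro l
  induction l with
  | nil =>
    intro S hS
    have e : update (update S a []) b ([].reverse ++ S b) = S := by
      rw [← hS]
      simp
      exact hS
    rw [e]
    exact Exec.loop_nil hS
  | cons c l ih =>
    intro S hS
    have h2 := ih (update (update S a l) b (c :: S b)) (by
      rw [update_of_ne hab]; simp)
    have h1 : Exec (push b c) (update S a l) (update (update S a l) b (c :: S b)) 1 := by
      have := Exec.push b c (update S a l)
      rwa [update_of_ne (Ne.symm hab)] at this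
    have e : update (update (update (update S a l) b (c :: S b)) a []) b
        (l.reverse ++ update (update S a l) b (c :: S b) b) =
        update (update S a []) b ((c :: l).reverse ++ S b) := by
      funext k
      by_cases hkb : k = b
      · subst hkb; simp
      · by_cases hka : k = a
        · subst hka; simp [hkb]
        · simp [hkb, hka]
    rw [e] at h2
    have e2 : 2 * (c :: l).length + 1 = 1 + (2 * l.length + 1) + 1 := by
      simp only [List.length_cons]; ring
    rw [e2]
    cases c with
    | false => exact Exec.loop_false hS h1 h2
    | true => exact Exec.loop_true hS h1 h2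

/-- Move the content of `a` on top of `b` and of `c`, reversing it. -/
def moveRev2 (a b c : K) : Prog K :=
  loop a (seq (push b false) (push c false)) (seq (push b true) (push c true))

theorem exec_moveRev2 {a b c : K} (hab : a ≠ b) (hac : a ≠ c) (hbc : b ≠ c) :
    ∀ (l : List Bool) (S : St K), S a = l →
    Exec (moveRev2 a b c) S
      (update (update (update S a []) b (l.reverse ++ S b)) c (l.reverse ++ S c))
      (3 * l.length + 1) := by
  intro l
  induction l with
  | nil =>
    intro S hS
    have e : update (update (update S a []) b ([].reverse ++ S b)) c ([].reverse ++ S c) = S := by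
      funext k
      by_cases hkc : k = c
      · subst hkc; simp
      · by_cases hkb : k = b
        · subst hkb; simp [hkc]
        · by_cases hka : k = a
          · subst hka; simp [hkc, hkb, hS]
          · simp [hkc, hkb, hka]
    rw [e]
    exact Exec.loop_nil hS
  | cons d l ih =>
    intro S hS
    have h2 := ih (update (update (update S a l) b (d :: S b)) c (d :: S c)) (by
      rw [update_of_ne hac, update_of_ne hab]; simp)
    have h1 : Exec (seq (push b d) (push c d)) (update S a l)
        (update (update (update S a l) b (d :: S b)) c (d :: S c)) 2 := by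
      have h3 := Exec.push b d (update S a l)
      rw [update_of_ne (Ne.symm hab)] at h3
      have h4 := Exec.push c d (update (update S a l) b (d :: S b))
      rw [update_of_ne (Ne.symm hbc), update_of_ne (Ne.symm hac)] at h4
      exact Exec.seq h3 h4
    have e : update (update (update (update (update (update S a l) b (d :: S b)) c (d :: S c))
        a []) b (l.reverse ++ update (update (update S a l) b (d :: S b)) c (d :: S c) b)) c
        (l.reverse ++ update (update (update S a l) b (d :: S b)) c (d :: S c) c) =
        update (update (update S a []) b ((d :: l).reverse ++ S b)) c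
          ((d :: l).reverse ++ S c) := by
      funext k
      by_cases hkc : k = c
      · subst hkc; simp
      · by_cases hkb : k = b
        · subst hkb; simp [hkc]
        · by_cases hka : k = a
          · subst hka; simp [hkc, hkb]
          · simp [hkc, hkb, hka]
    rw [e] at h2
    have e2 : 3 * (d :: l).length + 1 = 2 + (3 * l.length + 1) + 1 := by
      simp only [List.length_cons]; ring
    rw [e2]
    cases d with
    | false => exact Exec.loop_false hS h1 h2
    | true => exact Exec.loop_true hS h1 h2

/-- Empty the register `a`. -/
def clear (a : K) : Prog K := loop a skip skip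

theorem exec_clear {a : K} : ∀ (l : List Bool) (S : St K), S a = l →
    Exec (clear a) S (update S a []) (2 * l.length + 1) := by
  intro l
  induction l with
  | nil =>
    intro S hS
    have e : update S a [] = S := by rw [← hS]; simp
    rw [e]
    exact Exec.loop_nil hS
  | cons c l ih =>
    intro S hS
    have h2 := ih (update S a l) (by simp)
    have e : update (update S a l) a [] = update S a [] := by simp
    rw [e] at h2
    have h1 := Exec.skip (update S a l)
    have e2 : 2 * (c :: l).length + 1 = 1 + (2 * l.length + 1) + 1 := by
      simp only [List.length_cons]; ring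
    rw [e2]
    cases c with
    | false => exact Exec.loop_false hS h1 h2
    | true => exact Exec.loop_true hS h1 h2

theorem Exec.cast {p : Prog K} {S S' S₁ S₁' : St K} {t t' : ℕ} (h : Exec p S S' t)
    (hS : S = S₁) (hS' : S' = S₁') (ht : t = t') : Exec p S₁ S₁' t' := by
  subst hS hS' ht
  exact h

end Prog

end Pool.Agent.PolyTime
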