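import Pool.Agent.PolyTime.Simul

/-!
A normal form of stack machines: every label tests one stack and performs at most one stack
operation.  Programs are compiled to it, step by step.
-/

namespace Pool.Agent.PolyTime

open Function

namespace Prog

variable {K : Type} [DecidableEq K]

/-- Instructions: test the stack `tst` (empty / false / true), go to `l0`, `l1` or `l2`, and perform
`op`: nothing, `some (k, some b)` = push `b` on `k`, `some (k, none)` = pop `k`. -/
structure Ins (K Λ : Type) where
  /-- the tested stack -/
  tst : K
  /-- next label if the tested stack is empty -/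
  l0 : Λ
  /-- next label if its head is `false` -/
  l1 : Λ
  /-- next label if its head is `true` -/
  l2 : Λ
  /-- the stack operation -/
  op : Option (K × Option Bool)

/-- the next label, according to the head of the tested stack -/
def Ins.nxt {K Λ : Type} (I : Ins K Λ) : Option Bool → Λ
  | none => I.l0
  | some false => I.l1
  | some true => I.l2

/-- the effect of a stack operation -/
def doOp (o : Option (K × Option Bool)) (S : St K) : St K :=
  match o with
  | none => S
  | some (k, some b) => update S k (b :: S k)
  | some (k, none) => update S k (S k).tail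

/-- one step -/
def mstep {Λ : Type} (M : Λ → Ins K Λ) (c : Λ × St K) : Λ × St K :=
  ((M c.1).nxt (c.2 (M c.1).tst).head?, doOp (M c.1).op c.2)

/-- instructions of a program, given an embedding of its labels and an exit label -/
def icode {K Λ : Type} : (p : Prog K) → K → (Lbl p → Λ) → Λ → Lbl p → Ins K Λ
  | skip, d, _, ex, _ => ⟨d, ex, ex, ex, none⟩
  | push k b, _, _, ex, _ => ⟨k, ex, ex, ex, some (k, some b)⟩
  | pop k, _, _, ex, _ => ⟨k, ex, ex, ex, some (k, none)⟩
  | seq p q, d, em, ex, l =>
      match l with
      | Sum.inl l => icode p d (fun l => em (Sum.inl l)) (em (Sum.inr (ent q))) l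
      | Sum.inr l => icode q d (fun l => em (Sum.inr l)) ex l
  | ite k p q r, d, em, ex, l =>
      match l with
      | none => ⟨k, em (some (Sum.inl (ent p))), em (some (Sum.inr (Sum.inl (ent q)))),
          em (some (Sum.inr (Sum.inr (ent r)))), none⟩
      | some (Sum.inl l) => icode p d (fun l => em (some (Sum.inl l))) ex l
      | some (Sum.inr (Sum.inl l)) => icode q d (fun l => em (some (Sum.inr (Sum.inl l)))) ex l
      | some (Sum.inr (Sum.inr l)) => icode r d (fun l => em (some (Sum.inr (Sum.inr l)))) ex l
  | loop k q r, d, em, ex, l =>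
      match l with
      | none => ⟨k, ex, em (some (Sum.inl (ent q))), em (some (Sum.inr (ent r))),
          some (k, none)⟩
      | some (Sum.inl l) => icode q d (fun l => em (some (Sum.inl l))) (em none) l
      | some (Sum.inr l) => icode r d (fun l => em (some (Sum.inr l))) (em none) l

theorem miter_trans {Λ : Type} {M : Λ → Ins K Λ} {a b c : Λ × St K} {t t' : ℕ}
    (h : (mstep M)^[t] a = b) (h' : (mstep M)^[t'] b = c) : (mstep M)^[t + t'] a = c := by
  rw [Nat.add_comm, Function.iterate_add_apply, h, h']

theorem exec_msound {p : Prog K} {S S' : St K} {t : ℕ} (h : Exec p S S' t) (d : K) :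
    ∀ {Λ : Type} (M : Λ → Ins K Λ) (em : Lbl p → Λ) (ex : Λ),
      (∀ l, M (em l) = icode p d em ex l) →
      (mstep M)^[t] (em (ent p), S) = (ex, S') := by
  induction h with
  | skip S =>
    intro Λ M em ex hM
    have h0 : M (em (ent skip)) = ⟨d, ex, ex, ex, none⟩ := hM _
    rw [Function.iterate_one, mstep]
    simp only [h0, doOp]
    cases (S d).head? with
    | none => rfl
    | some b => cases b <;> rfl
  | push k b S =>
    intro Λ M em ex hM
    have h0 : M (em (ent (push k b))) = ⟨k, ex, ex, ex, some (k, some b)⟩ := hM _
    rw [Function.iterate_one, mstep]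
    simp only [h0, doOp]
    cases (S k).head? with
    | none => rfl
    | some b => cases b <;> rfl
  | pop k S =>
    intro Λ M em ex hM
    have h0 : M (em (ent (pop k))) = ⟨k, ex, ex, ex, some (k, none)⟩ := hM _
    rw [Function.iterate_one, mstep]
    simp only [h0, doOp]
    cases (S k).head? with
    | none => rfl
    | some b => cases b <;> rfl
  | @seq p q S S' S'' t t' _ _ ih1 ih2 =>
    intro Λ M em ex hM
    have h1 := ih1 M (fun l => em (Sum.inl l)) (em (Sum.inr (ent q)))
      (fun l => hM (Sum.inl l))
    have h2 := ih2 M (fun l => em (Sum.inr l)) ex (fun l => hM (Sum.inr l))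
    exact miter_trans h1 h2
  | @ite_nil k p q r S S' t hk _ ih =>
    intro Λ M em ex hM
    have h1 := ih M (fun l => em (some (Sum.inl l))) ex (fun l => hM (some (Sum.inl l)))
    have h0 : M (em (ent (ite k p q r))) = ⟨k, em (some (Sum.inl (ent p))),
      em (some (Sum.inr (Sum.inl (ent q)))), em (some (Sum.inr (Sum.inr (ent r)))), none⟩ := hM none
    rw [Function.iterate_succ_apply]
    have h2 : mstep M (em (ent (ite k p q r)), S) = (em (some (Sum.inl (ent p))), S) := by
      rw [mstep]; simp only [h0, doOp, hk, List.head?_nil, Ins.nxt]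
    rw [h2]; exact h1
  | @ite_false k p q r S S' t w hk _ ih =>
    intro Λ M em ex hM
    have h1 := ih M (fun l => em (some (Sum.inr (Sum.inl l)))) ex
      (fun l => hM (some (Sum.inr (Sum.inl l))))
    have h0 : M (em (ent (ite k p q r))) = ⟨k, em (some (Sum.inl (ent p))),
      em (some (Sum.inr (Sum.inl (ent q)))), em (some (Sum.inr (Sum.inr (ent r)))), none⟩ := hM none
    rw [Function.iterate_succ_apply]
    have h2 : mstep M (em (ent (ite k p q r)), S) = (em (some (Sum.inr (Sum.inl (ent q)))), S) := by
      rw [mstep]; simp only [h0, doOp, hk, List.head?_cons, Ins.nxt]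
    rw [h2]; exact h1
  | @ite_true k p q r S S' t w hk _ ih =>
    intro Λ M em ex hM
    have h1 := ih M (fun l => em (some (Sum.inr (Sum.inr l)))) ex
      (fun l => hM (some (Sum.inr (Sum.inr l))))
    have h0 : M (em (ent (ite k p q r))) = ⟨k, em (some (Sum.inl (ent p))),
      em (some (Sum.inr (Sum.inl (ent q)))), em (some (Sum.inr (Sum.inr (ent r)))), none⟩ := hM none
    rw [Function.iterate_succ_apply]
    have h2 : mstep M (em (ent (ite k p q r)), S) = (em (some (Sum.inr (Sum.inr (ent r)))), S) := by
      rw [mstep]; simp only [h0, doOp, hk, List.head?_cons, Ins.nxt]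
    rw [h2]; exact h1
  | @loop_nil k q r S hk =>
    intro Λ M em ex hM
    have h0 : M (em (ent (loop k q r))) = ⟨k, ex, em (some (Sum.inl (ent q))),
      em (some (Sum.inr (ent r))), some (k, none)⟩ := hM none
    have hS : update S k [] = S := by
      rw [← hk]; exact update_eq_self k S
    rw [Function.iterate_one, mstep]
    simp only [h0, doOp, hk, List.head?_nil, Ins.nxt, List.tail_nil, hS]
  | @loop_false k q r S S' S'' t t' w hk _ _ ih1 ih2 =>
    intro Λ M em ex hM
    have h1 := ih1 M (fun l => em (some (Sum.inl l))) (em none)
      (fun l => hM (some (Sum.inl l)))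
    have h2 := ih2 M em ex hM
    have h0 : M (em (ent (loop k q r))) = ⟨k, ex, em (some (Sum.inl (ent q))),
      em (some (Sum.inr (ent r))), some (k, none)⟩ := hM none
    have h3 : mstep M (em (ent (loop k q r)), S) = (em (some (Sum.inl (ent q))), update S k w) := by
      rw [mstep]; simp only [h0, doOp, hk, List.head?_cons, Ins.nxt, List.tail_cons]
    rw [Function.iterate_succ_apply, h3]
    exact miter_trans h1 h2
  | @loop_true k q r S S' S'' t t' w hk _ _ ih1 ih2 =>
    intro Λ M em ex hM
    have h1 := ih1 M (fun l => em (some (Sum.inr l))) (em none)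
      (fun l => hM (some (Sum.inr l)))
    have h2 := ih2 M em ex hM
    have h0 : M (em (ent (loop k q r))) = ⟨k, ex, em (some (Sum.inl (ent q))),
      em (some (Sum.inr (ent r))), some (k, none)⟩ := hM none
    have h3 : mstep M (em (ent (loop k q r)), S) = (em (some (Sum.inr (ent r))), update S k w) := by
      rw [mstep]; simp only [h0, doOp, hk, List.head?_cons, Ins.nxt, List.tail_cons]
    rw [Function.iterate_succ_apply, h3]
    exact miter_trans h1 h2

end Prog

/-- Every polynomial-time string function is computed by a machine in normal form. -/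
theorem exists_mach {f : List Bool → List Bool} (h : FP f) :
    ∃ (K : Type) (_ : DecidableEq K) (_ : Fintype K) (Λ : Type) (_ : DecidableEq Λ) (_ : Fintype Λ)
      (k₀ k₁ : K) (M : Λ → Prog.Ins K Λ) (en : Λ) (P : Polynomial ℕ),
      ∀ x, ∀ T, P.eval x.length ≤ T →
        ((Prog.mstep M)^[T] (en, Prog.single k₀ x)).2 = Prog.single k₁ (f x) := by
  classical
  obtain ⟨K, dK, fK, k₀, k₁, p, P, h⟩ := ProgFP_of_FP h
  let _ := Prog.lblFintype p
  refine ⟨K, dK, fK, Option (Prog.Lbl p), Classical.decEq _, inferInstance, k₀, k₁,
    fun l => match l with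
      | none => ⟨k₀, none, none, none, none⟩
      | some l => Prog.icode p k₀ some none l, some (Prog.ent p), P, fun x T hT => ?_⟩
  obtain ⟨t, ht, hx⟩ := h x
  have h1 := Prog.exec_msound hx k₀ (fun l : Option (Prog.Lbl p) => match l with
      | none => ⟨k₀, none, none, none, none⟩
      | some l => Prog.icode p k₀ some none l) some none (fun l => rfl)
  obtain ⟨s, rfl⟩ := Nat.exists_eq_add_of_le (ht.trans hT)
  have h2 : ∀ (s : ℕ) (S : Prog.St K), ((Prog.mstep (fun l : Option (Prog.Lbl p) => match l with
      | none => ⟨k₀, none, none, none, none⟩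
      | some l => Prog.icode p k₀ some none l))^[s] (none, S)) = (none, S) := by
    intro s S
    induction s with
    | zero => rfl
    | succ s ih =>
      rw [Function.iterate_succ_apply]
      have : Prog.mstep (fun l : Option (Prog.Lbl p) => match l with
        | none => (⟨k₀, none, none, none, none⟩ : Prog.Ins K (Option (Prog.Lbl p)))
        | some l => Prog.icode p k₀ some none l) (none, S) = (none, S) := by
        rw [Prog.mstep]
        simp only [Prog.doOp]
        cases (S k₀).head? with
        | none => rfl
        | some b => cases b <;> rfl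
      rw [this, ih]
  rw [Prog.miter_trans h1 (h2 s _)]

end Pool.Agent.PolyTime
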