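import Pool.Agent.PolyTime.Lists

/-!
Polynomial-time arithmetic on natural numbers in binary.
-/

set_option linter.dupNamespace false

namespace Pool.Agent.PolyTime

theorem size_nat_le {n k : ℕ} : size n ≤ k ↔ n < 2 ^ k := by
  rw [size_nat, Nat.size_le]

theorem lt_two_pow_size (n : ℕ) : n < 2 ^ size n := size_nat_le.1 le_rfl

theorem size_nat_mono {m n : ℕ} (h : m ≤ n) : size m ≤ size n :=
  size_nat_le.2 (h.trans_lt (lt_two_pow_size n))

theorem size_nat_self (n : ℕ) : size n ≤ n := size_nat_le.2 Nat.lt_two_pow_self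

theorem size_nat_add (m n : ℕ) : size (m + n) ≤ size m + size n + 1 := by
  rw [size_nat_le, pow_succ, pow_add]
  have h1 := lt_two_pow_size m
  have h2 := lt_two_pow_size n
  have h3 : 1 ≤ 2 ^ size m := Nat.one_le_two_pow
  have h4 : 1 ≤ 2 ^ size n := Nat.one_le_two_pow
  nlinarith

theorem size_nat_mul (m n : ℕ) : size (m * n) ≤ size m + size n := by
  rw [size_nat_le, pow_add]
  exact Nat.mul_lt_mul'' (lt_two_pow_size m) (lt_two_pow_size n)

theorem size_nat_bit (b : Bool) (n : ℕ) : size (Nat.bit b n) ≤ size n + 1 := by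
  rw [size_nat_le, pow_succ]
  have h1 := lt_two_pow_size n
  cases b <;> simp only [Nat.bit_false, Nat.bit_true] <;> omega

theorem size_nat_two_pow (n : ℕ) : size (2 ^ n) ≤ n + 1 := by
  rw [size_nat_le]
  exact Nat.pow_lt_pow_right (by norm_num) (by omega)

section

variable {α β γ δ σ : Type} [PEnc α] [PEnc β] [PEnc γ] [PEnc δ] [PEnc σ]

@[fun_prop]
protected theorem PolyTime.bodd {n : α → ℕ} (hn : PolyTime n) : PolyTime (fun a => Nat.bodd (n a)) := by
  obtain ⟨N, hN, hN'⟩ := hn
  refine ⟨_, FP.cases hN (FP.const [false]) (FP.const [false]) (FP.const [true]), fun a => ?_⟩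
  beta_reduce
  rw [hN', enc_bool, Nat.bodd_eq_bits_head, enc_nat]
  rcases Nat.bits (n a) with _ | ⟨_ | _, _⟩ <;> rfl

@[fun_prop]
protected theorem PolyTime.div2 {n : α → ℕ} (hn : PolyTime n) : PolyTime (fun a => Nat.div2 (n a)) := by
  obtain ⟨N, hN, hN'⟩ := hn
  refine ⟨_, FP.tail' hN, fun a => ?_⟩
  beta_reduce
  rw [hN', enc_nat, enc_nat, Nat.div2_bits_eq_tail]

@[fun_prop]
protected theorem PolyTime.bit {b : α → Bool} {n : α → ℕ} (hb : PolyTime b) (hn : PolyTime n) :
    PolyTime (fun a => Nat.bit (b a) (n a)) := by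
  have h2 : PolyTime (fun a => Nat.bit true (n a)) := by
    obtain ⟨N, hN, hN'⟩ := hn
    refine ⟨_, FP.cons' true hN, fun a => ?_⟩
    beta_reduce
    rw [hN', enc_nat, enc_nat, Nat.bits_append_bit _ _ (fun _ => rfl)]
  have h1 : PolyTime (fun a => Nat.bit false (n a)) := by
    obtain ⟨N, hN, hN'⟩ := hn
    refine ⟨_, FP.ite_nil hN FP.nil (FP.cons' false hN), fun a => ?_⟩
    beta_reduce
    rw [hN', enc_nat, enc_nat]
    by_cases h : n a = 0
    · simp [h]
    · rw [Nat.bits_append_bit _ _ (fun h' => absurd h' h), if_neg]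
      intro h3
      apply h
      have : Nat.bits (n a) = Nat.bits 0 := by rw [h3, Nat.zero_bits]
      exact bits_injective this
  exact (PolyTime.cond hb h2 h1).congr (fun a => by cases b a <;> rfl)

/-- value of a list of bits, most significant bit first -/
def valMSB (l : List Bool) : ℕ := l.foldl (fun n b => Nat.bit b n) 0

theorem foldl_bit (l : List Bool) (n : ℕ) :
    l.foldl (fun n b => Nat.bit b n) n = n * 2 ^ l.length + valMSB l := by
  induction l generalizing n with
  | nil => simp [valMSB]
  | cons b l ih =>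
    have h1 : valMSB (b :: l) = Nat.bit b 0 * 2 ^ l.length + valMSB l := ih (Nat.bit b 0)
    rw [List.foldl_cons, ih, h1, List.length_cons]
    cases b <;> simp only [Nat.bit_false, Nat.bit_true] <;> ring

theorem valMSB_cons (b : Bool) (l : List Bool) :
    valMSB (b :: l) = b.toNat * 2 ^ l.length + valMSB l := by
  rw [valMSB, List.foldl_cons, foldl_bit]
  cases b <;> simp

theorem valMSB_lt (l : List Bool) : valMSB l < 2 ^ l.length := by
  induction l with
  | nil => simp [valMSB]
  | cons b l ih =>
    rw [valMSB_cons, List.length_cons, pow_succ]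
    cases b <;> simp <;> omega

theorem size_list_bool (l : List Bool) : size l = 3 * l.length := by
  induction l with
  | nil => simp
  | cons b l ih => rw [size_cons, ih, size_bool, List.length_cons]; ring

@[fun_prop]
theorem pt_valMSB {l : α → List Bool} (hl : PolyTime l) :
    PolyTime (fun a => valMSB (l a)) := by
  refine PolyTime.foldl (s := fun _ => 0) (h := fun _ n b => Nat.bit b n) hl
    (PolyTime.const 0) (by fun_prop) (B := fun a => size (l a)) hl.pbd ?_
  intro a i
  rw [size_nat_le]
  have h1 := valMSB_lt ((l a).take i)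
  refine h1.trans_le (Nat.pow_le_pow_right (by norm_num) ?_)
  exact (length_le_size _).trans (size_sublist (List.take_sublist _ _))

/-! ### addition -/

/-- carry -/
def majB (x y c : Bool) : Bool := (x && y) || (x && c) || (y && c)

/-- one step of binary addition -/
def addStep (t : ℕ × ℕ × Bool × List Bool) : ℕ × ℕ × Bool × List Bool :=
  (t.1.div2, t.2.1.div2, majB t.1.bodd t.2.1.bodd t.2.2.1,
    Bool.xor (Bool.xor t.1.bodd t.2.1.bodd) t.2.2.1 :: t.2.2.2)

theorem pt_addStep : PolyTime addStep := by
  unfold addStep majB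
  fun_prop

theorem addStep_inv (x y : ℕ) (c : Bool) (o : List Bool) :
    ∃ x' y' c' o', addStep (x, y, c, o) = (x', y', c', o') ∧ o'.length = o.length + 1 ∧
      x' ≤ x ∧ y' ≤ y ∧
      (x' + y' + c'.toNat) = (x + y + c.toNat) / 2 ∧
      (x' + y' + c'.toNat) * 2 ^ o'.length + valMSB o' =
        (x + y + c.toNat) * 2 ^ o.length + valMSB o := by
  refine ⟨_, _, _, _, rfl, by simp, ?_, ?_, ?_, ?_⟩
  · exact Nat.div_le_self _ _
  · exact Nat.div_le_self _ _
  · have h1 := Nat.bodd_add_div2 x
    have h2 := Nat.bodd_add_div2 y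
    dsimp only
    rcases hx : x.bodd <;> rcases hy : y.bodd <;> rcases c <;>
      simp only [hx, hy, majB, Bool.and_false, Bool.and_true, Bool.false_and, Bool.true_and,
        Bool.or_false, Bool.or_true, Bool.toNat_false, Bool.toNat_true, Bool.false_or,
        Bool.true_or] at h1 h2 ⊢ <;> omega
  · have h1 := Nat.bodd_add_div2 x
    have h2 := Nat.bodd_add_div2 y
    dsimp only
    rw [List.length_cons, valMSB_cons, pow_succ]
    have key : (x.div2 + y.div2 + (majB x.bodd y.bodd c).toNat) * 2 +
        (Bool.xor (Bool.xor x.bodd y.bodd) c).toNat = x + y + c.toNat := by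
      rcases hx : x.bodd <;> rcases hy : y.bodd <;> rcases c <;>
        simp only [hx, hy, majB, Bool.and_false, Bool.and_true, Bool.false_and, Bool.true_and,
          Bool.or_false, Bool.or_true, Bool.toNat_false, Bool.toNat_true, Bool.false_or,
          Bool.true_or, Bool.xor_false, Bool.xor_true, Bool.false_xor, Bool.true_xor,
          Bool.not_true, Bool.not_false] at h1 h2 ⊢ <;> omega
    rw [← key]
    ring

theorem addStep_iter (i x y : ℕ) (c : Bool) (o : List Bool) :
    ∃ x' y' c' o', addStep^[i] (x, y, c, o) = (x', y', c', o') ∧ o'.length = o.length + i ∧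
      x' ≤ x ∧ y' ≤ y ∧
      (x' + y' + c'.toNat) = (x + y + c.toNat) / 2 ^ i ∧
      (x' + y' + c'.toNat) * 2 ^ o'.length + valMSB o' =
        (x + y + c.toNat) * 2 ^ o.length + valMSB o := by
  induction i with
  | zero => exact ⟨x, y, c, o, rfl, by simp⟩
  | succ i ih =>
    obtain ⟨x1, y1, c1, o1, h1, h2, h3, h4, h5, h6⟩ := ih
    obtain ⟨x2, y2, c2, o2, k1, k2, k3, k4, k5, k6⟩ := addStep_inv x1 y1 c1 o1
    refine ⟨x2, y2, c2, o2, ?_, by omega, by omega, by omega, ?_, k6.trans h6⟩
    · rw [Function.iterate_succ_apply', h1, k1]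
    · rw [k5, h5, Nat.div_div_eq_div_mul, pow_succ]

@[fun_prop]
protected theorem PolyTime.add {f g : α → ℕ} (hf : PolyTime f) (hg : PolyTime g) :
    PolyTime (fun a => f a + g a) := by
  have h1 : PolyTime (fun a => addStep^[size (f a, g a)] (f a, g a, false, [])) := by
    refine PolyTime.iterate_size (c := fun a => (f a, g a))
      (b := fun a => 2 * size (f a) + 1 + (2 * size (g a) + 1 + (2 * 1 + 1 +
        3 * size (f a, g a)))) pt_addStep (by fun_prop) (by fun_prop) ?_ ?_
    · exact (((PBd.const 2).mul hf.pbd).add (PBd.const 1)).add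
        ((((PBd.const 2).mul hg.pbd).add (PBd.const 1)).add ((PBd.const 3).add
        ((PBd.const 3).mul (hf.prodMk hg).pbd)))
    · intro a i hi
      obtain ⟨x', y', c', o', h1, h2, h3, h4, -, -⟩ := addStep_iter i (f a) (g a) false []
      rw [h1, size_pair, size_pair, size_pair, size_list_bool, h2, size_bool]
      have h5 := size_nat_mono h3
      have h6 := size_nat_mono h4
      simp only [List.length_nil]
      omega
  refine (pt_valMSB h1.snd.snd.snd).congr (fun a => ?_)
  obtain ⟨x', y', c', o', h1, h2, h3, h4, h5, h6⟩ :=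
    addStep_iter (size (f a, g a)) (f a) (g a) false []
  rw [h1]
  have h7 : (f a + g a + false.toNat) / 2 ^ size (f a, g a) = 0 := by
    apply Nat.div_eq_of_lt
    rw [size_pair]
    have h8 := lt_two_pow_size (f a)
    have h9 := lt_two_pow_size (g a)
    have h10 : 2 ^ size (f a) ≤ 2 ^ (2 * size (f a) + size (g a)) :=
      Nat.pow_le_pow_right (by norm_num) (by omega)
    have h11 : 2 ^ size (g a) ≤ 2 ^ (2 * size (f a) + size (g a)) :=
      Nat.pow_le_pow_right (by norm_num) (by omega)
    have h12 : 2 ^ (2 * size (f a) + 1 + size (g a)) = 2 ^ (2 * size (f a) + size (g a)) * 2 := by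
      rw [← pow_succ]; congr 1; omega
    rw [h12]
    simp only [Bool.toNat_false]
    omega
  rw [h5, h7] at h6
  simpa [valMSB] using h6

@[fun_prop]
protected theorem PolyTime.succ {f : α → ℕ} (hf : PolyTime f) : PolyTime (fun a => Nat.succ (f a)) :=
  hf.add (PolyTime.const 1)

/-! ### comparison -/

/-- one step of the comparison -/
def ltStep (t : ℕ × ℕ × Bool) : ℕ × ℕ × Bool :=
  (t.1.div2, t.2.1.div2, bif Bool.xor t.1.bodd t.2.1.bodd then t.2.1.bodd else t.2.2)

theorem pt_ltStep : PolyTime ltStep := by
  unfold ltStep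
  fun_prop

theorem ltStep_iter (i x y : ℕ) (r : Bool) :
    ∃ x' y' r', ltStep^[i] (x, y, r) = (x', y', r') ∧ x' = x / 2 ^ i ∧ y' = y / 2 ^ i ∧
      ((x < y ∨ (x = y ∧ r = true)) ↔ (x' < y' ∨ (x' = y' ∧ r' = true))) := by
  induction i with
  | zero => exact ⟨x, y, r, rfl, by simp⟩
  | succ i ih =>
    obtain ⟨x1, y1, r1, h1, h2, h3, h4⟩ := ih
    refine ⟨x1.div2, y1.div2, bif Bool.xor x1.bodd y1.bodd then y1.bodd else r1,
      by rw [Function.iterate_succ_apply', h1, ltStep], ?_, ?_, ?_⟩
    · rw [pow_succ, ← Nat.div_div_eq_div_mul, ← h2]; rfl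
    · rw [pow_succ, ← Nat.div_div_eq_div_mul, ← h3]; rfl
    · rw [h4]
      have h5 := Nat.bodd_add_div2 x1
      have h6 := Nat.bodd_add_div2 y1
      rcases hx : x1.bodd <;> rcases hy : y1.bodd <;> cases r1 <;>
        simp only [hx, hy, Bool.toNat_false, Bool.toNat_true, Bool.xor_false, Bool.xor_true,
          Bool.not_true, Bool.not_false, cond_true, cond_false, and_true,
          Bool.false_eq_true, and_false, or_false] at h5 h6 ⊢ <;>
        constructor <;> intro h <;> omega

@[fun_prop]
protected theorem PolyTime.decide_lt {f g : α → ℕ} (hf : PolyTime f) (hg : PolyTime g) :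
    PolyTime (fun a => decide (f a < g a)) := by
  have h1 : PolyTime (fun a => ltStep^[size (f a, g a)] (f a, g a, false)) := by
    refine PolyTime.iterate_size (c := fun a => (f a, g a))
      (b := fun a => 2 * size (f a) + 1 + (2 * size (g a) + 1 + 1))
      pt_ltStep (by fun_prop) (by fun_prop) ?_ ?_
    · exact (((PBd.const 2).mul hf.pbd).add (PBd.const 1)).add
        ((((PBd.const 2).mul hg.pbd).add (PBd.const 1)).add (PBd.const 1))
    · intro a i _
      obtain ⟨x', y', r', h1, h2, h3, -⟩ := ltStep_iter i (f a) (g a) false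
      have h4 : x' ≤ f a := h2 ▸ Nat.div_le_self _ _
      have h5 : y' ≤ g a := h3 ▸ Nat.div_le_self _ _
      rw [h1, size_pair, size_pair, size_bool]
      have h6 := size_nat_mono h4
      have h7 := size_nat_mono h5
      omega
  refine h1.snd.snd.congr (fun a => ?_)
  obtain ⟨x', y', r', h1, h2, h3, h4⟩ := ltStep_iter (size (f a, g a)) (f a) (g a) false
  rw [h1]
  have h5 : x' = 0 := by
    rw [h2]
    refine Nat.div_eq_of_lt ((lt_two_pow_size _).trans_le (Nat.pow_le_pow_right (by norm_num) ?_))
    rw [size_pair]; omega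
  have h6 : y' = 0 := by
    rw [h3]
    refine Nat.div_eq_of_lt ((lt_two_pow_size _).trans_le (Nat.pow_le_pow_right (by norm_num) ?_))
    rw [size_pair]; omega
  subst h5 h6
  simp only [Bool.false_eq_true, and_false, or_false, lt_self_iff_false, true_and,
    false_or] at h4
  cases r' <;> simp_all

@[fun_prop]
protected theorem PolyTime.decide_le {f g : α → ℕ} (hf : PolyTime f) (hg : PolyTime g) :
    PolyTime (fun a => decide (f a ≤ g a)) :=
  (PolyTime.decide_lt hg hf).not.congr (fun a => by
    by_cases h : g a < f a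
    · simp [h]
    · simp [h, Nat.le_of_not_lt h])

@[fun_prop]
protected theorem PolyTime.max {f g : α → ℕ} (hf : PolyTime f) (hg : PolyTime g) :
    PolyTime (fun a => Max.max (f a) (g a)) :=
  (PolyTime.ite (p := fun a => f a ≤ g a) (by fun_prop) hg hf).congr (fun a => by
    rw [max_def])

@[fun_prop]
protected theorem PolyTime.min {f g : α → ℕ} (hf : PolyTime f) (hg : PolyTime g) :
    PolyTime (fun a => Min.min (f a) (g a)) :=
  (PolyTime.ite (p := fun a => f a ≤ g a) (by fun_prop) hf hg).congr (fun a => by
    rw [min_def])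

/-! ### subtraction -/

/-- borrow -/
def brw (x y c : Bool) : Bool := (!x && y) || (!x && c) || (y && c)

/-- one step of binary subtraction -/
def subStep (t : ℕ × ℕ × Bool × List Bool) : ℕ × ℕ × Bool × List Bool :=
  (t.1.div2, t.2.1.div2, brw t.1.bodd t.2.1.bodd t.2.2.1,
    Bool.xor (Bool.xor t.1.bodd t.2.1.bodd) t.2.2.1 :: t.2.2.2)

theorem pt_subStep : PolyTime subStep := by
  unfold subStep brw
  fun_prop

theorem subStep_inv (x y : ℕ) (c : Bool) (o : List Bool) :
    ∃ x' y' c' o', subStep (x, y, c, o) = (x', y', c', o') ∧ o'.length = o.length + 1 ∧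
      x' = x / 2 ∧ y' = y / 2 ∧
      ((x' : ℤ) - y' - c'.toNat) * 2 ^ o'.length + valMSB o' =
        ((x : ℤ) - y - c.toNat) * 2 ^ o.length + valMSB o := by
  refine ⟨_, _, _, _, rfl, by simp, rfl, rfl, ?_⟩
  have h1 := Nat.bodd_add_div2 x
  have h2 := Nat.bodd_add_div2 y
  dsimp only
  rw [List.length_cons, valMSB_cons, pow_succ]
  have key : ((x.div2 : ℤ) - y.div2 - (brw x.bodd y.bodd c).toNat) * 2 +
      (Bool.xor (Bool.xor x.bodd y.bodd) c).toNat = x - y - c.toNat := by
    rcases hx : x.bodd <;> rcases hy : y.bodd <;> rcases c <;>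
      simp only [hx, hy, brw, Bool.and_false, Bool.and_true, Bool.false_and, Bool.true_and,
        Bool.or_false, Bool.or_true, Bool.toNat_false, Bool.toNat_true, Bool.false_or,
        Bool.true_or, Bool.xor_false, Bool.xor_true, Bool.false_xor, Bool.true_xor,
        Bool.not_true, Bool.not_false] at h1 h2 ⊢ <;> omega
  rw [← key]
  push_cast
  ring

theorem subStep_iter (i x y : ℕ) (c : Bool) (o : List Bool) :
    ∃ x' y' c' o', subStep^[i] (x, y, c, o) = (x', y', c', o') ∧ o'.length = o.length + i ∧
      x' = x / 2 ^ i ∧ y' = y / 2 ^ i ∧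
      ((x' : ℤ) - y' - c'.toNat) * 2 ^ o'.length + valMSB o' =
        ((x : ℤ) - y - c.toNat) * 2 ^ o.length + valMSB o := by
  induction i with
  | zero => exact ⟨x, y, c, o, rfl, by simp⟩
  | succ i ih =>
    obtain ⟨x1, y1, c1, o1, h1, h2, h3, h4, h6⟩ := ih
    obtain ⟨x2, y2, c2, o2, k1, k2, k3, k4, k6⟩ := subStep_inv x1 y1 c1 o1
    refine ⟨x2, y2, c2, o2, ?_, by omega, ?_, ?_, k6.trans h6⟩
    · rw [Function.iterate_succ_apply', h1, k1]
    · rw [k3, h3, Nat.div_div_eq_div_mul, pow_succ]
    · rw [k4, h4, Nat.div_div_eq_div_mul, pow_succ]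

@[fun_prop]
protected theorem PolyTime.sub {f g : α → ℕ} (hf : PolyTime f) (hg : PolyTime g) :
    PolyTime (fun a => f a - g a) := by
  have h1 : PolyTime (fun a => subStep^[size (f a, g a)] (f a, g a, false, [])) := by
    refine PolyTime.iterate_size (c := fun a => (f a, g a))
      (b := fun a => 2 * size (f a) + 1 + (2 * size (g a) + 1 + (2 * 1 + 1 +
        3 * size (f a, g a)))) pt_subStep (by fun_prop) (by fun_prop) ?_ ?_
    · exact (((PBd.const 2).mul hf.pbd).add (PBd.const 1)).add
        ((((PBd.const 2).mul hg.pbd).add (PBd.const 1)).add ((PBd.const 3).add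
        ((PBd.const 3).mul (hf.prodMk hg).pbd)))
    · intro a i hi
      obtain ⟨x', y', c', o', h1, h2, h3, h4, -⟩ := subStep_iter i (f a) (g a) false []
      have h3' : x' ≤ f a := h3 ▸ Nat.div_le_self _ _
      have h4' : y' ≤ g a := h4 ▸ Nat.div_le_self _ _
      rw [h1, size_pair, size_pair, size_pair, size_list_bool, h2, size_bool]
      have h5 := size_nat_mono h3'
      have h6 := size_nat_mono h4'
      simp only [List.length_nil]
      omega
  refine (PolyTime.ite (p := fun a => f a ≤ g a) (by fun_prop) (PolyTime.const 0)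
    (pt_valMSB h1.snd.snd.snd)).congr (fun a => ?_)
  by_cases hfg : f a ≤ g a
  · rw [if_pos hfg, Nat.sub_eq_zero_of_le hfg]
  rw [if_neg hfg]
  obtain ⟨x', y', c', o', h1, h2, h3, h4, h6⟩ :=
    subStep_iter (size (f a, g a)) (f a) (g a) false []
  rw [h1]
  have h7 : x' = 0 := by
    rw [h3]
    refine Nat.div_eq_of_lt ((lt_two_pow_size _).trans_le (Nat.pow_le_pow_right (by norm_num) ?_))
    rw [size_pair]; omega
  have h8 : y' = 0 := by
    rw [h4]
    refine Nat.div_eq_of_lt ((lt_two_pow_size _).trans_le (Nat.pow_le_pow_right (by norm_num) ?_))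
    rw [size_pair]; omega
  subst h7 h8
  have h9 := valMSB_lt o'
  have h10 : valMSB [] = 0 := rfl
  simp only [h10, List.length_nil, pow_zero, mul_one, Bool.toNat_false, Nat.cast_zero,
    sub_zero, add_zero] at h6
  cases c' with
  | false =>
    simp only [Bool.toNat_false, Nat.cast_zero, sub_zero, zero_mul, zero_add] at h6
    change valMSB o' = f a - g a
    omega
  | true =>
    exfalso
    simp only [Bool.toNat_true, Nat.cast_one, zero_sub] at h6
    have h11 : ((valMSB o' : ℕ) : ℤ) < 2 ^ o'.length := by exact_mod_cast h9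
    have h12 : (f a : ℤ) - g a > 0 := by omega
    linarith

@[fun_prop]
protected theorem PolyTime.pred {f : α → ℕ} (hf : PolyTime f) : PolyTime (fun a => Nat.pred (f a)) :=
  hf.sub (PolyTime.const 1)

/-! ### the bits of a number, as a list -/

/-- one step of the conversion -/
def bitsStep (t : ℕ × List Bool) : ℕ × List Bool :=
  bif decide (t.1 = 0) then t else (t.1.div2, t.1.bodd :: t.2)

theorem pt_bitsStep : PolyTime bitsStep := by
  unfold bitsStep
  fun_prop

theorem bitsStep_iter (i n : ℕ) (o : List Bool) :
    bitsStep^[i] (n, o) = (n / 2 ^ i, ((Nat.bits n).take i).reverse ++ o) := by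
  induction i generalizing n o with
  | zero => simp
  | succ i ih =>
    rw [Function.iterate_succ_apply]
    by_cases h : n = 0
    · subst h
      have : bitsStep (0, o) = (0, o) := by simp [bitsStep]
      rw [this, ih]
      simp
    · have h1 : bitsStep (n, o) = (n.div2, n.bodd :: o) := by simp [bitsStep, h]
      rw [h1, ih]
      have h2 : n.bits = n.bodd :: n.div2.bits := by
        have h3 := Nat.bits_append_bit n.div2 n.bodd (by
          intro h4
          have h5 := Nat.bodd_add_div2 n
          rw [h4] at h5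
          rcases hb : n.bodd with _ | _
          · rw [hb] at h5; simp at h5; exact absurd h5.symm h
          · rfl)
        rwa [Nat.bit_bodd_div2] at h3
      rw [h2, List.take_succ_cons]
      simp only [List.reverse_cons, List.append_assoc, List.cons_append, List.nil_append,
        Prod.mk.injEq, and_true]
      rw [pow_succ', ← Nat.div_div_eq_div_mul]
      rfl

@[fun_prop]
protected theorem PolyTime.bits {f : α → ℕ} (hf : PolyTime f) : PolyTime (fun a => Nat.bits (f a)) := by
  have h1 : PolyTime (fun a => bitsStep^[size (f a)] (f a, [])) := by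
    refine PolyTime.iterate_size (c := fun a => f a)
      (b := fun a => 2 * size (f a) + 1 + 3 * size (f a)) pt_bitsStep (by fun_prop) hf ?_ ?_
    · exact (((PBd.const 2).mul hf.pbd).add (PBd.const 1)).add ((PBd.const 3).mul hf.pbd)
    · intro a i hi
      rw [bitsStep_iter, size_pair, size_list_bool]
      have h2 := size_nat_mono (Nat.div_le_self (f a) (2 ^ i))
      have h3 : (List.take i (f a).bits).length ≤ size (f a) := by
        rw [List.length_take]; omega
      simp only [List.append_nil, List.length_reverse]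
      omega
  refine h1.snd.reverse.congr (fun a => ?_)
  rw [bitsStep_iter]
  simp only [List.append_nil, List.reverse_reverse]
  exact List.take_of_length_le (by rw [size, enc_nat])

theorem valMSB_append_singleton (l : List Bool) (b : Bool) :
    valMSB (l ++ [b]) = Nat.bit b (valMSB l) := by
  rw [valMSB, List.foldl_append]
  rfl

theorem valMSB_reverse_bits (n : ℕ) : valMSB (Nat.bits n).reverse = n := by
  induction n using Nat.binaryRec' with
  | zero => simp [valMSB]
  | bit b n hn ih =>
    rw [Nat.bits_append_bit n b hn, List.reverse_cons, valMSB_append_singleton, ih]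

/-! ### multiplication -/

theorem mul_foldl (x : ℕ) (l : List Bool) :
    l.foldl (fun acc b => Nat.bit false acc + (bif b then x else 0)) 0 = x * valMSB l := by
  induction l using List.reverseRecOn with
  | nil => simp [valMSB]
  | append_singleton l b ih =>
    rw [List.foldl_append, List.foldl_cons, List.foldl_nil, ih, valMSB_append_singleton]
    cases b
    · simp [Nat.bit_val]; ring
    · simp [Nat.bit_val]; ring

@[fun_prop]
protected theorem PolyTime.mul {f g : α → ℕ} (hf : PolyTime f) (hg : PolyTime g) :
    PolyTime (fun a => f a * g a) := by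
  have h1 : PolyTime (fun a => ((g a).bits.reverse).foldl
      (fun acc b => Nat.bit false acc + (bif b then f a else 0)) 0) := by
    refine PolyTime.foldl (h := fun a acc b => Nat.bit false acc + (bif b then f a else 0))
      (B := fun a => size (f a) + 3 * size (g a)) (by fun_prop) (PolyTime.const 0)
      (by fun_prop) (hf.pbd.add ((PBd.const 3).mul hg.pbd)) ?_
    intro a i
    rw [mul_foldl]
    refine (size_nat_mul _ _).trans (Nat.add_le_add_left ?_ _)
    rw [size_nat_le]
    refine (valMSB_lt _).trans_le (Nat.pow_le_pow_right (by norm_num) ?_)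
    rw [List.length_take, List.length_reverse]
    have : (g a).bits.length = size (g a) := rfl
    omega
  refine h1.congr (fun a => ?_)
  rw [mul_foldl, valMSB_reverse_bits]

/-! ### division -/

/-- one step of long division by `y` -/
def divStep (y : ℕ) (s : ℕ × ℕ) (b : Bool) : ℕ × ℕ :=
  bif decide (y ≤ Nat.bit b s.2) then (Nat.bit true s.1, Nat.bit b s.2 - y)
  else (Nat.bit false s.1, Nat.bit b s.2)

theorem div_foldl (y : ℕ) (hy : 0 < y) (l : List Bool) :
    l.foldl (divStep y) (0, 0) = (valMSB l / y, valMSB l % y) := by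
  induction l using List.reverseRecOn with
  | nil => simp [valMSB]
  | append_singleton l b ih =>
    rw [List.foldl_append, List.foldl_cons, List.foldl_nil, ih, valMSB_append_singleton]
    generalize valMSB l = v
    have h1 : v % y < y := Nat.mod_lt _ hy
    have h2 : y * (v / y) + v % y = v := Nat.div_add_mod v y
    generalize v / y = q at *
    generalize v % y = r at *
    have h3 : Nat.bit b v = y * (2 * q) + Nat.bit b r := by
      rw [← h2, Nat.bit_val, Nat.bit_val]; ring
    have h4 : Nat.bit b r < 2 * y := by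
      rw [Nat.bit_val]; cases b <;> simp <;> omega
    unfold divStep
    dsimp only
    by_cases h5 : y ≤ Nat.bit b r
    · rw [decide_eq_true h5, cond_true]
      have h6 : Nat.bit b v = y * (2 * q + 1) + (Nat.bit b r - y) := by
        rw [h3]; rw [mul_add]; omega
      have h7 : Nat.bit b r - y < y := by omega
      rw [h6, Nat.mul_add_div hy, Nat.mul_add_mod, Nat.div_eq_of_lt h7, Nat.mod_eq_of_lt h7]
      simp [Nat.bit_val]
    · rw [decide_eq_false h5, cond_false]
      have h7 : Nat.bit b r < y := by omega
      rw [h3, Nat.mul_add_div hy, Nat.mul_add_mod, Nat.div_eq_of_lt h7, Nat.mod_eq_of_lt h7]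
      simp [Nat.bit_val]

protected theorem PolyTime.divMod {f g : α → ℕ} (hf : PolyTime f) (hg : PolyTime g) :
    PolyTime (fun a => ((f a) / (g a), (f a) % (g a))) := by
  have hb : ∀ a i, 0 < g a → size ((((f a).bits.reverse).take i).foldl (divStep (g a)) (0, 0)) ≤
      2 * size (f a) + 1 + size (f a) := by
    intro a i hg
    rw [div_foldl _ hg, size_pair]
    have h1 : size (valMSB (List.take i (f a).bits.reverse)) ≤ size (f a) := by
      rw [size_nat_le]
      refine (valMSB_lt _).trans_le (Nat.pow_le_pow_right (by norm_num) ?_)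
      rw [List.length_take, List.length_reverse]
      have : (f a).bits.length = size (f a) := rfl
      omega
    have h2 := size_nat_mono (Nat.div_le_self (valMSB (List.take i (f a).bits.reverse)) (g a))
    have h3 := size_nat_mono (Nat.mod_le (valMSB (List.take i (f a).bits.reverse)) (g a))
    omega
  have h1 : PolyTime (fun a => ((f a).bits.reverse).foldl
      (divStep (g a + (bif decide (g a = 0) then 1 else 0))) (0, 0)) := by
    refine PolyTime.foldl (h := fun a => divStep (g a + (bif decide (g a = 0) then 1 else 0)))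
      (B := fun a => 2 * size (f a) + 1 + size (f a)) (by fun_prop) (PolyTime.const _)
      ?_ ((((PBd.const 2).mul hf.pbd).add (PBd.const 1)).add hf.pbd) ?_
    · unfold divStep
      fun_prop
    · intro a i
      rw [div_foldl]
      · rw [size_pair]
        have h1 : size (valMSB (List.take i (f a).bits.reverse)) ≤ size (f a) := by
          rw [size_nat_le]
          refine (valMSB_lt _).trans_le (Nat.pow_le_pow_right (by norm_num) ?_)
          rw [List.length_take, List.length_reverse]
          have : (f a).bits.length = size (f a) := rfl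
          omega
        have h2 := size_nat_mono (Nat.div_le_self (valMSB (List.take i (f a).bits.reverse))
          (g a + (bif decide (g a = 0) then 1 else 0)))
        have h3 := size_nat_mono (Nat.mod_le (valMSB (List.take i (f a).bits.reverse))
          (g a + (bif decide (g a = 0) then 1 else 0)))
        omega
      · by_cases h : g a = 0 <;> simp [h]
        omega
  refine (PolyTime.cond (c := fun a => decide (g a = 0)) (by fun_prop)
    (PolyTime.prodMk (PolyTime.const 0) hf) h1).congr (fun a => ?_)
  by_cases h : g a = 0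
  · simp [h]
  · rw [decide_eq_false h, cond_false, cond_false, div_foldl _ (by omega),
      valMSB_reverse_bits, add_zero]

@[fun_prop]
protected theorem PolyTime.div {f g : α → ℕ} (hf : PolyTime f) (hg : PolyTime g) :
    PolyTime (fun a => (f a) / (g a)) := (PolyTime.divMod hf hg).fst

@[fun_prop]
protected theorem PolyTime.mod {f g : α → ℕ} (hf : PolyTime f) (hg : PolyTime g) :
    PolyTime (fun a => (f a) % (g a)) := (PolyTime.divMod hf hg).snd

end

end Pool.Agent.PolyTime
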