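import Pool.Agent.PolyTime.CookLevin

/-!
NP-hardness of zero-one equations, subset sum and partition.
-/

namespace Pool.Agent.PolyTime

/-- Systems of zero-one equations: in each equation `(v, t)`, exactly `t` of the listed variables
(counted with multiplicity) are true. -/
def ZOE : Set (List (List ℕ × ℕ)) := {E | ∃ x : ℕ → Bool, ∀ e ∈ E, (e.1.filter x).length = e.2}

/-- Subset sum. -/
def SUBSETSUM : Set (List ℕ × ℕ) := {p | ∃ s : List ℕ, s.Sublist p.1 ∧ s.sum = p.2}

/-- Partition. -/
def PARTITION : Set (List ℕ) := {a | ∃ s : List ℕ, s.Sublist a ∧ 2 * s.sum = a.sum}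

/-! ### from three-literal formulas to zero-one equations -/

/-- variable of a literal -/
def litV (l : ℕ × Bool) : ℕ := 4 * l.1 + (bif l.2 then 0 else 1)

/-- the equations -/
def toZ (φ : List (List (ℕ × Bool))) : List (List ℕ × ℕ) :=
  (φ.flatten.map fun l => ([4 * l.1, 4 * l.1 + 1], 1)) ++
  φ.zipIdx.map fun cj => (cj.1.map litV ++ [4 * cj.2 + 2, 4 * cj.2 + 3], 3)

/-- the reduction -/
def satToZ (φ : List (List (ℕ × Bool))) : List (List ℕ × ℕ) :=
  bif φ.all (fun c => decide (c.length = 3)) then toZ φ else [([], 1)]

theorem polyTime_satToZ : PolyTime satToZ := by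
  unfold satToZ toZ litV
  fun_prop

theorem filter_two_length (x : ℕ → Bool) (a b : ℕ) :
    ([a, b].filter x).length = (if x a then 1 else 0) + (if x b then 1 else 0) := by
  cases ha : x a <;> cases hb : x b <;> simp [ha, hb]

theorem toZ_mem (φ : List (List (ℕ × Bool))) (h3 : ∀ c ∈ φ, c.length = 3) :
    toZ φ ∈ ZOE ↔ φ ∈ SAT := by
  constructor
  · rintro ⟨x, hx⟩
    refine ⟨fun v => x (4 * v), fun c hc => ?_⟩
    have h1 : ∀ l ∈ c, ([4 * l.1, 4 * l.1 + 1].filter x).length = 1 := by
      intro l hl
      refine hx ([4 * l.1, 4 * l.1 + 1], 1) ?_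
      unfold toZ
      rw [List.mem_append]
      left
      exact List.mem_map.2 ⟨l, List.mem_flatten.2 ⟨c, hc, hl⟩, rfl⟩
    obtain ⟨j, hj, hjc⟩ := List.getElem_of_mem hc
    have h2 : ((c.map litV ++ [4 * j + 2, 4 * j + 3]).filter x).length = 3 := by
      refine hx (c.map litV ++ [4 * j + 2, 4 * j + 3], 3) ?_
      unfold toZ
      rw [List.mem_append]
      right
      refine List.mem_map.2 ⟨(c, j), ?_, rfl⟩
      rw [List.mk_mem_zipIdx_iff_getElem?]
      rw [List.getElem?_eq_getElem hj, hjc]
    rw [List.filter_append, List.length_append, filter_two_length] at h2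
    have h3 : 0 < ((c.map litV).filter x).length := by
      by_contra hcon
      have h4 : ((c.map litV).filter x).length = 0 := by omega
      rw [h4] at h2
      split_ifs at h2 <;> omega
    obtain ⟨y, hy⟩ := List.exists_mem_of_length_pos h3
    rw [List.mem_filter, List.mem_map] at hy
    obtain ⟨⟨l, hl, rfl⟩, hxl⟩ := hy
    refine ⟨l, hl, ?_⟩
    have h5 := h1 l hl
    rw [filter_two_length] at h5
    obtain ⟨v, b⟩ := l
    cases b with
    | true => simpa [litV] using hxl
    | false =>
      have h6 : x (4 * v + 1) = true := by simpa [litV] using hxl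
      simp only [h6] at h5
      show x (4 * v) = false
      cases h7 : x (4 * v) with
      | false => rfl
      | true => rw [h7] at h5; simp at h5
  · rintro ⟨s, hs⟩
    -- number of true literals of the clause with index j
    obtain ⟨r, hr⟩ : ∃ r : ℕ → ℕ, r = fun j =>
        ((φ.getD j []).filter (fun l => decide (s l.1 = l.2))).length := ⟨_, rfl⟩
    obtain ⟨x, hxdef⟩ : ∃ x : ℕ → Bool, x = fun n =>
        if n % 4 = 0 then s (n / 4) else if n % 4 = 1 then !s (n / 4)
        else if n % 4 = 2 then decide (r (n / 4) ≤ 2) else decide (r (n / 4) ≤ 1) := ⟨_, rfl⟩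
    have x0 : ∀ v, x (4 * v) = s v := by
      intro v
      have e1 : (4 * v) % 4 = 0 := by omega
      have e2 : (4 * v) / 4 = v := by omega
      simp only [hxdef, e1, e2, if_true]
    have x1 : ∀ v, x (4 * v + 1) = !s v := by
      intro v
      have e1 : (4 * v + 1) % 4 = 1 := by omega
      have e2 : (4 * v + 1) / 4 = v := by omega
      simp only [hxdef, e1, e2]; simp
    have x2 : ∀ v, x (4 * v + 2) = decide (r v ≤ 2) := by
      intro v
      have e1 : (4 * v + 2) % 4 = 2 := by omega
      have e2 : (4 * v + 2) / 4 = v := by omega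
      simp only [hxdef, e1, e2]; simp
    have x3 : ∀ v, x (4 * v + 3) = decide (r v ≤ 1) := by
      intro v
      have e1 : (4 * v + 3) % 4 = 3 := by omega
      have e2 : (4 * v + 3) / 4 = v := by omega
      simp only [hxdef, e1, e2]; simp
    have xl : ∀ l : ℕ × Bool, x (litV l) = decide (s l.1 = l.2) := by
      rintro ⟨v, b⟩
      cases b with
      | true => simp [litV, x0]
      | false => simp [litV, x1]
    refine ⟨x, fun e he => ?_⟩
    unfold toZ at he
    rw [List.mem_append] at he
    rcases he with he | he
    · obtain ⟨l, _, rfl⟩ := List.mem_map.1 he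
      simp only
      rw [filter_two_length, x0, x1]
      cases s l.1 <;> simp
    · obtain ⟨⟨c, j⟩, hcj, rfl⟩ := List.mem_map.1 he
      rw [List.mk_mem_zipIdx_iff_getElem?] at hcj
      have hc : c ∈ φ := List.mem_of_getElem? hcj
      have hget : φ.getD j [] = c := by
        rw [List.getD_eq_getElem?_getD, hcj]; rfl
      simp only
      rw [List.filter_append, List.length_append, filter_two_length, x2, x3]
      have h4 : ((c.map litV).filter x).length = r j := by
        rw [hr]
        simp only [hget]
        rw [List.filter_map, List.length_map]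
        congr 1
        apply List.filter_congr
        intro l _
        exact xl l
      rw [h4]
      have h5 : r j ≤ 3 := by
        rw [← h3 c hc, hr]
        simp only [hget]
        exact List.length_filter_le _ _
      have h6 : 1 ≤ r j := by
        obtain ⟨l, hl, hl'⟩ := hs c hc
        rw [hr]
        simp only [hget]
        have : l ∈ c.filter (fun l => decide (s l.1 = l.2)) :=
          List.mem_filter.2 ⟨hl, by simpa using hl'⟩
        exact List.length_pos_of_mem this
      by_cases h7 : r j ≤ 2
      · by_cases h8 : r j ≤ 1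
        · simp only [h7, h8, decide_true, if_true]; omega
        · simp only [h7, h8, decide_true, if_true, decide_false]
          simp; omega
      · have h8 : ¬ r j ≤ 1 := by omega
        simp only [h7, h8, decide_false]
        simp; omega

theorem red_SAT3_ZOE : Red SAT3 ZOE := by
  refine ⟨satToZ, polyTime_satToZ, fun φ => ?_⟩
  unfold satToZ
  by_cases h : ∀ c ∈ φ, c.length = 3
  · have h1 : φ.all (fun c => decide (c.length = 3)) = true := by
      rw [List.all_eq_true]
      intro c hc
      simpa using h c hc
    rw [h1, cond_true, toZ_mem φ h]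
    exact ⟨fun h => h.2, fun h' => ⟨h, h'⟩⟩
  · have h1 : φ.all (fun c => decide (c.length = 3)) = false := by
      rw [Bool.eq_false_iff]
      intro h2
      rw [List.all_eq_true] at h2
      exact h (fun c hc => by simpa using h2 c hc)
    rw [h1, cond_false]
    constructor
    · intro h2; exact absurd h2.1 h
    · rintro ⟨x, hx⟩
      have := hx ([], 1) (by simp)
      simp at this

theorem npHard_ZOE : NPHard ZOE := npHard_SAT3.of_red red_SAT3_ZOE

/-! ### from zero-one equations to subset sum -/

/-- remove duplicates -/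
def ddp (l : List ℕ) : List ℕ := l.foldr (fun x acc => bif decide (x ∈ acc) then acc else x :: acc) []

theorem ddp_sublist (l : List ℕ) : (ddp l).Sublist l := by
  induction l with
  | nil => exact List.Sublist.refl _
  | cons x l ih =>
    have h : ddp (x :: l) = bif decide (x ∈ ddp l) then ddp l else x :: ddp l := rfl
    rw [h]
    by_cases hx : x ∈ ddp l
    · simp only [hx, decide_true, cond_true]; exact ih.cons x
    · simp only [hx, decide_false, cond_false]; exact ih.cons_cons x

theorem ddp_nodup (l : List ℕ) : (ddp l).Nodup := by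
  induction l with
  | nil => exact List.nodup_nil
  | cons x l ih =>
    have h : ddp (x :: l) = bif decide (x ∈ ddp l) then ddp l else x :: ddp l := rfl
    rw [h]
    by_cases hx : x ∈ ddp l
    · simp only [hx, decide_true, cond_true]; exact ih
    · simp only [hx, decide_false, cond_false]; exact List.nodup_cons.2 ⟨hx, ih⟩

theorem mem_ddp (l : List ℕ) (y : ℕ) : y ∈ ddp l ↔ y ∈ l := by
  induction l with
  | nil => simp [ddp]
  | cons x l ih =>
    have h : ddp (x :: l) = bif decide (x ∈ ddp l) then ddp l else x :: ddp l := rfl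
    rw [h]
    by_cases hx : x ∈ ddp l
    · simp only [hx, decide_true, cond_true, List.mem_cons]
      constructor
      · intro h; exact Or.inr (ih.1 h)
      · rintro (rfl | h)
        · exact hx
        · exact ih.2 h
    · simp only [hx, decide_false, cond_false, List.mem_cons, ih]

theorem polyTime_ddp : PolyTime ddp := by
  unfold ddp
  refine PolyTime.foldr (B := fun l : List ℕ => size l) (by fun_prop) (by fun_prop) ?_ PBd.size ?_
  · fun_prop
  · intro a i
    exact size_sublist ((ddp_sublist _).trans (List.drop_sublist _ _))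

/-- value of a digit list -/
def dval (B : ℕ) (l : List ℕ) : ℕ := l.foldr (fun d acc => d + B * acc) 0

theorem dval_eq (B : ℕ) (l : List ℕ) : dval B l = Nat.ofDigits B l := by
  induction l with
  | nil => rfl
  | cons d l ih =>
    rw [Nat.ofDigits_cons, ← ih]; rfl

theorem dval_le (B : ℕ) (l : List ℕ) (h : ∀ d ∈ l, d ≤ B) : dval B l ≤ (B + 1) ^ (l.length + 1) := by
  induction l with
  | nil => exact Nat.zero_le _
  | cons d l ih =>
    have h1 := ih (fun d hd => h d (List.mem_cons_of_mem _ hd))
    have h2 := h d List.mem_cons_self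
    have h3 : dval B (d :: l) = d + B * dval B l := rfl
    rw [h3, List.length_cons, pow_succ (B + 1) (l.length + 1)]
    have h4 : B + 1 ≤ (B + 1) ^ (l.length + 1) := Nat.le_self_pow (by omega) _
    nlinarith [Nat.mul_le_mul_left B h1]

theorem polyTime_dval {α : Type} [PEnc α] {B : α → ℕ} {l : α → List ℕ} (hB : PolyTime B)
    (hl : PolyTime l) (hle : ∀ a, ∀ d ∈ l a, d ≤ B a) : PolyTime (fun a => dval (B a) (l a)) := by
  have hb : PolyTime (fun a => (B a + 1) ^ ((l a).length + 1)) :=
    PolyTime.pow (by fun_prop) (by fun_prop) ((pbd_length hl).add (PBd.const 1))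
  unfold dval
  refine PolyTime.foldr hl (by fun_prop) ?_ hb.pbd ?_
  · fun_prop
  · intro a i
    rw [size_nat, size_nat]
    apply Nat.size_le_size
    refine (dval_le (B a) ((l a).drop i) (fun d hd => hle a d (List.mem_of_mem_drop hd))).trans ?_
    apply Nat.pow_le_pow_right (by omega)
    rw [List.length_drop]
    omega

/-- the base -/
def zB (E : List (List ℕ × ℕ)) : ℕ := 1 + (E.map fun e => e.1.length + e.2).sum

/-- number of occurrences -/
def cnt (v : List ℕ) (x : ℕ) : ℕ := (v.filter (fun y => decide (y = x))).length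

/-- number of a variable -/
def znum (E : List (List ℕ × ℕ)) (x : ℕ) : ℕ := dval (zB E) (E.map fun e => cnt e.1 x)

/-- the variables -/
def zvars (E : List (List ℕ × ℕ)) : List ℕ := ddp (E.flatMap fun e => e.1)

/-- the reduction -/
def zToS (E : List (List ℕ × ℕ)) : List ℕ × ℕ :=
  ((zvars E).map (znum E), dval (zB E) (E.map fun e => e.2))

theorem le_zB {E : List (List ℕ × ℕ)} {e : List ℕ × ℕ} (he : e ∈ E) :
    e.1.length + e.2 < zB E := by
  unfold zB
  have : e.1.length + e.2 ≤ (E.map fun e => e.1.length + e.2).sum :=
    List.single_le_sum (by simp) _ (List.mem_map.2 ⟨e, he, rfl⟩)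
  omega

theorem cnt_le (v : List ℕ) (x : ℕ) : cnt v x ≤ v.length := List.length_filter_le _ _

theorem polyTime_zB : PolyTime zB := by
  unfold zB
  fun_prop

theorem polyTime_zToS : PolyTime zToS := by
  have h1 : PolyTime (fun q : List (List ℕ × ℕ) × ℕ => znum q.1 q.2) := by
    unfold znum
    refine polyTime_dval (polyTime_zB.comp (by fun_prop)) ?_ ?_
    · unfold cnt
      fun_prop
    · intro q d hd
      obtain ⟨e, he, rfl⟩ := List.mem_map.1 hd
      have := le_zB he
      have := cnt_le e.1 q.2
      omega
  have h2 : PolyTime (fun E : List (List ℕ × ℕ) => dval (zB E) (E.map fun e => e.2)) := by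
    refine polyTime_dval polyTime_zB (by fun_prop) ?_
    intro E d hd
    obtain ⟨e, he, rfl⟩ := List.mem_map.1 hd
    have := le_zB he
    omega
  have h3 : PolyTime zvars := by
    unfold zvars
    exact polyTime_ddp.comp (by fun_prop)
  unfold zToS
  exact (PolyTime.map h3 h1).prodMk h2

theorem sum_dval (B : ℕ) (E : List (List ℕ × ℕ)) (f : ℕ → List ℕ × ℕ → ℕ) (s : List ℕ) :
    (s.map fun x => dval B (E.map (f x))).sum = dval B (E.map fun e => (s.map fun x => f x e).sum) := by
  induction E with
  | nil =>
    have : ∀ x, dval B (List.map (f x) []) = 0 := fun _ => rfl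
    simp only [this]
    simp [dval]
  | cons e E ih =>
    have h1 : ∀ x, dval B ((e :: E).map (f x)) = f x e + B * dval B (E.map (f x)) := fun _ => rfl
    have h2 : dval B ((e :: E).map fun e => (s.map fun x => f x e).sum) =
        (s.map fun x => f x e).sum + B * dval B (E.map fun e => (s.map fun x => f x e).sum) := rfl
    rw [h2, ← ih]
    simp only [h1]
    rw [List.sum_map_add, List.sum_map_mul_left]

theorem cnt_cons (y : ℕ) (v : List ℕ) (x : ℕ) :
    cnt (y :: v) x = (if y = x then 1 else 0) + cnt v x := by
  unfold cnt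
  by_cases h : y = x
  · rw [List.filter_cons_of_pos (by simpa using h), List.length_cons, if_pos h]; omega
  · rw [List.filter_cons_of_neg (by simpa using h), if_neg h]; omega

theorem sum_ite_nodup (s : List ℕ) (hs : s.Nodup) (y : ℕ) :
    (s.map fun x => if y = x then 1 else 0).sum = if y ∈ s then 1 else 0 := by
  induction s with
  | nil => simp
  | cons z s ih =>
    rw [List.nodup_cons] at hs
    rw [List.map_cons, List.sum_cons, ih hs.2]
    by_cases h : y = z
    · subst h
      simp [hs.1]
    · simp [h]

theorem sum_cnt (s : List ℕ) (hs : s.Nodup) (v : List ℕ) :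
    (s.map fun x => cnt v x).sum = (v.filter (fun y => decide (y ∈ s))).length := by
  induction v with
  | nil => simp [cnt]
  | cons y v ih =>
    simp only [cnt_cons]
    rw [List.sum_map_add, sum_ite_nodup s hs y, ih]
    by_cases h : y ∈ s
    · rw [List.filter_cons_of_pos (by simpa using h), List.length_cons, if_pos h]; omega
    · rw [List.filter_cons_of_neg (by simpa using h), if_neg h]; omega

theorem dval_inj (B : ℕ) (hB : 1 < B) (l m : List ℕ) (hlen : l.length = m.length)
    (hl : ∀ d ∈ l, d < B) (hm : ∀ d ∈ m, d < B) (h : dval B l = dval B m) : l = m := by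
  rw [dval_eq, dval_eq] at h
  exact Nat.ofDigits_inj_of_len_eq hB hlen hl hm h

theorem zToS_mem (E : List (List ℕ × ℕ)) : zToS E ∈ SUBSETSUM ↔ E ∈ ZOE := by
  have hmemv : ∀ e ∈ E, ∀ y ∈ e.1, y ∈ zvars E := by
    intro e he y hy
    unfold zvars
    rw [mem_ddp, List.mem_flatMap]
    exact ⟨e, he, hy⟩
  constructor
  · rintro ⟨s', hs', hsum⟩
    obtain ⟨s, hs, rfl⟩ := List.sublist_map_iff.1 hs'
    have hnd : s.Nodup := (ddp_nodup _).sublist hs
    refine ⟨fun y => decide (y ∈ s), fun e he => ?_⟩
    have h1 : (s.map (znum E)).sum =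
        dval (zB E) (E.map fun e => (s.map fun x => cnt e.1 x).sum) := by
      unfold znum
      exact sum_dval (zB E) E (fun x e => cnt e.1 x) s
    have h2 : dval (zB E) (E.map fun e => (s.map fun x => cnt e.1 x).sum) =
        dval (zB E) (E.map fun e => e.2) := by rw [← h1]; exact hsum
    by_cases hB : 1 < zB E
    · have h3 := dval_inj (zB E) hB _ _ (by simp) (by
        intro d hd
        obtain ⟨e, he, rfl⟩ := List.mem_map.1 hd
        rw [sum_cnt s hnd]
        have h4 := le_zB he
        have h5 : (e.1.filter (fun y => decide (y ∈ s))).length ≤ e.1.length :=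
          List.length_filter_le _ _
        omega) (by
        intro d hd
        obtain ⟨e, he, rfl⟩ := List.mem_map.1 hd
        have h4 := le_zB he
        omega) h2
      have h4 := List.map_inj_left.1 h3 e he
      rw [sum_cnt s hnd] at h4
      exact h4
    · have h4 := le_zB he
      have h5 : (e.1.filter (fun y => decide (y ∈ s))).length ≤ e.1.length :=
        List.length_filter_le _ _
      omega
  · rintro ⟨x, hx⟩
    refine ⟨((zvars E).filter x).map (znum E), List.filter_sublist.map _, ?_⟩
    have h1 : (((zvars E).filter x).map (znum E)).sum =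
        dval (zB E) (E.map fun e => (((zvars E).filter x).map fun x => cnt e.1 x).sum) := by
      unfold znum
      exact sum_dval (zB E) E (fun x e => cnt e.1 x) _
    rw [h1]
    show _ = dval (zB E) (E.map fun e => e.2)
    congr 1
    apply List.map_inj_left.2
    intro e he
    have hnd : (zvars E).Nodup := ddp_nodup _
    rw [sum_cnt _ (hnd.filter _), ← hx e he]
    congr 1
    apply List.filter_congr
    intro y hy
    have := hmemv e he y hy
    cases hxy : x y <;> simp [this, hxy]

theorem red_ZOE_SUBSETSUM : Red ZOE SUBSETSUM :=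
  ⟨zToS, polyTime_zToS, fun E => (zToS_mem E).symm⟩

theorem npHard_SUBSETSUM : NPHard SUBSETSUM := npHard_ZOE.of_red red_ZOE_SUBSETSUM

/-! ### from subset sum to partition -/

/-- the reduction -/
def sToP (p : List ℕ × ℕ) : List ℕ :=
  bif decide (p.2 ≤ p.1.sum) then p.1 ++ [2 * p.1.sum - p.2, p.1.sum + p.2] else [1]

theorem exists_compl {s l : List ℕ} (h : s.Sublist l) :
    ∃ s' : List ℕ, s'.Sublist l ∧ s.sum + s'.sum = l.sum := by
  induction h with
  | slnil => exact ⟨[], List.Sublist.refl _, rfl⟩
  | @cons s l a h ih =>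
    obtain ⟨s', hs', h1⟩ := ih
    exact ⟨a :: s', hs'.cons_cons a, by simp only [List.sum_cons]; omega⟩
  | @cons_cons s l a h ih =>
    obtain ⟨s', hs', h1⟩ := ih
    exact ⟨s', hs'.cons a, by simp only [List.sum_cons]; omega⟩

theorem sToP_mem (p : List ℕ × ℕ) : sToP p ∈ PARTITION ↔ p ∈ SUBSETSUM := by
  obtain ⟨l, t⟩ := p
  unfold sToP
  by_cases h : t ≤ l.sum
  · simp only [h, decide_true, cond_true]
    constructor
    · rintro ⟨s, hs, hsum⟩
      obtain ⟨s1, s2, rfl, hs1, hs2⟩ := List.sublist_append_iff.1 hs
      simp only [List.sum_append, List.sum_cons, List.sum_nil] at hsum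
      have hs1le : s1.sum ≤ l.sum := by
        obtain ⟨s', _, h1⟩ := exists_compl hs1
        omega
      rcases List.sublist_cons_iff.1 hs2 with h2 | ⟨r, rfl, h2⟩
      · rcases List.sublist_cons_iff.1 h2 with h3 | ⟨r, rfl, h3⟩
        · rw [List.sublist_nil.1 h3] at hsum
          simp only [List.sum_nil] at hsum
          exact ⟨s1, hs1, by omega⟩
        · rw [List.sublist_nil.1 h3] at hsum
          simp only [List.sum_cons, List.sum_nil] at hsum
          obtain ⟨s', hs', h4⟩ := exists_compl hs1
          exact ⟨s', hs', by show s'.sum = t; omega⟩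
      · rcases List.sublist_cons_iff.1 h2 with h3 | ⟨r', rfl, h3⟩
        · rw [List.sublist_nil.1 h3] at hsum
          simp only [List.sum_cons, List.sum_nil] at hsum
          exact ⟨s1, hs1, by show s1.sum = t; omega⟩
        · rw [List.sublist_nil.1 h3] at hsum
          simp only [List.sum_cons, List.sum_nil] at hsum
          exact ⟨s1, hs1, by show s1.sum = t; omega⟩
    · rintro ⟨s, hs, hsum⟩
      refine ⟨s ++ [2 * l.sum - t], ?_, ?_⟩
      · exact hs.append (List.Sublist.cons_cons _ (List.nil_sublist _))
      · have hsum' : s.sum = t := hsum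
        simp only [List.sum_append, List.sum_cons, List.sum_nil, hsum']
        omega
  · simp only [h, decide_false, cond_false]
    constructor
    · rintro ⟨s, hs, hsum⟩
      simp only [List.sum_cons, List.sum_nil] at hsum
      omega
    · rintro ⟨s, hs, hsum⟩
      obtain ⟨s', _, h1⟩ := exists_compl hs
      have hsum' : s.sum = t := hsum
      simp only at h1
      omega

theorem red_SUBSETSUM_PARTITION : Red SUBSETSUM PARTITION := by
  refine ⟨sToP, ?_, fun p => (sToP_mem p).symm⟩
  unfold sToP
  fun_prop

theorem npHard_PARTITION : NPHard PARTITION := npHard_SUBSETSUM.of_red red_SUBSETSUM_PARTITION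

end Pool.Agent.PolyTime
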