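import Mathlib

/-!
A small structured stack language over Boolean stacks, with a timed big-step semantics, and its
compilation to Mathlib's `Turing.FinTM2`.
-/

namespace Pool.Agent.PolyTime

open Function

/-- Programs over registers `K`, each holding a stack of bits. -/
inductive Prog (K : Type) : Type
  | skip : Prog K
  | push : K → Bool → Prog K
  | pop : K → Prog K
  | seq : Prog K → Prog K → Prog K
  | ite : K → Prog K → Prog K → Prog K → Prog K
  | loop : K → Prog K → Prog K → Prog K

namespace Prog

variable {K : Type} [DecidableEq K]

/-- States. -/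
abbrev St (K : Type) : Type := K → List Bool

/-- Timed big-step semantics. `ite k p q r` tests the head of register `k` (empty / false / true)
without removing it; `loop k q r` pops the head of register `k` as long as there is one, and
runs `q` when it is `false`, `r` when it is `true`. -/
inductive Exec : Prog K → St K → St K → ℕ → Prop
  | skip (S) : Exec skip S S 1
  | push (k b S) : Exec (push k b) S (update S k (b :: S k)) 1
  | pop (k S) : Exec (pop k) S (update S k (S k).tail) 1
  | seq {p q S S' S'' t t'} : Exec p S S' t → Exec q S' S'' t' → Exec (seq p q) S S'' (t + t')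
  | ite_nil {k p q r S S' t} : S k = [] → Exec p S S' t → Exec (ite k p q r) S S' (t + 1)
  | ite_false {k p q r S S' t w} : S k = false :: w → Exec q S S' t →
      Exec (ite k p q r) S S' (t + 1)
  | ite_true {k p q r S S' t w} : S k = true :: w → Exec r S S' t →
      Exec (ite k p q r) S S' (t + 1)
  | loop_nil {k q r S} : S k = [] → Exec (loop k q r) S S 1
  | loop_false {k q r S S' S'' t t' w} : S k = false :: w → Exec q (update S k w) S' t →
      Exec (loop k q r) S' S'' t' → Exec (loop k q r) S S'' (t + t' + 1)
  | loop_true {k q r S S' S'' t t' w} : S k = true :: w → Exec r (update S k w) S' t →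
      Exec (loop k q r) S' S'' t' → Exec (loop k q r) S S'' (t + t' + 1)

/-- Labels of the compiled machine. -/
def Lbl {K : Type} : Prog K → Type
  | skip => Unit
  | push _ _ => Unit
  | pop _ => Unit
  | seq p q => Lbl p ⊕ Lbl q
  | ite _ p q r => Option (Lbl p ⊕ (Lbl q ⊕ Lbl r))
  | loop _ q r => Option (Lbl q ⊕ Lbl r)

instance lblFintype {K : Type} : (p : Prog K) → Fintype (Lbl p)
  | skip => inferInstanceAs (Fintype Unit)
  | push _ _ => inferInstanceAs (Fintype Unit)
  | pop _ => inferInstanceAs (Fintype Unit)
  | seq p q =>
      letI := lblFintype p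
      letI := lblFintype q
      inferInstanceAs (Fintype (Lbl p ⊕ Lbl q))
  | ite _ p q r =>
      letI := lblFintype p
      letI := lblFintype q
      letI := lblFintype r
      inferInstanceAs (Fintype (Option (Lbl p ⊕ (Lbl q ⊕ Lbl r))))
  | loop _ q r =>
      letI := lblFintype q
      letI := lblFintype r
      inferInstanceAs (Fintype (Option (Lbl q ⊕ Lbl r)))

/-- Entry label. -/
def ent {K : Type} : (p : Prog K) → Lbl p
  | skip => ()
  | push _ _ => ()
  | pop _ => ()
  | seq p _ => Sum.inl (ent p)
  | ite _ _ _ _ => none
  | loop _ _ _ => none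

/-- Statements of the compiled machine. -/
abbrev TStmt (K : Type) (Λ : Type) : Type :=
  Turing.TM2.Stmt (fun _ : K => Bool) Λ (Option Bool)

/-- The three-way branching on the internal state, which is reset to `none`. -/
def br3 {K Λ : Type} (a b c : Λ) : TStmt K Λ :=
  .branch (fun v => v.isNone) (.goto fun _ => a)
    (.branch (fun v => v == some false) (.load (fun _ => none) (.goto fun _ => b))
      (.load (fun _ => none) (.goto fun _ => c)))

/-- Code of a program, given an embedding of its labels and an exit label. -/
def code {K Λ : Type} : (p : Prog K) → (Lbl p → Λ) → Λ → Lbl p → TStmt K Λ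
  | skip, _, ex, _ => .goto fun _ => ex
  | push k b, _, ex, _ => .push k (fun _ => b) (.goto fun _ => ex)
  | pop k, _, ex, _ => .pop k (fun v _ => v) (.goto fun _ => ex)
  | seq p q, em, ex, l =>
      match l with
      | Sum.inl l => code p (fun l => em (Sum.inl l)) (em (Sum.inr (ent q))) l
      | Sum.inr l => code q (fun l => em (Sum.inr l)) ex l
  | ite k p q r, em, ex, l =>
      match l with
      | none => .peek k (fun _ o => o) (br3 (em (some (Sum.inl (ent p))))
          (em (some (Sum.inr (Sum.inl (ent q))))) (em (some (Sum.inr (Sum.inr (ent r))))))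
      | some (Sum.inl l) => code p (fun l => em (some (Sum.inl l))) ex l
      | some (Sum.inr (Sum.inl l)) => code q (fun l => em (some (Sum.inr (Sum.inl l)))) ex l
      | some (Sum.inr (Sum.inr l)) => code r (fun l => em (some (Sum.inr (Sum.inr l)))) ex l
  | loop k q r, em, ex, l =>
      match l with
      | none => .pop k (fun _ o => o) (br3 ex
          (em (some (Sum.inl (ent q)))) (em (some (Sum.inr (ent r)))))
      | some (Sum.inl l) => code q (fun l => em (some (Sum.inl l))) (em none) l
      | some (Sum.inr l) => code r (fun l => em (some (Sum.inr l))) (em none) l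

/-- Iterated machine steps. -/
def RunsTo {K Λ : Type} [DecidableEq K] (M : Λ → TStmt K Λ) (c c' : Turing.TM2.Cfg
    (fun _ : K => Bool) Λ (Option Bool)) (t : ℕ) : Prop :=
  (flip bind (Turing.TM2.step M))^[t] (some c) = some c'

theorem RunsTo.trans {K Λ : Type} [DecidableEq K] {M : Λ → TStmt K Λ} {a b c t t'}
    (h : RunsTo M a b t) (h' : RunsTo M b c t') : RunsTo M a c (t + t') := by
  unfold RunsTo at *
  rw [Nat.add_comm, Function.iterate_add_apply, h, h']

theorem RunsTo.one {K Λ : Type} [DecidableEq K] {M : Λ → TStmt K Λ} {a b}
    (h : Turing.TM2.step M a = some b) : RunsTo M a b 1 := by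
  unfold RunsTo
  simpa [flip] using h

theorem stepAux_br3_none {K Λ : Type} [DecidableEq K] (a b c : Λ) (S : St K) :
    Turing.TM2.stepAux (br3 (K := K) a b c) none S = ⟨some a, none, S⟩ := rfl

theorem stepAux_br3_false {K Λ : Type} [DecidableEq K] (a b c : Λ) (S : St K) :
    Turing.TM2.stepAux (br3 (K := K) a b c) (some false) S = ⟨some b, none, S⟩ := rfl

theorem stepAux_br3_true {K Λ : Type} [DecidableEq K] (a b c : Λ) (S : St K) :
    Turing.TM2.stepAux (br3 (K := K) a b c) (some true) S = ⟨some c, none, S⟩ := rfl

theorem exec_sound {p : Prog K} {S S' : St K} {t : ℕ} (h : Exec p S S' t) :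
    ∀ {Λ : Type} (M : Λ → TStmt K Λ) (em : Lbl p → Λ) (ex : Λ),
      (∀ l, M (em l) = code p em ex l) →
      RunsTo M ⟨some (em (ent p)), none, S⟩ ⟨some ex, none, S'⟩ t := by
  induction h with
  | skip S =>
    intro Λ M em ex hM
    apply RunsTo.one
    simp [Turing.TM2.step, hM, code]
  | push k b S =>
    intro Λ M em ex hM
    apply RunsTo.one
    simp [Turing.TM2.step, hM, code]
  | pop k S =>
    intro Λ M em ex hM
    apply RunsTo.one
    simp [Turing.TM2.step, hM, code]
  | @seq p q S S' S'' t t' _ _ ih1 ih2 =>
    intro Λ M em ex hM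
    have h1 := ih1 M (fun l => em (Sum.inl l)) (em (Sum.inr (ent q)))
      (fun l => hM (Sum.inl l))
    have h2 := ih2 M (fun l => em (Sum.inr l)) ex (fun l => hM (Sum.inr l))
    exact h1.trans h2
  | @ite_nil k p q r S S' t hk _ ih =>
    intro Λ M em ex hM
    have h1 := ih M (fun l => em (some (Sum.inl l))) ex (fun l => hM (some (Sum.inl l)))
    have h0 : RunsTo M ⟨some (em (ent (ite k p q r))), none, S⟩
        ⟨some (em (some (Sum.inl (ent p)))), none, S⟩ 1 := by
      apply RunsTo.one
      simp only [Turing.TM2.step, hM]
      simp [code, ent, hk, stepAux_br3_none]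
    rw [Nat.add_comm]
    exact h0.trans h1
  | @ite_false k p q r S S' t w hk _ ih =>
    intro Λ M em ex hM
    have h1 := ih M (fun l => em (some (Sum.inr (Sum.inl l)))) ex
      (fun l => hM (some (Sum.inr (Sum.inl l))))
    have h0 : RunsTo M ⟨some (em (ent (ite k p q r))), none, S⟩
        ⟨some (em (some (Sum.inr (Sum.inl (ent q))))), none, S⟩ 1 := by
      apply RunsTo.one
      simp only [Turing.TM2.step, hM]
      simp [code, ent, hk, stepAux_br3_false]
    rw [Nat.add_comm]
    exact h0.trans h1
  | @ite_true k p q r S S' t w hk _ ih =>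
    intro Λ M em ex hM
    have h1 := ih M (fun l => em (some (Sum.inr (Sum.inr l)))) ex
      (fun l => hM (some (Sum.inr (Sum.inr l))))
    have h0 : RunsTo M ⟨some (em (ent (ite k p q r))), none, S⟩
        ⟨some (em (some (Sum.inr (Sum.inr (ent r))))), none, S⟩ 1 := by
      apply RunsTo.one
      simp only [Turing.TM2.step, hM]
      simp [code, ent, hk, stepAux_br3_true]
    rw [Nat.add_comm]
    exact h0.trans h1
  | @loop_nil k q r S hk =>
    intro Λ M em ex hM
    apply RunsTo.one
    simp only [Turing.TM2.step, hM]
    have : update S k [] = S := by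
      rw [← hk]; exact update_eq_self k S
    simp [code, ent, hk, stepAux_br3_none, this]
  | @loop_false k q r S S' S'' t t' w hk _ _ ih1 ih2 =>
    intro Λ M em ex hM
    have h1 := ih1 M (fun l => em (some (Sum.inl l))) (em none)
      (fun l => hM (some (Sum.inl l)))
    have h2 := ih2 M em ex hM
    have h0 : RunsTo M ⟨some (em (ent (loop k q r))), none, S⟩
        ⟨some (em (some (Sum.inl (ent q)))), none, update S k w⟩ 1 := by
      apply RunsTo.one
      simp only [Turing.TM2.step, hM]
      simp [code, ent, hk, stepAux_br3_false]
    have := (h0.trans h1).trans h2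
    have e : t + t' + 1 = 1 + t + t' := by ring
    rw [e]
    exact this
  | @loop_true k q r S S' S'' t t' w hk _ _ ih1 ih2 =>
    intro Λ M em ex hM
    have h1 := ih1 M (fun l => em (some (Sum.inr l))) (em none)
      (fun l => hM (some (Sum.inr l)))
    have h2 := ih2 M em ex hM
    have h0 : RunsTo M ⟨some (em (ent (loop k q r))), none, S⟩
        ⟨some (em (some (Sum.inr (ent r)))), none, update S k w⟩ 1 := by
      apply RunsTo.one
      simp only [Turing.TM2.step, hM]
      simp [code, ent, hk, stepAux_br3_true]
    have := (h0.trans h1).trans h2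
    have e : t + t' + 1 = 1 + t + t' := by ring
    rw [e]
    exact this

/-- The compiled machine of a whole program. -/
def machine {K : Type} [DecidableEq K] [Fintype K] (p : Prog K) (k₀ k₁ : K) : Turing.FinTM2 where
  K := K
  k₀ := k₀
  k₁ := k₁
  Γ := fun _ => Bool
  Λ := Option (Lbl p)
  main := some (ent p)
  ΛFin := letI := lblFintype p; inferInstance
  σ := Option Bool
  initialState := none
  m := fun l => match l with
    | none => .halt
    | some l => code p some none l

/-- The state whose only nonempty register is `k`, holding `x`. -/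
def single {K : Type} [DecidableEq K] (k : K) (x : List Bool) : St K :=
  update (fun _ => []) k x

theorem single_eq {K : Type} [DecidableEq K] {k k' : K} {x : List Bool} (h : k' = k) :
    single k x k' = x := by
  subst h
  simp [single]

theorem single_ne {K : Type} [DecidableEq K] {k k' : K} {x : List Bool} (h : k' ≠ k) :
    single k x k' = [] := by
  simp [single, h]

/-- Polynomial-time computability by a structured program. -/
def ProgFP (f : List Bool → List Bool) : Prop :=
  ∃ (K : Type) (_ : DecidableEq K) (_ : Fintype K) (k₀ k₁ : K) (p : Prog K) (P : Polynomial ℕ),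
    ∀ x, ∃ t, t ≤ P.eval x.length ∧ Exec p (single k₀ x) (single k₁ (f x)) t

end Prog

/-- Polynomial-time computable string functions, in the sense of Mathlib's `TM2` machines. -/
def FP (f : List Bool → List Bool) : Prop :=
  Nonempty (Turing.TM2ComputableInPolyTime (id : List Bool → List Bool)
    (id : List Bool → List Bool) f)

theorem FP_of_ProgFP {f : List Bool → List Bool} (h : Prog.ProgFP f) : FP f := by
  obtain ⟨K, _, _, k₀, k₁, p, P, h⟩ := h
  refine ⟨{ tm := Prog.machine p k₀ k₁
            inputAlphabet := Equiv.refl Bool
            outputAlphabet := Equiv.refl Bool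
            time := P + 1
            outputsFun := fun x => ?_ }⟩
  have hx := h x
  refine ⟨⟨hx.choose + 1, ?_⟩, ?_⟩
  · have h1 := Prog.exec_sound hx.choose_spec.2 (Prog.machine p k₀ k₁).m some none
      (fun l => rfl)
    have h2 : Prog.RunsTo (Prog.machine p k₀ k₁).m
        ⟨some none, none, Prog.single k₁ (f x)⟩ ⟨none, none, Prog.single k₁ (f x)⟩ 1 := by
      apply Prog.RunsTo.one
      rfl
    have h3 := h1.trans h2
    have e1 : Turing.initList (Prog.machine p k₀ k₁) (List.map (Equiv.refl Bool).invFun (id x)) =
        ⟨some (some (Prog.ent p)), none, Prog.single k₀ x⟩ := by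
      unfold Turing.initList
      congr 1
      funext k
      by_cases hk : k = (Prog.machine p k₀ k₁).k₀
      · rw [dif_pos hk]
        have h5 : List.map (Equiv.refl Bool).invFun (id x) = x := by simp
        exact h5.trans (Prog.single_eq hk).symm
      · rw [dif_neg hk]
        exact (Prog.single_ne hk).symm
    have e2 : Turing.haltList (Prog.machine p k₀ k₁) (List.map (Equiv.refl Bool).invFun
        (id (f x))) = ⟨none, none, Prog.single k₁ (f x)⟩ := by
      unfold Turing.haltList
      congr 1
      funext k
      by_cases hk : k = (Prog.machine p k₀ k₁).k₁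
      · rw [dif_pos hk]
        have h5 : List.map (Equiv.refl Bool).invFun (id (f x)) = f x := by simp
        exact h5.trans (Prog.single_eq hk).symm
      · rw [dif_neg hk]
        exact (Prog.single_ne hk).symm
    rw [e1]
    simp only [Option.map_some]
    rw [e2]
    exact h3
  · have := hx.choose_spec.1
    simp only [Polynomial.eval_add, Polynomial.eval_one, id]
    omega

end Pool.Agent.PolyTime
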