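import Pool.Agent.PolyTime.Closure2

/-!
Simulation of arbitrary `TM2` machines by structured programs over Boolean stacks.
-/

namespace Pool.Agent.PolyTime

open Function

set_option linter.unusedSectionVars false

namespace Prog

/-- Unary self-delimiting code of a number. -/
def cod (i : ℕ) : List Bool := List.replicate i false ++ [true]

section Basic

variable {K : Type} [DecidableEq K]

/-- Push `i` times `false`. -/
def pushF (r : K) : ℕ → Prog K
  | 0 => skip
  | i + 1 => seq (push r false) (pushF r i)

theorem exec_pushF (r : K) : ∀ (i : ℕ) (S : St K),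
    Exec (pushF r i) S (update S r (List.replicate i false ++ S r)) (i + 1) := by
  intro i
  induction i with
  | zero =>
    intro S
    exact (Exec.skip S).cast rfl (by simp) rfl
  | succ i ih =>
    intro S
    have h1 : Exec (push r false) S (update S r (false :: S r)) 1 := Exec.push r false S
    have h2 := ih (update S r (false :: S r))
    refine (Exec.seq h1 h2).cast rfl ?_ (by ring)
    rw [update_idem, update_self]
    congr 1
    rw [List.replicate_succ']
    simp

/-- Push a code. -/
def pushC (r : K) (i : ℕ) : Prog K := seq (push r true) (pushF r i)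

theorem exec_pushC (r : K) (i : ℕ) (S : St K) :
    Exec (pushC r i) S (update S r (cod i ++ S r)) (i + 2) := by
  have h1 : Exec (push r true) S (update S r (true :: S r)) 1 := Exec.push r true S
  have h2 := exec_pushF r i (update S r (true :: S r))
  refine (Exec.seq h1 h2).cast rfl ?_ (by ring)
  rw [update_idem, update_self]
  simp [cod]

/-- Read a code and continue. -/
def rdU (r : K) : ℕ → (ℕ → Prog K) → ℕ → Prog K
  | 0, _, _ => skip
  | n + 1, cont, i => ite r skip (seq (pop r) (rdU r n cont (i + 1))) (seq (pop r) (cont i))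

theorem exec_rdU (r : K) (cont : ℕ → Prog K) : ∀ (n j i : ℕ) (S S' : St K) (w : List Bool)
    (t : ℕ), j < n → S r = cod j ++ w → Exec (cont (i + j)) (update S r w) S' t →
    Exec (rdU r n cont i) S S' (t + 2 * (j + 1)) := by
  intro n
  induction n with
  | zero => intro j i S S' w t hj; omega
  | succ n ih =>
    intro j i S S' w t hj hS h
    cases j with
    | zero =>
      have h1 : Exec (pop r) S (update S r w) 1 := pp (by rw [hS]; simp [cod])
      refine (Exec.ite_true (w := w) (by rw [hS]; simp [cod]) (Exec.seq h1 h)).cast rfl rfl ?_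
      ring
    | succ j =>
      have hw : S r = false :: (cod j ++ w) := by
        rw [hS]; simp [cod, List.replicate_succ]
      have h1 : Exec (pop r) S (update S r (cod j ++ w)) 1 := pp (by rw [hw]; simp)
      have h2 := ih j (i + 1) (update S r (cod j ++ w)) S' w t (by omega) (by simp) (by
        rw [update_idem]
        have : i + 1 + j = i + (j + 1) := by ring
        rw [this]; exact h)
      refine (Exec.ite_false (w := cod j ++ w) hw (Exec.seq h1 h2)).cast rfl rfl ?_
      ring

/-- Read a code, the first bit of which has been removed by `loop`. -/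
theorem exec_loopU (r : K) (cont : ℕ → Prog K) (N j : ℕ) (S S' S'' : St K) (w : List Bool)
    (t t' : ℕ) (hj : j < N) (hS : S r = cod j ++ w) (h : Exec (cont j) (update S r w) S' t)
    (h' : Exec (loop r (rdU r N cont 1) (cont 0)) S' S'' t') :
    ∃ s, s ≤ t + 2 * N + t' + 1 ∧ Exec (loop r (rdU r N cont 1) (cont 0)) S S'' s := by
  cases j with
  | zero =>
    refine ⟨_, ?_, Exec.loop_true (w := w) (by rw [hS]; simp [cod]) h h'⟩
    omega
  | succ j =>
    have hw : S r = false :: (cod j ++ w) := by
      rw [hS]; simp [cod, List.replicate_succ]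
    have h2 := exec_rdU r cont N j 1 (update S r (cod j ++ w)) S' w t (by omega) (by simp) (by
      rw [update_idem]
      have : 1 + j = j + 1 := by ring
      rw [this]; exact h)
    refine ⟨_, ?_, Exec.loop_false (w := cod j ++ w) hw h2 h'⟩
    omega

end Basic

section Sim

open Turing.TM2

variable {K : Type} [DecidableEq K] {Γ : K → Type} {Λ σ : Type} [Fintype Λ] [Fintype σ]

open Classical in
/-- All symbols pushed by a statement. -/
noncomputable def pushed : Stmt Γ Λ σ → Finset (Σ k, Γ k)
  | .push k f q => (Finset.univ.image fun v => (⟨k, f v⟩ : Σ k, Γ k)) ∪ pushed q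
  | .peek _ _ q => pushed q
  | .pop _ _ q => pushed q
  | .load _ q => pushed q
  | .branch _ q₁ q₂ => pushed q₁ ∪ pushed q₂
  | .goto _ => ∅
  | .halt => ∅

variable (A : Finset (Σ k, Γ k))

open Classical in
/-- Number of a symbol. -/
noncomputable def cd (k : K) (s : Γ k) : ℕ :=
  if h : (⟨k, s⟩ : Σ k, Γ k) ∈ A then (A.equivFin ⟨_, h⟩ : ℕ) else 0

theorem cd_lt {k : K} {s : Γ k} (h : (⟨k, s⟩ : Σ k, Γ k) ∈ A) : cd A k s < A.card := by
  unfold cd
  rw [dif_pos h]
  exact (A.equivFin ⟨_, h⟩).2

theorem cd_inj {k : K} {s s' : Γ k} (h : (⟨k, s⟩ : Σ k, Γ k) ∈ A)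
    (h' : (⟨k, s'⟩ : Σ k, Γ k) ∈ A) (e : cd A k s = cd A k s') : s = s' := by
  unfold cd at e
  rw [dif_pos h, dif_pos h'] at e
  have := A.equivFin.injective (Fin.ext e)
  simp only [Subtype.mk.injEq, Sigma.mk.injEq, heq_eq_eq, true_and] at this
  exact this

open Classical in
/-- Symbol of a number. -/
noncomputable def dcd (k : K) (i : ℕ) : Option (Γ k) :=
  if h : ∃ s : Γ k, (⟨k, s⟩ : Σ k, Γ k) ∈ A ∧ cd A k s = i then some h.choose else none

theorem dcd_cd {k : K} {s : Γ k} (h : (⟨k, s⟩ : Σ k, Γ k) ∈ A) : dcd A k (cd A k s) = some s := by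
  have hex : ∃ s' : Γ k, (⟨k, s'⟩ : Σ k, Γ k) ∈ A ∧ cd A k s' = cd A k s := ⟨s, h, rfl⟩
  unfold dcd
  rw [dif_pos hex]
  congr 1
  exact cd_inj A hex.choose_spec.1 h hex.choose_spec.2

/-- Number of a control state. -/
noncomputable def cn (l : Λ) (v : σ) : ℕ := (Fintype.equivFin (Λ × σ) (l, v) : ℕ)

theorem cn_lt (l : Λ) (v : σ) : cn l v < Fintype.card (Λ × σ) :=
  (Fintype.equivFin (Λ × σ) (l, v)).2

/-- Control state of a number. -/
noncomputable def dn (i : ℕ) : Option (Λ × σ) :=
  if h : i < Fintype.card (Λ × σ) then some ((Fintype.equivFin (Λ × σ)).symm ⟨i, h⟩) else none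

theorem dn_cn (l : Λ) (v : σ) : dn (cn l v) = some (l, v) := by
  unfold dn
  rw [dif_pos (cn_lt l v)]
  simp [cn]

/-- Control word. -/
noncomputable def ctrl : Option Λ → σ → List Bool
  | none, _ => []
  | some l, v => cod (cn l v)

/-- Encoded stacks. -/
noncomputable def enc (S : ∀ k, List (Γ k)) : St K := fun k => (S k).flatMap fun s => cod (cd A k s)

theorem enc_update (S : ∀ k, List (Γ k)) (k : K) (l : List (Γ k)) :
    enc A (update S k l) = update (enc A S) k (l.flatMap fun s => cod (cd A k s)) := by
  funext j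
  by_cases h : j = k
  · subst h; simp [enc]
  · simp [enc, h]

/-- All symbols of the stacks are coded. -/
def Ok (S : ∀ k, List (Γ k)) : Prop := ∀ k, ∀ s ∈ S k, (⟨k, s⟩ : Σ k, Γ k) ∈ A

theorem Ok.update {S : ∀ k, List (Γ k)} (h : Ok A S) (k : K) (l : List (Γ k))
    (hl : ∀ s ∈ l, (⟨k, s⟩ : Σ k, Γ k) ∈ A) : Ok A (update S k l) := by
  intro j s hs
  by_cases hj : j = k
  · subst hj
    rw [update_self] at hs
    exact hl s hs
  · rw [update_of_ne hj] at hs
    exact h j s hs

/-- Program of a statement, for a given internal state. -/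
noncomputable def cst : Stmt Γ Λ σ → σ → Prog (K2 K Unit)
  | .push k f q, v => seq (pushC (rf k) (cd A k (f v))) (cst q v)
  | .peek k f q, v =>
      let X := rdU (rf k) A.card (fun i => match dcd A k i with
        | some s => seq (pushC (rf k) i) (cst q (f v (some s)))
        | none => skip) 0
      ite (rf k) (cst q (f v none)) X X
  | .pop k f q, v =>
      let X := rdU (rf k) A.card (fun i => match dcd A k i with
        | some s => cst q (f v (some s))
        | none => skip) 0
      ite (rf k) (cst q (f v none)) X X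
  | .load a q, v => cst q (a v)
  | .branch f q₁ q₂, v => if f v then cst q₁ v else cst q₂ v
  | .goto f, v => pushC (rg ()) (cn (f v) v)
  | .halt, _ => skip

/-- Time bound. -/
noncomputable def tb : Stmt Γ Λ σ → ℕ
  | .push _ _ q => A.card + 2 + tb q
  | .peek _ _ q => 3 * A.card + 3 + tb q
  | .pop _ _ q => 2 * A.card + 1 + tb q
  | .load _ q => tb q
  | .branch _ q₁ q₂ => tb q₁ + tb q₂
  | .goto _ => Fintype.card (Λ × σ) + 2
  | .halt => 1

theorem exec_cst (x y : List Bool) : ∀ (q : Stmt Γ Λ σ) (v : σ) (S : ∀ k, List (Γ k)),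
    Ok A S → pushed q ⊆ A →
    Ok A (stepAux q v S).stk ∧ ∃ t, t ≤ tb A q ∧
      Exec (cst A q v) (st2 (enc A S) (one []) x y)
        (st2 (enc A (stepAux q v S).stk)
          (one (ctrl (stepAux q v S).l (stepAux q v S).var)) x y) t := by
  intro q
  induction q with
  | push k f q ih =>
    intro v S hS hq
    have hk : (⟨k, f v⟩ : Σ k, Γ k) ∈ A := hq (by
      simp only [pushed, Finset.mem_union, Finset.mem_image, Finset.mem_univ, true_and]
      exact Or.inl ⟨v, rfl⟩)
    have hq' : pushed q ⊆ A := fun a ha => hq (by simp [pushed, ha])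
    have hS' : Ok A (update S k (f v :: S k)) := hS.update A k _ (by
      intro s hs
      rcases List.mem_cons.mp hs with rfl | hs
      · exact hk
      · exact hS k s hs)
    obtain ⟨h1, t, ht, h2⟩ := ih v (update S k (f v :: S k)) hS' hq'
    refine ⟨h1, cd A k (f v) + 2 + t, ?_, ?_⟩
    · have := cd_lt A hk
      simp only [tb]; omega
    · have h3 := exec_pushC (rf k) (cd A k (f v)) (st2 (enc A S) (one []) x y)
      rw [up2_rf, st2_rf] at h3
      have e : update (enc A S) k (cod (cd A k (f v)) ++ enc A S k) =
          enc A (update S k (f v :: S k)) := by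
        rw [enc_update]
        congr 1
      rw [e] at h3
      exact Exec.seq h3 h2
  | peek k f q ih =>
    intro v S hS hq
    have hq' : pushed q ⊆ A := fun a ha => hq (by simp [pushed, ha])
    rcases hk : S k with _ | ⟨s, w⟩
    · obtain ⟨h1, t, ht, h2⟩ := ih (f v none) S hS hq'
      have e : stepAux (Stmt.peek k f q) v S = stepAux q (f v none) S := by
        simp [stepAux, hk]
      rw [e]
      refine ⟨h1, t + 1, ?_, Exec.ite_nil ?_ h2⟩
      · simp only [tb]; omega
      · simp [enc, hk]
    · obtain ⟨h1, t, ht, h2⟩ := ih (f v (some s)) S hS hq'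
      have e : stepAux (Stmt.peek k f q) v S = stepAux q (f v (some s)) S := by
        simp [stepAux, hk]
      rw [e]
      have hs : (⟨k, s⟩ : Σ k, Γ k) ∈ A := hS k s (by rw [hk]; simp)
      have hS1 : st2 (enc A S) (one []) x y (rf k) =
          cod (cd A k s) ++ w.flatMap fun s => cod (cd A k s) := by
        simp [enc, hk]
      have h3 := exec_pushC (rf k) (cd A k s)
        (update (st2 (enc A S) (one []) x y) (rf k) (w.flatMap fun s => cod (cd A k s)))
      rw [update_idem, update_self] at h3
      have e2 : update (st2 (enc A S) (one []) x y) (rf k)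
          (cod (cd A k s) ++ w.flatMap fun s => cod (cd A k s)) = st2 (enc A S) (one []) x y := by
        rw [← hS1, update_eq_self]
      rw [e2] at h3
      have h4 := exec_rdU (rf k) (fun i => match dcd A k i with
        | some s => seq (pushC (rf k) i) (cst A q (f v (some s)))
        | none => skip) A.card (cd A k s) 0 (st2 (enc A S) (one []) x y) _ _ _
        (cd_lt A hs) hS1 (by
          rw [Nat.zero_add]
          simp only [dcd_cd A hs]
          exact Exec.seq h3 h2)
      have h5 : ∀ S' t', Exec (rdU (rf k) A.card (fun i => match dcd A k i with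
          | some s => seq (pushC (rf k) i) (cst A q (f v (some s)))
          | none => skip) 0) (st2 (enc A S) (one []) x y) S' t' →
          Exec (cst A (Stmt.peek k f q) v) (st2 (enc A S) (one []) x y) S' (t' + 1) := by
        intro S' t' h4
        simp only [cst]
        rcases hc : cod (cd A k s) ++ w.flatMap fun s => cod (cd A k s) with _ | ⟨b, z⟩
        · simp [cod] at hc
        · rw [hc] at hS1
          cases b with
          | false => exact Exec.ite_false hS1 h4
          | true => exact Exec.ite_true hS1 h4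
      refine ⟨h1, _, ?_, h5 _ _ h4⟩
      have := cd_lt A hs
      simp only [tb]; omega
  | pop k f q ih =>
    intro v S hS hq
    have hq' : pushed q ⊆ A := fun a ha => hq (by simp [pushed, ha])
    rcases hk : S k with _ | ⟨s, w⟩
    · have e : stepAux (Stmt.pop k f q) v S = stepAux q (f v none) S := by
        have : update S k [] = S := by rw [← hk]; exact update_eq_self k S
        simp [stepAux, hk, this]
      obtain ⟨h1, t, ht, h2⟩ := ih (f v none) S hS hq'
      rw [e]
      refine ⟨h1, t + 1, ?_, Exec.ite_nil ?_ h2⟩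
      · simp only [tb]; omega
      · simp [enc, hk]
    · have e : stepAux (Stmt.pop k f q) v S = stepAux q (f v (some s)) (update S k w) := by
        simp [stepAux, hk]
      have hS' : Ok A (update S k w) := hS.update A k _ (by
        intro s' hs'
        exact hS k s' (by rw [hk]; exact List.mem_cons_of_mem _ hs'))
      obtain ⟨h1, t, ht, h2⟩ := ih (f v (some s)) (update S k w) hS' hq'
      rw [e]
      have hs : (⟨k, s⟩ : Σ k, Γ k) ∈ A := hS k s (by rw [hk]; simp)
      have hS1 : st2 (enc A S) (one []) x y (rf k) =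
          cod (cd A k s) ++ w.flatMap fun s => cod (cd A k s) := by
        simp [enc, hk]
      have h4 := exec_rdU (rf k) (fun i => match dcd A k i with
        | some s => cst A q (f v (some s))
        | none => skip) A.card (cd A k s) 0 (st2 (enc A S) (one []) x y) _ _ _
        (cd_lt A hs) hS1 (by
          rw [Nat.zero_add]
          simp only [dcd_cd A hs]
          rw [up2_rf, ← enc_update]
          exact h2)
      have h5 : ∀ S' t', Exec (rdU (rf k) A.card (fun i => match dcd A k i with
          | some s => cst A q (f v (some s))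
          | none => skip) 0) (st2 (enc A S) (one []) x y) S' t' →
          Exec (cst A (Stmt.pop k f q) v) (st2 (enc A S) (one []) x y) S' (t' + 1) := by
        intro S' t' h4
        simp only [cst]
        rcases hc : cod (cd A k s) ++ w.flatMap fun s => cod (cd A k s) with _ | ⟨b, z⟩
        · simp [cod] at hc
        · rw [hc] at hS1
          cases b with
          | false => exact Exec.ite_false hS1 h4
          | true => exact Exec.ite_true hS1 h4
      refine ⟨h1, _, ?_, h5 _ _ h4⟩
      have := cd_lt A hs
      simp only [tb]; omega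
  | load a q ih =>
    intro v S hS hq
    exact ih (a v) S hS (fun a ha => hq (by simp [pushed, ha]))
  | branch f q₁ q₂ ih1 ih2 =>
    intro v S hS hq
    have hq1 : pushed q₁ ⊆ A := fun a ha => hq (by simp [pushed, ha])
    have hq2 : pushed q₂ ⊆ A := fun a ha => hq (by simp [pushed, ha])
    cases hfv : f v with
    | true =>
      obtain ⟨h1, t, ht, h2⟩ := ih1 v S hS hq1
      have e : stepAux (Stmt.branch f q₁ q₂) v S = stepAux q₁ v S := by simp [stepAux, hfv]
      rw [e]
      refine ⟨h1, t, ?_, ?_⟩
      · simp only [tb]; omega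
      · simp only [cst, hfv, if_true]; exact h2
    | false =>
      obtain ⟨h1, t, ht, h2⟩ := ih2 v S hS hq2
      have e : stepAux (Stmt.branch f q₁ q₂) v S = stepAux q₂ v S := by simp [stepAux, hfv]
      rw [e]
      refine ⟨h1, t, ?_, ?_⟩
      · simp only [tb]; omega
      · simp only [cst, hfv]; exact h2
  | goto f =>
    intro v S hS hq
    refine ⟨hS, cn (f v) v + 2, ?_, ?_⟩
    · have := cn_lt (f v) v
      simp only [tb]; omega
    · have h3 := exec_pushC (rg ()) (cn (f v) v) (st2 (enc A S) (one []) x y)
      rw [up2_rg, update_one, st2_rg, one_apply, List.append_nil] at h3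
      exact h3
  | halt =>
    intro v S hS hq
    exact ⟨hS, 1, le_rfl, Exec.skip _⟩

/-- Continuation of the main loop. -/
noncomputable def disp (m : Λ → Stmt Γ Λ σ) (i : ℕ) : Prog (K2 K Unit) :=
  match dn (Λ := Λ) (σ := σ) i with
  | some (l, v) => cst A (m l) v
  | none => skip

/-- Main loop. -/
noncomputable def mainLoop (m : Λ → Stmt Γ Λ σ) : Prog (K2 K Unit) :=
  loop (rg ()) (rdU (rg ()) (Fintype.card (Λ × σ)) (disp A m) 1) (disp A m 0)

theorem exec_mainLoop (m : Λ → Stmt Γ Λ σ) (hm : ∀ l, pushed (m l) ⊆ A) (x y : List Bool)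
    (C : ℕ) (hC : ∀ l, tb A (m l) ≤ C) : ∀ (n : ℕ) (c c' : Cfg Γ Λ σ), c'.l = none →
    Ok A c.stk → (flip bind (step m))^[n] (some c) = some c' →
    Ok A c'.stk ∧ ∃ t, t ≤ n * (C + 2 * Fintype.card (Λ × σ) + 1) + 1 ∧
      Exec (mainLoop A m) (st2 (enc A c.stk) (one (ctrl c.l c.var)) x y)
        (st2 (enc A c'.stk) (one []) x y) t := by
  intro n
  induction n with
  | zero =>
    intro c c' hc' hok h
    simp only [iterate_zero, id, Option.some.injEq] at h
    subst h
    refine ⟨hok, 1, by omega, ?_⟩
    rw [hc']
    exact Exec.loop_nil (by simp [ctrl, one_apply])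
  | succ n ih =>
    intro c c' hc' hok h
    rw [iterate_succ_apply] at h
    have hnone : ∀ k : ℕ, (flip bind (step m))^[k] (none : Option (Cfg Γ Λ σ)) = none := by
      intro k
      induction k with
      | zero => rfl
      | succ k ihk => rw [iterate_succ_apply]; exact ihk
    rcases c with ⟨l, v, S⟩
    cases l with
    | none =>
      have e : flip bind (step m) (some (⟨none, v, S⟩ : Cfg Γ Λ σ)) = none := rfl
      rw [e, hnone] at h
      cases h
    | some l =>
      have e : flip bind (step m) (some (⟨some l, v, S⟩ : Cfg Γ Λ σ)) =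
          some (stepAux (m l) v S) := rfl
      rw [e] at h
      obtain ⟨h1, t, ht, h2⟩ := exec_cst A x y (m l) v S hok (hm l)
      obtain ⟨h3, t', ht', h4⟩ := ih _ c' hc' h1 h
      have h5 : Exec (disp A m (cn l v))
          (update (st2 (enc A S) (one (cod (cn l v))) x y) (rg ()) [])
          (st2 (enc A (stepAux (m l) v S).stk)
            (one (ctrl (stepAux (m l) v S).l (stepAux (m l) v S).var)) x y) t := by
        rw [up2_rg, update_one]
        simp only [disp, dn_cn]
        exact h2
      obtain ⟨s, hs, h6⟩ := exec_loopU (rg ()) (disp A m) (Fintype.card (Λ × σ)) (cn l v)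
        (st2 (enc A S) (one (cod (cn l v))) x y) _ _ [] t t' (cn_lt l v)
        (by simp [one_apply]) h5 h4
      refine ⟨h3, s, ?_, h6⟩
      have hCl := hC l
      have e2 : (n + 1) * (C + 2 * Fintype.card (Λ × σ) + 1) =
          n * (C + 2 * Fintype.card (Λ × σ) + 1) + (C + 2 * Fintype.card (Λ × σ) + 1) := by ring
      rw [e2]
      omega

/-- Encode the input. -/
noncomputable def inLoop (k₀ : K) (e : Bool → Γ k₀) : Prog (K2 K Unit) :=
  loop rt (pushC (rf k₀) (cd A k₀ (e false))) (pushC (rf k₀) (cd A k₀ (e true)))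

theorem exec_inLoop (k₀ : K) (e : Bool → Γ k₀)
    (he : ∀ b, (⟨k₀, e b⟩ : Σ k, Γ k) ∈ A) : ∀ (x : List Bool) (w : List (Γ k₀)),
    ∃ t, t ≤ x.length * (A.card + 3) + 1 ∧
    Exec (inLoop A k₀ e) (st2 (enc A (update (fun _ => []) k₀ w)) (one []) [] x)
      (st2 (enc A (update (fun _ => []) k₀ (x.reverse.map e ++ w))) (one []) [] []) t := by
  intro x
  induction x with
  | nil =>
    intro w
    exact ⟨1, by omega, Exec.loop_nil (by simp)⟩
  | cons b x ih =>
    intro w
    obtain ⟨t, ht, h1⟩ := ih (e b :: w)
    have h0 : Exec (pushC (rf k₀) (cd A k₀ (e b)))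
        (update (st2 (enc A (update (fun _ => []) k₀ w)) (one []) [] (b :: x)) rt x)
        (st2 (enc A (update (fun _ => []) k₀ (e b :: w))) (one []) [] x)
        (cd A k₀ (e b) + 2) := by
      rw [up2_rt]
      refine (exec_pushC (rf k₀) (cd A k₀ (e b)) _).cast rfl ?_ rfl
      rw [up2_rf, st2_rf]
      congr 1
      funext j
      by_cases hj : j = k₀
      · subst hj; simp [enc]
      · simp [enc, hj]
    have hcd := cd_lt A (he b)
    have e2 : (b :: x).reverse.map e ++ w = x.reverse.map e ++ (e b :: w) := by simp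
    rw [e2]
    have e3 : (b :: x).length * (A.card + 3) = x.length * (A.card + 3) + (A.card + 3) := by
      simp only [List.length_cons]; ring
    rw [e3]
    cases b with
    | false =>
      exact ⟨_, by omega, Exec.loop_false (k := rt) (w := x) (by simp) h0 h1⟩
    | true =>
      exact ⟨_, by omega, Exec.loop_true (k := rt) (w := x) (by simp) h0 h1⟩

/-- Continuation for the output. -/
noncomputable def outC (k₁ : K) (e : Γ k₁ → Bool) (i : ℕ) : Prog (K2 K Unit) :=
  match dcd A k₁ i with
  | some s => push rt (e s)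
  | none => skip

/-- Decode the output. -/
noncomputable def outLoop (k₁ : K) (e : Γ k₁ → Bool) : Prog (K2 K Unit) :=
  loop (rf k₁) (rdU (rf k₁) A.card (outC A k₁ e) 1) (outC A k₁ e 0)

theorem exec_outLoop (k₁ : K) (e : Γ k₁ → Bool) : ∀ (w : List (Γ k₁)) (y : List Bool),
    (∀ s ∈ w, (⟨k₁, s⟩ : Σ k, Γ k) ∈ A) →
    ∃ t, t ≤ w.length * (2 * A.card + 2) + 1 ∧
    Exec (outLoop A k₁ e) (st2 (enc A (update (fun _ => []) k₁ w)) (one []) [] y)
      (st2 (enc A (update (fun _ => []) k₁ [])) (one []) [] ((w.map e).reverse ++ y)) t := by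
  intro w
  induction w with
  | nil =>
    intro y _
    exact ⟨1, by omega, Exec.loop_nil (by simp [enc])⟩
  | cons s w ih =>
    intro y hw
    obtain ⟨t, ht, h1⟩ := ih (e s :: y) (fun s hs => hw s (List.mem_cons_of_mem _ hs))
    have hs := hw s (by simp)
    have h0 : Exec (outC A k₁ e (cd A k₁ s))
        (update (st2 (enc A (update (fun _ => []) k₁ (s :: w))) (one []) [] y) (rf k₁)
          (w.flatMap fun s => cod (cd A k₁ s)))
        (st2 (enc A (update (fun _ => []) k₁ w)) (one []) [] (e s :: y)) 1 := by
      simp only [outC, dcd_cd A hs]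
      refine psh ?_
      have e1 : update (enc A (update (fun _ => []) k₁ (s :: w))) k₁
          (w.flatMap fun s => cod (cd A k₁ s)) = enc A (update (fun _ => []) k₁ w) := by
        rw [← enc_update, update_idem]
      rw [up2_rf, e1]
      simp
    obtain ⟨t', ht', h2⟩ := exec_loopU (rf k₁) (outC A k₁ e) A.card (cd A k₁ s)
      (st2 (enc A (update (fun _ => []) k₁ (s :: w))) (one []) [] y) _ _
      (w.flatMap fun s => cod (cd A k₁ s)) 1 t (cd_lt A hs) (by simp [enc]) h0 h1
    refine ⟨t', ?_, ?_⟩
    · have e3 : (s :: w).length * (2 * A.card + 2) =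
          w.length * (2 * A.card + 2) + (2 * A.card + 2) := by
        simp only [List.length_cons]; ring
      rw [e3]
      omega
    · have e2 : (List.map e (s :: w)).reverse ++ y = (w.map e).reverse ++ (e s :: y) := by simp
      rw [e2]
      exact h2

end Sim

end Prog

open Prog in
theorem ProgFP_of_FP {f : List Bool → List Bool} (h : FP f) : ProgFP f := by
  classical
  obtain ⟨M⟩ := h
  obtain ⟨⟨tm, inA, outA⟩, T, hout⟩ := M
  let _ := tm.kDecidableEq
  let _ := tm.kFin
  let _ := tm.ΛFin
  let _ := tm.σFin
  let A : Finset (Σ k, tm.Γ k) := (Finset.univ.biUnion fun l => pushed (tm.m l)) ∪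
    (Finset.univ.image fun b => (⟨tm.k₀, inA.symm b⟩ : Σ k, tm.Γ k))
  have hA1 : ∀ l, pushed (tm.m l) ⊆ A := by
    intro l a ha
    simp only [A, Finset.mem_union, Finset.mem_biUnion, Finset.mem_univ, true_and]
    exact Or.inl ⟨l, ha⟩
  have hA2 : ∀ b, (⟨tm.k₀, inA.symm b⟩ : Σ k, tm.Γ k) ∈ A := by
    intro b
    simp only [A, Finset.mem_union, Finset.mem_image, Finset.mem_univ, true_and]
    exact Or.inr ⟨b, rfl⟩
  let C : ℕ := ∑ l, tb A (tm.m l)
  have hC : ∀ l, tb A (tm.m l) ≤ C := fun l =>
    Finset.single_le_sum (f := fun l => tb A (tm.m l)) (fun _ _ => Nat.zero_le _)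
      (Finset.mem_univ l)
  let N : ℕ := Fintype.card (tm.Λ × tm.σ)
  let P1 : Polynomial ℕ := (2 * Polynomial.X + 1) +
    ((Polynomial.X * (Polynomial.C (A.card + 3)) + 1) +
    (Polynomial.C (N + 2) + (T * Polynomial.C (C + 2 * N + 1) + 1)))
  refine Comp.progFP (K := K2 tm.K Unit)
    (p := seq (seq (moveRev ra rt) (seq (inLoop A tm.k₀ inA.symm)
      (seq (pushC (rg ()) (cn tm.main tm.initialState)) (mainLoop A tm.m))))
      (seq (outLoop A tm.k₁ outA) (moveRev rt ra)))
    (k₀ := ra) (k₁ := ra)
    (P := P1 + ((P1 + Polynomial.X) * Polynomial.C (2 * A.card + 2) + 1) +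
      (2 * (P1 + Polynomial.X) + 1)) (fun x => ?_)
  obtain ⟨⟨n, hn⟩, hnT⟩ := hout x
  have e0 : Exec (moveRev ra rt) (st2 (bot tm.K) (one []) x []) (st2 (bot _) (one []) [] x.reverse)
      (2 * x.length + 1) := mv (by simp) (by simp) (by simp)
  have hbot : ∀ k : tm.K, enc A (update (fun _ => []) k []) = bot tm.K := by
    intro k
    funext j
    by_cases hj : j = k
    · subst hj; simp [enc, bot]
    · simp [enc, bot, hj]
  obtain ⟨t1, ht1, e1⟩ := exec_inLoop A tm.k₀ inA.symm hA2 x.reverse []
  rw [hbot, List.reverse_reverse, List.append_nil] at e1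
  have e2 := exec_pushC (rg ()) (cn tm.main tm.initialState)
    (st2 (enc A (update (fun _ => []) tm.k₀ (x.map inA.symm))) (one []) [] [])
  rw [up2_rg, update_one, st2_rg, one_apply, List.append_nil] at e2
  have hinit : Turing.initList tm (List.map inA.invFun (id x)) =
      ⟨some tm.main, tm.initialState, update (fun _ => []) tm.k₀ (x.map inA.symm)⟩ := by
    unfold Turing.initList
    congr 1
    funext k
    by_cases hk : k = tm.k₀
    · subst hk
      rw [dif_pos rfl, update_self]
      rfl
    · rw [dif_neg hk, update_of_ne hk]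
  have hhalt : Turing.haltList tm (List.map outA.invFun (id (f x))) =
      ⟨none, tm.initialState, update (fun _ => []) tm.k₁ ((f x).map outA.symm)⟩ := by
    unfold Turing.haltList
    congr 1
    funext k
    by_cases hk : k = tm.k₁
    · subst hk
      rw [dif_pos rfl, update_self]
      rfl
    · rw [dif_neg hk, update_of_ne hk]
  have hn' : (flip bind (Turing.TM2.step tm.m))^[n]
      (some ⟨some tm.main, tm.initialState, update (fun _ => []) tm.k₀ (x.map inA.symm)⟩) =
      some ⟨none, tm.initialState, update (fun _ => []) tm.k₁ ((f x).map outA.symm)⟩ := by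
    rw [← hinit, ← hhalt]
    exact hn
  obtain ⟨hok, t2, ht2, e3⟩ := exec_mainLoop A tm.m hA1 [] [] C hC n _ _ rfl (by
    intro k s hs
    by_cases hk : k = tm.k₀
    · subst hk
      simp only [update_self, List.mem_map] at hs
      obtain ⟨b, _, rfl⟩ := hs
      exact hA2 b
    · simp [hk] at hs) hn'
  have hokw : ∀ s ∈ (f x).map outA.symm, (⟨tm.k₁, s⟩ : Σ k, tm.Γ k) ∈ A := by
    intro s hs
    exact hok tm.k₁ s (by simpa using hs)
  obtain ⟨t3, ht3, e4⟩ := exec_outLoop A tm.k₁ outA _ [] hokw
  have hmap : ((f x).map outA.symm).map outA = f x := by simp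
  rw [hbot, hmap, List.append_nil] at e4
  have e5 : Exec (moveRev rt ra) (st2 (bot tm.K) (one []) [] (f x).reverse)
      (st2 (bot _) (one []) (f x) []) (2 * (f x).reverse.length + 1) :=
    mv (by simp) (by simp) (by simp)
  have ea := Exec.seq e0 (Exec.seq e1 (Exec.seq e2 e3))
  have hT : 2 * x.length + 1 + (t1 + (cn tm.main tm.initialState + 2 + t2)) ≤
      P1.eval x.length := by
    have h1 := cn_lt tm.main tm.initialState
    have h2 : n * (C + 2 * N + 1) ≤ T.eval x.length * (C + 2 * N + 1) :=
      Nat.mul_le_mul_right _ hnT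
    simp only [P1, Polynomial.eval_add, Polynomial.eval_mul, Polynomial.eval_X,
      Polynomial.eval_one, Polynomial.eval_ofNat, Polynomial.eval_C]
    rw [List.length_reverse] at ht1
    simp only [N] at *
    omega
  have hlen : (f x).length ≤ P1.eval x.length + x.length := by
    have h1 : tot (st2 (enc A (update (fun _ => []) tm.k₁ ((f x).map outA.symm))) (one []) [] []) ≤
        tot (st2 (bot tm.K) (one []) x []) +
        (2 * x.length + 1 + (t1 + (cn tm.main tm.initialState + 2 + t2))) := ea.tot_le
    have h2 : tot (st2 (bot tm.K) (one []) x []) = x.length := by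
      rw [bot_unit.symm, ← single_ra, tot_single]
    have h3 : (enc A (update (fun _ => []) tm.k₁ ((f x).map outA.symm)) tm.k₁).length ≤
        tot (st2 (enc A (update (fun _ => []) tm.k₁ ((f x).map outA.symm))) (one []) [] []) :=
      Finset.single_le_sum (f := fun k => (st2 (enc A (update (fun _ => []) tm.k₁
        ((f x).map outA.symm))) (one []) [] [] k).length) (fun _ _ => Nat.zero_le _)
        (Finset.mem_univ (rf tm.k₁))
    have h4 : ∀ l : List (tm.Γ tm.k₁), l.length ≤ (l.flatMap fun s => cod (cd A tm.k₁ s)).length := by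
      intro l
      induction l with
      | nil => simp
      | cons s l ih =>
        simp only [List.flatMap_cons, List.length_cons, List.length_append]
        have : 1 ≤ (cod (cd A tm.k₁ s)).length := by simp [cod]
        omega
    have h5 := h4 ((f x).map outA.symm)
    have h6 : enc A (update (fun _ => []) tm.k₁ ((f x).map outA.symm)) tm.k₁ =
        ((f x).map outA.symm).flatMap fun s => cod (cd A tm.k₁ s) := by simp [enc]
    rw [h6] at h3
    rw [List.length_map] at h5
    omega
  refine ⟨_, ?_, (Exec.seq ea (Exec.seq e4 e5)).cast ?_ ?_ rfl⟩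
  · rw [List.length_map] at ht3
    rw [List.length_reverse]
    clear_value P1
    have h1 : (f x).length * (2 * A.card + 2) ≤
        (P1.eval x.length + x.length) * (2 * A.card + 2) := Nat.mul_le_mul_right _ hlen
    have h2 : (P1 + ((P1 + Polynomial.X) * Polynomial.C (2 * A.card + 2) + 1) +
      (2 * (P1 + Polynomial.X) + 1)).eval x.length = P1.eval x.length +
      ((P1.eval x.length + x.length) * (2 * A.card + 2) + 1) +
      (2 * (P1.eval x.length + x.length) + 1) := by
      simp only [Polynomial.eval_add, Polynomial.eval_mul, Polynomial.eval_X,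
        Polynomial.eval_one, Polynomial.eval_ofNat, Polynomial.eval_C]
    rw [h2]
    generalize P1.eval x.length = a at *
    generalize (f x).length * (2 * A.card + 2) = b at *
    generalize (a + x.length) * (2 * A.card + 2) = c at *
    omega
  · rw [single_ra, bot_unit]
  · rw [single_ra, bot_unit]

end Pool.Agent.PolyTime
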