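import Pool.Agent.PolyTime.Basic
import Mathlib.Tactic

/-!
String level closure properties of polynomial-time functions.
-/

namespace Pool.Agent.PolyTime

/-! ### polynomial bounds -/

theorem exists_pow_bound (p : Polynomial ℕ) : ∃ k, ∀ n : ℕ, p.eval n ≤ (n + 2) ^ k := by
  induction p using Polynomial.induction_on' with
  | add p q hp hq =>
    obtain ⟨a, ha⟩ := hp
    obtain ⟨b, hb⟩ := hq
    refine ⟨max a b + 1, fun n => ?_⟩
    rw [Polynomial.eval_add]
    have h1 : (n + 2) ^ a ≤ (n + 2) ^ max a b := Nat.pow_le_pow_right (by omega) (le_max_left _ _)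
    have h2 : (n + 2) ^ b ≤ (n + 2) ^ max a b := Nat.pow_le_pow_right (by omega) (le_max_right _ _)
    have h3 : (n + 2) ^ (max a b + 1) = (n + 2) ^ max a b * (n + 2) := pow_succ _ _
    have h4 : (n + 2) ^ max a b * 2 ≤ (n + 2) ^ max a b * (n + 2) :=
      Nat.mul_le_mul_left _ (by omega)
    have := ha n
    have := hb n
    omega
  | monomial m c =>
    refine ⟨c + m, fun n => ?_⟩
    rw [Polynomial.eval_monomial, pow_add]
    refine Nat.mul_le_mul ?_ (Nat.pow_le_pow_left (by omega) _)
    calc c ≤ 2 ^ c := Nat.lt_two_pow_self.le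
      _ ≤ (n + 2) ^ c := Nat.pow_le_pow_left (by omega) _

theorem pow_bound_eval (k n : ℕ) :
    ((Polynomial.X + 2 : Polynomial ℕ) ^ k).eval n = (n + 2) ^ k := by
  simp

/-- output length of a polynomial-time function, power form -/
protected theorem FP.length_pow {f : List Bool → List Bool} (hf : FP f) :
    ∃ k, ∀ x, (f x).length ≤ (x.length + 2) ^ k := by
  obtain ⟨p, hp⟩ := hf.length_le
  obtain ⟨k, hk⟩ := exists_pow_bound p
  exact ⟨k, fun x => (hp x).trans (hk _)⟩

theorem pow_mono_exp {n a b : ℕ} (h : a ≤ b) : (n + 2) ^ a ≤ (n + 2) ^ b :=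
  Nat.pow_le_pow_right (by omega) h

theorem pow_add_le (n a b : ℕ) : (n + 2) ^ a + (n + 2) ^ b ≤ (n + 2) ^ (max a b + 1) := by
  have h1 : (n + 2) ^ a ≤ (n + 2) ^ max a b := pow_mono_exp (le_max_left _ _)
  have h2 : (n + 2) ^ b ≤ (n + 2) ^ max a b := pow_mono_exp (le_max_right _ _)
  have h3 : (n + 2) ^ (max a b + 1) = (n + 2) ^ max a b * (n + 2) := pow_succ _ _
  have h4 : (n + 2) ^ max a b * 2 ≤ (n + 2) ^ max a b * (n + 2) :=
    Nat.mul_le_mul_left _ (by omega)
  omega

theorem const_le_pow (n c : ℕ) : c ≤ (n + 2) ^ c :=
  calc c ≤ 2 ^ c := Nat.lt_two_pow_self.le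
    _ ≤ (n + 2) ^ c := Nat.pow_le_pow_left (by omega) _

theorem self_le_pow (n : ℕ) : n ≤ (n + 2) ^ 1 := by simp

/-- A numeric function of a string is polynomially bounded. -/
def PB (b : List Bool → ℕ) : Prop := ∃ k, ∀ x, b x ≤ (x.length + 2) ^ k

protected theorem PB.mono {b c : List Bool → ℕ} (hc : PB c) (h : ∀ x, b x ≤ c x) : PB b := by
  obtain ⟨k, hk⟩ := hc
  exact ⟨k, fun x => (h x).trans (hk x)⟩

protected theorem PB.const (c : ℕ) : PB (fun _ => c) := ⟨c, fun _ => const_le_pow _ _⟩

protected theorem PB.len : PB (fun x => x.length) := ⟨1, fun _ => self_le_pow _⟩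

protected theorem PB.add {b c : List Bool → ℕ} (hb : PB b) (hc : PB c) : PB (fun x => b x + c x) := by
  obtain ⟨k, hk⟩ := hb
  obtain ⟨l, hl⟩ := hc
  exact ⟨max k l + 1, fun x => (add_le_add (hk x) (hl x)).trans (pow_add_le _ _ _)⟩

protected theorem PB.mul {b c : List Bool → ℕ} (hb : PB b) (hc : PB c) : PB (fun x => b x * c x) := by
  obtain ⟨k, hk⟩ := hb
  obtain ⟨l, hl⟩ := hc
  refine ⟨k + l, fun x => ?_⟩
  rw [pow_add]
  exact Nat.mul_le_mul (hk x) (hl x)

protected theorem FP.pb {f : List Bool → List Bool} (hf : FP f) : PB (fun x => (f x).length) :=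
  hf.length_pow

/-- iteration, with a polynomial bound in predicate form -/
protected theorem FP.iterPB {f g h : List Bool → List Bool} (hf : FP f) (hg : FP g) (hh : FP h)
    {b : List Bool → ℕ} (hb : PB b)
    (hp : ∀ x i, i ≤ (g x).length → (f^[i] (h x)).length ≤ b x) :
    FP (fun x => f^[(g x).length] (h x)) := by
  obtain ⟨k, hk⟩ := hb
  refine FP.iter hf hg hh ((Polynomial.X + 2) ^ k) (fun x i hi => ?_)
  rw [pow_bound_eval]
  exact (hp x i hi).trans (hk x)

/-! ### pairing -/

theorem pr_nil (v : List Bool) : pr [] v = false :: v := rfl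
theorem pr_cons (b : Bool) (u v : List Bool) : pr (b :: u) v = true :: b :: pr u v := rfl

theorem length_pr (u v : List Bool) : (pr u v).length = 2 * u.length + 1 + v.length := by
  induction u with
  | nil => simp [pr_nil]; omega
  | cons b u ih => simp only [pr_cons, List.length_cons, ih]; omega

theorem pr_ne_nil (u v : List Bool) : pr u v ≠ [] := by
  cases u <;> simp [pr_nil, pr_cons]

theorem pr_inj {u v u' v' : List Bool} : pr u v = pr u' v' ↔ u = u' ∧ v = v' := by
  constructor
  · intro h
    exact ⟨by simpa using congrArg p1 h, by simpa using congrArg p2 h⟩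
  · rintro ⟨rfl, rfl⟩; rfl

theorem length_p1_le (x : List Bool) : (p1 x).length ≤ x.length := by
  induction x using p1.induct with
  | case1 b w ih => simp only [PolyTime.p1, List.length_cons]; omega
  | case2 x h =>
    rw [PolyTime.p1]
    · simp
    · exact h

theorem length_p2_le (x : List Bool) : (p2 x).length ≤ x.length := by
  induction x using p2.induct with
  | case1 b w ih => simp only [PolyTime.p2, List.length_cons]; omega
  | case2 w => simp [PolyTime.p2]
  | case3 x h1 h2 =>
    rw [PolyTime.p2]
    · simp
    · exact h1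
    · exact h2

/-! ### basic functions -/

protected theorem FP.congr {f g : List Bool → List Bool} (hf : FP f) (h : ∀ x, f x = g x) : FP g := by
  have : f = g := funext h
  rwa [← this]

protected theorem FP.const (w : List Bool) : FP (fun _ => w) := by
  induction w with
  | nil => exact FP.nil
  | cons b w ih => exact (FP.cons b).comp ih

protected theorem FP.cons' (b : Bool) {f : List Bool → List Bool} (hf : FP f) : FP (fun x => b :: f x) :=
  (FP.cons b).comp hf

protected theorem FP.tail' {f : List Bool → List Bool} (hf : FP f) : FP (fun x => (f x).tail) :=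
  FP.tail.comp hf

protected theorem FP.p1' {f : List Bool → List Bool} (hf : FP f) : FP (fun x => PolyTime.p1 (f x)) :=
  FP.p1.comp hf

protected theorem FP.p2' {f : List Bool → List Bool} (hf : FP f) : FP (fun x => PolyTime.p2 (f x)) :=
  FP.p2.comp hf

protected theorem FP.ite_nil {c f g : List Bool → List Bool} (hc : FP c) (hf : FP f) (hg : FP g) :
    FP (fun x => if c x = [] then f x else g x) := by
  refine (FP.cases hc hf hg hg).congr (fun x => ?_)
  rcases c x with _ | ⟨_ | _, _⟩ <;> simp

/-- move the first bit of `u` in front of `v` -/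
def moveStep (t : List Bool) : List Bool :=
  match p1 t with
  | [] => t
  | false :: _ => pr (p1 t).tail (false :: p2 t)
  | true :: _ => pr (p1 t).tail (true :: p2 t)

protected theorem FP.moveStep : FP moveStep :=
  FP.cases FP.p1 FP.id (FP.pair (FP.tail' FP.p1) (FP.cons' false FP.p2))
    (FP.pair (FP.tail' FP.p1) (FP.cons' true FP.p2))

theorem moveStep_nil (v : List Bool) : moveStep (pr [] v) = pr [] v := by
  unfold PolyTime.moveStep
  rw [p1_pr]

theorem moveStep_cons (b : Bool) (u v : List Bool) : moveStep (pr (b :: u) v) = pr u (b :: v) := by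
  unfold PolyTime.moveStep
  rw [p1_pr]
  cases b <;> simp

theorem moveStep_iter (n : ℕ) (u v : List Bool) :
    moveStep^[n] (pr u v) = pr (u.drop n) ((u.take n).reverse ++ v) := by
  induction n generalizing u v with
  | zero => simp
  | succ n ih =>
    rw [Function.iterate_succ_apply]
    cases u with
    | nil => rw [moveStep_nil, ih]; simp
    | cons b u => rw [moveStep_cons, ih]; simp

theorem length_moveStep_iter (n : ℕ) (u v : List Bool) :
    (moveStep^[n] (pr u v)).length ≤ 2 * u.length + 1 + (u.length + v.length) := by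
  rw [moveStep_iter, length_pr]
  simp only [List.length_drop, List.length_append, List.length_reverse, List.length_take]
  omega

/-- `moves n u v`, with the number of moves given by the length of a string -/
protected theorem FP.moves {n u v : List Bool → List Bool} (hn : FP n) (hu : FP u) (hv : FP v) :
    FP (fun x => PolyTime.moveStep^[(n x).length] (pr (u x) (v x))) := by
  refine FP.iterPB FP.moveStep hn (FP.pair hu hv)
    (b := fun x => 2 * (u x).length + 1 + ((u x).length + (v x).length)) ?_ ?_
  · exact (((PB.const 2).mul hu.pb).add (PB.const 1)).add (hu.pb.add hv.pb)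
  · intro x i _
    exact length_moveStep_iter _ _ _

protected theorem FP.revApp {u v : List Bool → List Bool} (hu : FP u) (hv : FP v) :
    FP (fun x => (u x).reverse ++ v x) := by
  refine (FP.p2' (FP.moves hu hu hv)).congr (fun x => ?_)
  rw [moveStep_iter]
  simp

protected theorem FP.reverse {u : List Bool → List Bool} (hu : FP u) : FP (fun x => (u x).reverse) :=
  (FP.revApp hu FP.nil).congr (fun x => by simp)

protected theorem FP.append {u v : List Bool → List Bool} (hu : FP u) (hv : FP v) :
    FP (fun x => u x ++ v x) :=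
  (FP.revApp (FP.reverse hu) hv).congr (fun x => by simp)

protected theorem FP.takeLen {n u : List Bool → List Bool} (hn : FP n) (hu : FP u) :
    FP (fun x => (u x).take (n x).length) := by
  refine (FP.reverse (FP.p2' (FP.moves hn hu FP.nil))).congr (fun x => ?_)
  rw [moveStep_iter]
  simp

protected theorem FP.dropLen {n u : List Bool → List Bool} (hn : FP n) (hu : FP u) :
    FP (fun x => (u x).drop (n x).length) := by
  refine (FP.p1' (FP.moves hn hu FP.nil)).congr (fun x => ?_)
  rw [moveStep_iter]
  simp

/-! ### unary polynomials -/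

/-- one step of unary multiplication -/
def appStep (t : List Bool) : List Bool := pr (p1 t) (p1 t ++ p2 t)

protected theorem FP.appStep : FP appStep := FP.pair FP.p1 (FP.append FP.p1 FP.p2)

theorem appStep_iter (n : ℕ) (v w : List Bool) :
    ∃ r : List Bool, appStep^[n] (pr v w) = pr v r ∧ r.length = n * v.length + w.length := by
  induction n generalizing w with
  | zero => exact ⟨w, rfl, by simp⟩
  | succ n ih =>
    rw [Function.iterate_succ_apply]
    have h : PolyTime.appStep (pr v w) = pr v (v ++ w) := by simp [PolyTime.appStep]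
    rw [h]
    obtain ⟨r, h1, h2⟩ := ih (v ++ w)
    refine ⟨r, h1, ?_⟩
    rw [h2, List.length_append]
    ring

/-- a string of length `|u| * |v|` -/
def umul (u v : List Bool) : List Bool := p2 (appStep^[u.length] (pr v []))

theorem length_umul (u v : List Bool) : (umul u v).length = u.length * v.length := by
  obtain ⟨r, h1, h2⟩ := appStep_iter u.length v []
  rw [umul, h1, p2_pr, h2]
  simp

protected theorem FP.umul {u v : List Bool → List Bool} (hu : FP u) (hv : FP v) :
    FP (fun x => umul (u x) (v x)) := by
  refine FP.p2' ?_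
  refine FP.iterPB FP.appStep hu (FP.pair hv FP.nil)
    (b := fun x => 2 * (v x).length + 1 + (u x).length * (v x).length) ?_ ?_
  · exact (((PB.const 2).mul hv.pb).add (PB.const 1)).add (hu.pb.mul hv.pb)
  · intro x i hi
    obtain ⟨r, h1, h2⟩ := appStep_iter i (v x) []
    rw [h1, length_pr, h2]
    have := Nat.mul_le_mul_right (v x).length hi
    simp only [List.length_nil]
    omega

/-- a string of length `(|x| + 2) ^ k` -/
def pad : ℕ → List Bool → List Bool
  | 0, _ => [true]
  | k + 1, x => umul (true :: true :: x) (pad k x)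

@[simp] theorem length_pad (k : ℕ) (x : List Bool) : (pad k x).length = (x.length + 2) ^ k := by
  induction k with
  | zero => rfl
  | succ k ih =>
    rw [pad, length_umul, ih, pow_succ']
    simp

protected theorem FP.pad (k : ℕ) : FP (pad k) := by
  induction k with
  | zero => exact FP.const [true]
  | succ k ih =>
    exact FP.umul (FP.cons' true (FP.cons' true FP.id)) ih

/-! ### iteration with a promise -/

/-- step with truncation -/
def truncStep (f : List Bool → List Bool) (t : List Bool) : List Bool :=
  pr (p1 t) ((f (p2 t)).take (p1 t).length)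

protected theorem FP.truncStep {f : List Bool → List Bool} (hf : FP f) : FP (truncStep f) :=
  FP.pair FP.p1 (FP.takeLen FP.p1 (hf.comp FP.p2))

theorem truncStep_iter_length (f : List Bool → List Bool) (n : ℕ) (b y : List Bool) :
    ∃ r : List Bool, (truncStep f)^[n] (pr b y) = pr b r ∧ r.length ≤ max b.length y.length := by
  induction n with
  | zero => exact ⟨y, rfl, le_max_right _ _⟩
  | succ n ih =>
    obtain ⟨r, h1, h2⟩ := ih
    rw [Function.iterate_succ_apply', h1]
    refine ⟨(f r).take b.length, by simp [PolyTime.truncStep], ?_⟩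
    simp only [List.length_take]
    omega

theorem truncStep_iter_eq (f : List Bool → List Bool) (n : ℕ) (b y : List Bool)
    (h : ∀ i ≤ n, (f^[i] y).length ≤ b.length) :
    (truncStep f)^[n] (pr b y) = pr b (f^[n] y) := by
  induction n with
  | zero => rfl
  | succ n ih =>
    rw [Function.iterate_succ_apply', ih (fun i hi => h i (by omega)),
      Function.iterate_succ_apply' f]
    simp only [PolyTime.truncStep, p1_pr, p2_pr]
    congr 1
    apply List.take_of_length_le
    have := h (n + 1) le_rfl
    rwa [Function.iterate_succ_apply'] at this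

/-- Bounded iteration, where the size bound is only required on the set `D`. -/
protected theorem FP.iterOn {f g h : List Bool → List Bool} (hf : FP f) (hg : FP g) (hh : FP h)
    (D : Set (List Bool)) (k : ℕ)
    (hb : ∀ x ∈ D, ∀ i ≤ (g x).length, (f^[i] (h x)).length ≤ (x.length + 2) ^ k) :
    ∃ F, FP F ∧ ∀ x ∈ D, F x = f^[(g x).length] (h x) := by
  refine ⟨fun x => PolyTime.p2 ((PolyTime.truncStep f)^[(g x).length]
    (pr (PolyTime.pad k x) (h x))), ?_, ?_⟩
  · refine FP.p2' (FP.iterPB (FP.truncStep hf) hg (FP.pair (FP.pad k) hh)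
      (b := fun x => 2 * (PolyTime.pad k x).length + 1 +
        ((PolyTime.pad k x).length + (h x).length)) ?_ ?_)
    · exact (((PB.const 2).mul (FP.pad k).pb).add (PB.const 1)).add ((FP.pad k).pb.add hh.pb)
    · intro x i _
      obtain ⟨r, h1, h2⟩ := truncStep_iter_length f i (PolyTime.pad k x) (h x)
      rw [h1, length_pr]
      omega
  · intro x hx
    beta_reduce
    rw [truncStep_iter_eq]
    · simp
    · intro i hi
      rw [length_pad]
      exact hb x hx i hi

end Pool.Agent.PolyTime
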