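import Pool.Agent.PolyTime.Mach
import Pool.Agent.PolyTime.Classes

/-!
The tableau of a machine in normal form, as a formula in conjunctive normal form with at most
three literals per clause.
-/

namespace Pool.Agent.PolyTime

open Function Prog

/-- Satisfiable formulas in conjunctive normal form; the literal `(v, b)` says that variable `v`
has the value `b`. -/
def SAT : Set (List (List (ℕ × Bool))) :=
  {φ | ∃ s : ℕ → Bool, ∀ c ∈ φ, ∃ l ∈ c, s l.1 = l.2}

namespace Tableau

set_option linter.unusedSectionVars false

variable {K Λ : Type} [DecidableEq K]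

/-- number of a variable -/
def vr (C T t i c : ℕ) : ℕ := (t * (T + 1) + i) * C + c

/-- the three possible symbols -/
def syms : List (Option Bool) := [none, some false, some true]

theorem mem_syms (s : Option Bool) : s ∈ syms := by
  cases s with
  | none => simp [syms]
  | some b => cases b <;> simp [syms]

section defs

variable (C : ℕ) (e : Λ ⊕ (K × Option Bool) → ℕ)

/-- variable: the machine is at label `l` at time `t` -/
def vL (T t : ℕ) (l : Λ) : ℕ := vr C T t 0 (e (Sum.inl l))

/-- variable: at time `t` the `i`-th symbol from the top of stack `k` is `s` -/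
def vX (T t i : ℕ) (k : K) (s : Option Bool) : ℕ := vr C T t i (e (Sum.inr (k, s)))

/-- clauses for the next label -/
def nextC (M : Λ → Ins K Λ) (T t : ℕ) (l : Λ) : List (List (ℕ × Bool)) :=
  syms.map fun s => [(vL C e T t l, false), (vX C e T t 0 (M l).tst s, false),
    (vL C e T (t + 1) ((M l).nxt s), true)]

/-- clauses copying the cells of a stack -/
def copyC (T t : ℕ) (R : List ℕ) (l : Λ) (k : K) : List (List (ℕ × Bool)) :=
  syms.flatMap fun s => R.map fun i => [(vL C e T t l, false), (vX C e T t i k s, false),
    (vX C e T (t + 1) i k s, true)]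

/-- clauses for pushing -/
def pushC (T t : ℕ) (R : List ℕ) (l : Λ) (k : K) (b : Bool) : List (List (ℕ × Bool)) :=
  [(vL C e T t l, false), (vX C e T (t + 1) 0 k (some b), true)] ::
  (syms.flatMap fun s => R.map fun i => [(vL C e T t l, false), (vX C e T t i k s, false),
    (vX C e T (t + 1) (i + 1) k s, true)])

/-- clauses for popping -/
def popC (T t : ℕ) (R : List ℕ) (l : Λ) (k : K) : List (List (ℕ × Bool)) :=
  syms.flatMap fun s => R.map fun i => [(vL C e T t l, false), (vX C e T t (i + 1) k s, false),
    (vX C e T (t + 1) i k s, true)]

/-- clauses for the new content of stack `k` -/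
def cellC (M : Λ → Ins K Λ) (T t : ℕ) (R : List ℕ) (l : Λ) (k : K) : List (List (ℕ × Bool)) :=
  match (M l).op with
  | none => copyC C e T t R l k
  | some (k', some b) => if k' = k then pushC C e T t R l k b else copyC C e T t R l k
  | some (k', none) => if k' = k then popC C e T t R l k else copyC C e T t R l k

/-- clauses for the initial content -/
def initC (k₀ : K) (T : ℕ) (u : List Bool) (n i : ℕ) (k : K) : List (List (ℕ × Bool)) :=
  if k = k₀ then
    bif decide (i < u.length) then
      bif u.getD i false then [[(vX C e T 0 i k (some true), true)]]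
      else [[(vX C e T 0 i k (some false), true)]]
    else bif decide (i < u.length + n) then
      [[(vX C e T 0 i k (some false), true), (vX C e T 0 i k (some true), true)]]
    else [[(vX C e T 0 i k none, true)]]
  else [[(vX C e T 0 i k none, true)]]

/-- the whole formula -/
def gen (M : Λ → Ins K Λ) (en : Λ) (k₀ k₁ : K) (Ks : List K) (Ls : List Λ) (T : ℕ)
    (R R' : List ℕ) (u : List Bool) (n : ℕ) : List (List (ℕ × Bool)) :=
  [(vL C e T 0 en, true)] :: [(vX C e T T 0 k₁ none, false)] ::
  [(vX C e T T 0 k₁ (some false), false)] ::
  ((R'.flatMap fun i => Ks.flatMap fun k => initC C e k₀ T u n i k) ++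
   (R.flatMap fun t => Ls.flatMap fun l =>
      nextC C e M T t l ++ Ks.flatMap fun k => cellC C e M T t R l k))

end defs

/-! ### decoding -/

theorem vr_mod {C T t i c : ℕ} (hc : c < C) : vr C T t i c % C = c := by
  unfold vr
  rw [Nat.mul_comm, Nat.mul_add_mod, Nat.mod_eq_of_lt hc]

theorem vr_div {C T t i c : ℕ} (hc : c < C) : vr C T t i c / C = t * (T + 1) + i := by
  unfold vr
  have hC : 0 < C := by omega
  rw [Nat.mul_comm, Nat.mul_add_div hC, Nat.div_eq_of_lt hc, Nat.add_zero]

theorem vr_i {C T t i c : ℕ} (hc : c < C) (hi : i ≤ T) : (vr C T t i c / C) % (T + 1) = i := by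
  rw [vr_div hc, Nat.mul_comm, Nat.mul_add_mod, Nat.mod_eq_of_lt (by omega)]

theorem vr_t {C T t i c : ℕ} (hc : c < C) (hi : i ≤ T) : (vr C T t i c / C) / (T + 1) = t := by
  rw [vr_div hc, Nat.mul_comm, Nat.mul_add_div (by omega), Nat.div_eq_of_lt (by omega),
    Nat.add_zero]

/-! ### effect of one step on the cells -/

theorem mstep_label {M : Λ → Ins K Λ} {c : Λ × St K} :
    (mstep M c).1 = (M c.1).nxt (c.2 (M c.1).tst)[0]? := by
  rw [mstep, List.head?_eq_getElem?]

/-- the assignment given by a run -/
noncomputable def asg [DecidableEq Λ] {C : ℕ} (f : Fin C → Λ ⊕ (K × Option Bool)) (T : ℕ)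
    (c : ℕ → Λ × St K) (v : ℕ) : Bool :=
  if h : v % C < C then
    match f ⟨v % C, h⟩ with
    | Sum.inl l => decide ((c ((v / C) / (T + 1))).1 = l)
    | Sum.inr (k, s) => decide (((c ((v / C) / (T + 1))).2 k)[(v / C) % (T + 1)]? = s)
  else false

section correct

variable [DecidableEq Λ] {C : ℕ} (e : (Λ ⊕ (K × Option Bool)) ≃ Fin C)

/-- the numbering -/
abbrev en' (e : (Λ ⊕ (K × Option Bool)) ≃ Fin C) : Λ ⊕ (K × Option Bool) → ℕ := fun x => e x

theorem asg_L {T : ℕ} {c : ℕ → Λ × St K} {t : ℕ} {l : Λ} :
    asg e.symm T c (vL C (en' e) T t l) = decide ((c t).1 = l) := by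
  have h := (e (Sum.inl l)).2
  have h1 : vL C (en' e) T t l % C = e (Sum.inl l) := vr_mod h
  unfold asg
  have h2 : vL C (en' e) T t l % C < C := by rw [h1]; exact h
  rw [dif_pos h2]
  have h3 : (⟨vL C (en' e) T t l % C, h2⟩ : Fin C) = e (Sum.inl l) := Fin.ext h1
  rw [h3, Equiv.symm_apply_apply]
  have h4 : vL C (en' e) T t l / C / (T + 1) = t := vr_t h (Nat.zero_le _)
  simp only [h4]

theorem asg_X {T : ℕ} {c : ℕ → Λ × St K} {t i : ℕ} {k : K} {s : Option Bool} (hi : i ≤ T) :
    asg e.symm T c (vX C (en' e) T t i k s) = decide (((c t).2 k)[i]? = s) := by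
  have h := (e (Sum.inr (k, s))).2
  have h1 : vX C (en' e) T t i k s % C = e (Sum.inr (k, s)) := vr_mod h
  unfold asg
  have h2 : vX C (en' e) T t i k s % C < C := by rw [h1]; exact h
  rw [dif_pos h2]
  have h3 : (⟨vX C (en' e) T t i k s % C, h2⟩ : Fin C) = e (Sum.inr (k, s)) := Fin.ext h1
  rw [h3, Equiv.symm_apply_apply]
  have h4 : vX C (en' e) T t i k s / C / (T + 1) = t := vr_t h hi
  have h5 : vX C (en' e) T t i k s / C % (T + 1) = i := vr_i h hi
  simp only [h4, h5]

theorem doOp_apply (o : Option (K × Option Bool)) (S : St K) (k : K) :
    doOp o S k = match o with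
      | none => S k
      | some (k', some b) => if k' = k then b :: S k else S k
      | some (k', none) => if k' = k then (S k).tail else S k := by
  match o with
  | none => rfl
  | some (k', some b) =>
    simp only [doOp]
    by_cases h : k' = k
    · subst h; simp
    · rw [if_neg h, update_of_ne (Ne.symm h)]
  | some (k', none) =>
    simp only [doOp]
    by_cases h : k' = k
    · subst h; simp
    · rw [if_neg h, update_of_ne (Ne.symm h)]

/-- a three-literal clause holds if its conclusion follows from its premises -/
theorem clause3 {s : ℕ → Bool} {a b c : ℕ} (h : s a = true → s b = true → s c = true) :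
    ∃ l ∈ [(a, false), (b, false), (c, true)], s l.1 = l.2 := by
  cases ha : s a with
  | false => exact ⟨(a, false), by simp, ha⟩
  | true =>
    cases hb : s b with
    | false => exact ⟨(b, false), by simp, hb⟩
    | true => exact ⟨(c, true), by simp, h ha hb⟩

theorem clause3' {s : ℕ → Bool} {a b c : ℕ}
    (h : ∃ l ∈ [(a, false), (b, false), (c, true)], s l.1 = l.2) (ha : s a = true)
    (hb : s b = true) : s c = true := by
  obtain ⟨l, hl, h⟩ := h
  simp only [List.mem_cons, List.not_mem_nil, or_false] at hl
  rcases hl with rfl | rfl | rfl
  · rw [ha] at h; exact absurd h (by simp)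
  · rw [hb] at h; exact absurd h (by simp)
  · exact h

theorem sat_of_run (M : Λ → Ins K Λ) (en : Λ) (k₀ k₁ : K) (Ks : List K) (Ls : List Λ) (T : ℕ)
    (u w : List Bool)
    (hacc : (((mstep M)^[T] (en, single k₀ (u ++ w))).2 k₁)[0]? = some true) :
    gen C (en' e) M en k₀ k₁ Ks Ls T (List.range T) (List.range (T + 1)) u w.length ∈ SAT := by
  obtain ⟨c, hc⟩ : ∃ c : ℕ → Λ × St K, c = fun t => (mstep M)^[t] (en, single k₀ (u ++ w)) :=
    ⟨_, rfl⟩
  have hcT : ((c T).2 k₁)[0]? = some true := by rw [hc]; exact hacc
  have hc0 : c 0 = (en, single k₀ (u ++ w)) := by rw [hc]; rfl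
  have hcs : ∀ t, c (t + 1) = mstep M (c t) := by
    intro t; rw [hc]; exact Function.iterate_succ_apply' _ _ _
  have hlab : ∀ t, (c (t + 1)).1 = (M (c t).1).nxt ((c t).2 (M (c t).1).tst)[0]? := by
    intro t; rw [hcs]; exact mstep_label
  have hcell : ∀ t k, (c (t + 1)).2 k = doOp (M (c t).1).op (c t).2 k := by
    intro t k; rw [hcs]; rfl
  refine ⟨asg e.symm T c, ?_⟩
  intro cl hcl
  unfold gen at hcl
  simp only [List.mem_cons, List.mem_append, List.mem_flatMap, List.mem_range] at hcl
  rcases hcl with rfl | rfl | rfl | ⟨i, hi, k, _, hcl⟩ | ⟨t, ht, l, _, hcl⟩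
  · exact ⟨_, List.mem_cons_self, by simp only [asg_L, hc0, decide_true]⟩
  · refine ⟨_, List.mem_cons_self, ?_⟩
    simp only [asg_X e (Nat.zero_le T), hcT]
    rfl
  · refine ⟨_, List.mem_cons_self, ?_⟩
    simp only [asg_X e (Nat.zero_le T), hcT]
    rfl
  · -- initial cells
    have hi' : i ≤ T := by omega
    have h0 : (c 0).2 k = single k₀ (u ++ w) k := by rw [hc0]
    unfold initC at hcl
    by_cases hk : k = k₀
    · rw [if_pos hk] at hcl
      rw [single_eq hk] at h0
      by_cases h1 : i < u.length
      · have h2 : ((c 0).2 k)[i]? = some (u.getD i false) := by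
          rw [h0, List.getElem?_append_left h1, List.getElem?_eq_getElem h1,
            List.getD_eq_getElem _ _ h1]
        simp only [h1, decide_true, cond_true] at hcl
        cases h3 : u.getD i false with
        | true =>
          rw [h3] at hcl h2
          simp only [cond_true, List.mem_singleton] at hcl
          subst hcl
          exact ⟨_, List.mem_cons_self, by simp only [asg_X e hi', h2, decide_true]⟩
        | false =>
          rw [h3] at hcl h2
          simp only [cond_false, List.mem_singleton] at hcl
          subst hcl
          exact ⟨_, List.mem_cons_self, by simp only [asg_X e hi', h2, decide_true]⟩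
      · simp only [h1, decide_false, cond_false] at hcl
        by_cases h4 : i < u.length + w.length
        · simp only [h4, decide_true, cond_true, List.mem_singleton] at hcl
          subst hcl
          have h5 : i - u.length < w.length := by omega
          have h2 : ((c 0).2 k)[i]? = some (w[i - u.length]'h5) := by
            rw [h0, List.getElem?_append_right (by omega), List.getElem?_eq_getElem h5]
          cases h6 : w[i - u.length]'h5 with
          | false =>
            rw [h6] at h2
            exact ⟨_, List.mem_cons_self, by simp only [asg_X e hi', h2, decide_true]⟩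
          | true =>
            rw [h6] at h2
            exact ⟨_, List.mem_cons_of_mem _ List.mem_cons_self, by
              simp only [asg_X e hi', h2, decide_true]⟩
        · simp only [h4, decide_false, cond_false, List.mem_singleton] at hcl
          subst hcl
          have h2 : ((c 0).2 k)[i]? = none := by
            rw [h0, List.getElem?_eq_none_iff, List.length_append]; omega
          exact ⟨_, List.mem_cons_self, by simp only [asg_X e hi', h2, decide_true]⟩
    · rw [if_neg hk, List.mem_singleton] at hcl
      subst hcl
      rw [single_ne hk] at h0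
      exact ⟨_, List.mem_cons_self, by simp only [asg_X e hi', h0, List.getElem?_nil, decide_true]⟩
  · -- transitions
    rcases hcl with hcl | ⟨k, _, hcl⟩
    · unfold nextC at hcl
      rw [List.mem_map] at hcl
      obtain ⟨s, _, rfl⟩ := hcl
      apply clause3
      intro h1 h2
      rw [asg_L, decide_eq_true_eq] at h1
      rw [asg_X e (Nat.zero_le T), decide_eq_true_eq] at h2
      rw [asg_L, decide_eq_true_eq, hlab, h1, h2]
    · have hcopy : ((M l).op = none ∨ ∃ k' b, (M l).op = some (k', b) ∧ k' ≠ k) →
          cl ∈ copyC C (en' e) T t (List.range T) l k →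
          ∃ l ∈ cl, asg e.symm T c l.1 = l.2 := by
        intro hop hcl
        unfold copyC at hcl
        simp only [List.mem_flatMap, List.mem_map, List.mem_range] at hcl
        obtain ⟨s, _, i, hi, rfl⟩ := hcl
        apply clause3
        intro h1 h2
        rw [asg_L, decide_eq_true_eq] at h1
        rw [asg_X e hi.le, decide_eq_true_eq] at h2
        rw [asg_X e hi.le, decide_eq_true_eq, hcell, doOp_apply, h1]
        rcases hop with h | ⟨k', b, h, hkk⟩
        · rw [h]; exact h2
        · rw [h]
          cases b with
          | none => simp only [if_neg hkk]; exact h2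
          | some b => simp only [if_neg hkk]; exact h2
      unfold cellC at hcl
      cases hop : (M l).op with
      | none =>
        rw [hop] at hcl
        exact hcopy (Or.inl hop) hcl
      | some kb =>
        obtain ⟨k', b⟩ := kb
        rw [hop] at hcl
        by_cases hkk : k' = k
        · cases b with
          | none =>
            simp only [if_pos hkk] at hcl
            unfold popC at hcl
            simp only [List.mem_flatMap, List.mem_map, List.mem_range] at hcl
            obtain ⟨s, _, i, hi, rfl⟩ := hcl
            apply clause3
            intro h1 h2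
            rw [asg_L, decide_eq_true_eq] at h1
            rw [asg_X e (by omega), decide_eq_true_eq] at h2
            rw [asg_X e hi.le, decide_eq_true_eq, hcell, doOp_apply, h1, hop]
            simp only [if_pos hkk]
            rw [List.getElem?_tail]; exact h2
          | some b =>
            simp only [if_pos hkk] at hcl
            unfold pushC at hcl
            simp only [List.mem_cons, List.mem_flatMap, List.mem_map, List.mem_range] at hcl
            rcases hcl with rfl | ⟨s, _, i, hi, rfl⟩
            · cases h1 : asg e.symm T c (vL C (en' e) T t l) with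
              | false => exact ⟨_, List.mem_cons_self, h1⟩
              | true =>
                refine ⟨_, List.mem_cons_of_mem _ List.mem_cons_self, ?_⟩
                rw [asg_L, decide_eq_true_eq] at h1
                simp only
                rw [asg_X e (Nat.zero_le T), decide_eq_true_eq, hcell, doOp_apply, h1, hop]
                simp only [if_pos hkk, List.getElem?_cons_zero]
            · apply clause3
              intro h1 h2
              rw [asg_L, decide_eq_true_eq] at h1
              rw [asg_X e hi.le, decide_eq_true_eq] at h2
              rw [asg_X e (by omega), decide_eq_true_eq, hcell, doOp_apply, h1, hop]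
              simp only [if_pos hkk, List.getElem?_cons_succ]
              exact h2
        · refine hcopy (Or.inr ⟨k', b, hop, hkk⟩) ?_
          cases b with
          | none => simpa only [if_neg hkk] using hcl
          | some b => simpa only [if_neg hkk] using hcl

theorem run_of_sat (M : Λ → Ins K Λ) (en : Λ) (k₀ k₁ : K) (Ks : List K) (hKs : ∀ k, k ∈ Ks)
    (Ls : List Λ) (hLs : ∀ l, l ∈ Ls) (T : ℕ) (u : List Bool) (n : ℕ)
    (h : gen C (en' e) M en k₀ k₁ Ks Ls T (List.range T) (List.range (T + 1)) u n ∈ SAT) :
    ∃ w : List Bool, w.length = n ∧
      (((mstep M)^[T] (en, single k₀ (u ++ w))).2 k₁)[0]? = some true := by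
  obtain ⟨s, hs⟩ := h
  obtain ⟨w, hw⟩ : ∃ w : List Bool, w = List.ofFn (fun j : Fin n =>
    s (vX C (en' e) T 0 (u.length + j) k₀ (some true))) := ⟨_, rfl⟩
  have hwl : w.length = n := by rw [hw, List.length_ofFn]
  refine ⟨w, hwl, ?_⟩
  obtain ⟨c, hc⟩ : ∃ c : ℕ → Λ × St K, c = fun t => (mstep M)^[t] (en, single k₀ (u ++ w)) :=
    ⟨_, rfl⟩
  have hcT : c T = (mstep M)^[T] (en, single k₀ (u ++ w)) := by rw [hc]
  rw [← hcT]
  have hc0 : c 0 = (en, single k₀ (u ++ w)) := by rw [hc]; rfl
  have hcs : ∀ t, c (t + 1) = mstep M (c t) := by
    intro t; rw [hc]; exact Function.iterate_succ_apply' _ _ _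
  have hlab : ∀ t, (c (t + 1)).1 = (M (c t).1).nxt ((c t).2 (M (c t).1).tst)[0]? := by
    intro t; rw [hcs]; exact mstep_label
  have hcell : ∀ t k, (c (t + 1)).2 k = doOp (M (c t).1).op (c t).2 k := by
    intro t k; rw [hcs]; rfl
  unfold gen at hs
  simp only [List.mem_cons, List.mem_append, List.mem_flatMap, List.mem_range] at hs
  have unit : ∀ v b, (∃ l ∈ [(v, b)], s l.1 = l.2) → s v = b := by
    rintro v b ⟨l, hl, h⟩
    rw [List.mem_singleton] at hl
    subst hl; exact h
  have key : ∀ t ≤ T, s (vL C (en' e) T t (c t).1) = true ∧
      ∀ k, ∀ i, i + t ≤ T → s (vX C (en' e) T t i k ((c t).2 k)[i]?) = true := by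
    intro t
    induction t with
    | zero =>
      intro _
      refine ⟨?_, ?_⟩
      · rw [hc0]
        exact unit _ _ (hs _ (Or.inl rfl))
      · intro k i hi
        have hmem : ∀ cl ∈ initC C (en' e) k₀ T u n i k, ∃ l ∈ cl, s l.1 = l.2 := by
          intro cl hcl
          exact hs cl (Or.inr (Or.inr (Or.inr (Or.inl ⟨i, by omega, k, hKs k, hcl⟩))))
        have h0 : (c 0).2 k = single k₀ (u ++ w) k := by rw [hc0]
        unfold initC at hmem
        by_cases hk : k = k₀
        · rw [if_pos hk] at hmem
          rw [single_eq hk] at h0
          by_cases h1 : i < u.length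
          · have h2 : ((c 0).2 k)[i]? = some (u.getD i false) := by
              rw [h0, List.getElem?_append_left h1, List.getElem?_eq_getElem h1,
                List.getD_eq_getElem _ _ h1]
            rw [h2]
            simp only [h1, decide_true, cond_true] at hmem
            cases h3 : u.getD i false with
            | true =>
              rw [h3] at hmem
              exact unit _ _ (hmem _ (by simp))
            | false =>
              rw [h3] at hmem
              exact unit _ _ (hmem _ (by simp))
          · simp only [h1, decide_false, cond_false] at hmem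
            by_cases h4 : i < u.length + n
            · simp only [h4, decide_true, cond_true] at hmem
              have h5 : i - u.length < w.length := by omega
              have h2 : ((c 0).2 k)[i]? = some (w[i - u.length]'h5) := by
                rw [h0, List.getElem?_append_right (by omega), List.getElem?_eq_getElem h5]
              have h6 : w[i - u.length]'h5 = s (vX C (en' e) T 0 i k (some true)) := by
                subst hk
                have : w[i - u.length]'h5 =
                    s (vX C (en' e) T 0 (u.length + (i - u.length)) k (some true)) := by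
                  simp only [hw, List.getElem_ofFn]
                rw [this]
                congr 2
                omega
              rw [h2, h6]
              obtain ⟨l, hl, hl2⟩ := hmem _ (List.mem_singleton.2 rfl)
              simp only [List.mem_cons, List.not_mem_nil, or_false] at hl
              cases h7 : s (vX C (en' e) T 0 i k (some true)) with
              | true => exact h7
              | false =>
                rcases hl with rfl | rfl
                · exact hl2
                · simp only [h7] at hl2; exact absurd hl2 (by decide)
            · simp only [h4, decide_false, cond_false] at hmem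
              have h2 : ((c 0).2 k)[i]? = none := by
                rw [h0, List.getElem?_eq_none_iff, List.length_append]; omega
              rw [h2]
              exact unit _ _ (hmem _ (by simp))
        · rw [if_neg hk] at hmem
          rw [single_ne hk] at h0
          rw [h0, List.getElem?_nil]
          exact unit _ _ (hmem _ (by simp))
    | succ t ih =>
      intro ht
      obtain ⟨ih1, ih2⟩ := ih (by omega)
      have hmem : ∀ cl, cl ∈ nextC C (en' e) M T t (c t).1 ∨
          (∃ k ∈ Ks, cl ∈ cellC C (en' e) M T t (List.range T) (c t).1 k) →
          ∃ l ∈ cl, s l.1 = l.2 := by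
        intro cl hcl
        exact hs cl (Or.inr (Or.inr (Or.inr (Or.inr ⟨t, by omega, (c t).1, hLs _, hcl⟩))))
      refine ⟨?_, ?_⟩
      · rw [hlab]
        refine clause3' (hmem _ (Or.inl ?_)) ih1 (ih2 (M (c t).1).tst 0 (by omega))
        unfold nextC
        exact List.mem_map_of_mem (mem_syms _)
      · intro k i hi
        rw [hcell, doOp_apply]
        have hm2 : ∀ cl ∈ cellC C (en' e) M T t (List.range T) (c t).1 k, ∃ l ∈ cl, s l.1 = l.2 :=
          fun cl hcl => hmem cl (Or.inr ⟨k, hKs k, hcl⟩)
        have hcopy : (∀ cl ∈ copyC C (en' e) T t (List.range T) (c t).1 k,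
            ∃ l ∈ cl, s l.1 = l.2) → s (vX C (en' e) T (t + 1) i k ((c t).2 k)[i]?) = true := by
          intro hm3
          refine clause3' (hm3 _ ?_) ih1 (ih2 k i (by omega))
          unfold copyC
          exact List.mem_flatMap.2 ⟨_, mem_syms _, List.mem_map.2 ⟨i, List.mem_range.2 (by omega), rfl⟩⟩
        unfold cellC at hm2
        cases hop : (M (c t).1).op with
        | none =>
          rw [hop] at hm2
          exact hcopy hm2
        | some kb =>
          obtain ⟨k', b⟩ := kb
          rw [hop] at hm2
          by_cases hkk : k' = k
          · cases b with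
            | none =>
              simp only [if_pos hkk] at hm2 ⊢
              rw [List.getElem?_tail]
              refine clause3' (hm2 _ ?_) ih1 (ih2 k (i + 1) (by omega))
              unfold popC
              exact List.mem_flatMap.2 ⟨_, mem_syms _,
                List.mem_map.2 ⟨i, List.mem_range.2 (by omega), rfl⟩⟩
            | some b =>
              simp only [if_pos hkk] at hm2 ⊢
              cases i with
              | zero =>
                rw [List.getElem?_cons_zero]
                obtain ⟨l, hl, hl2⟩ := hm2 _ (by unfold pushC; exact List.mem_cons_self)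
                simp only [List.mem_cons, List.not_mem_nil, or_false] at hl
                rcases hl with rfl | rfl
                · simp only at hl2; rw [ih1] at hl2; exact absurd hl2 (by decide)
                · exact hl2
              | succ i =>
                rw [List.getElem?_cons_succ]
                refine clause3' (hm2 _ ?_) ih1 (ih2 k i (by omega))
                unfold pushC
                exact List.mem_cons_of_mem _ (List.mem_flatMap.2 ⟨_, mem_syms _,
                  List.mem_map.2 ⟨i, List.mem_range.2 (by omega), rfl⟩⟩)
          · cases b with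
            | none =>
              simp only [if_neg hkk] at hm2 ⊢
              exact hcopy hm2
            | some b =>
              simp only [if_neg hkk] at hm2 ⊢
              exact hcopy hm2
  obtain ⟨_, hT⟩ := key T le_rfl
  have h1 := hT k₁ 0 (by omega)
  have h2 := unit _ _ (hs _ (Or.inr (Or.inl rfl)))
  have h3 := unit _ _ (hs _ (Or.inr (Or.inr (Or.inl rfl))))
  cases h4 : ((c T).2 k₁)[0]? with
  | none => rw [h4, h2] at h1; exact absurd h1 (by decide)
  | some b =>
    cases b with
    | true => rfl
    | false => rw [h4, h3] at h1; exact absurd h1 (by decide)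

end correct

end Tableau

end Pool.Agent.PolyTime
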