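import Pool.Agent.PolyTime.Str

/-!
Typed polynomial-time functions.  `PEnc α` fixes an injective binary encoding of `α`,
`PolyTime f` says that `f : α → β` is polynomial-time computable with respect to the encodings.
-/

set_option linter.dupNamespace false

namespace Pool.Agent.PolyTime

/-- A type with an injective encoding into bit strings. -/
class PEnc (α : Type) where
  /-- the encoding -/
  enc : α → List Bool
  /-- the encoding is injective -/
  inj : Function.Injective enc

export PEnc (enc)

/-- the number of bits of the encoding -/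
def size {α : Type} [PEnc α] (a : α) : ℕ := (enc a).length

/-- Polynomial-time computability of a function between encoded types. -/
@[fun_prop]
def PolyTime {α β : Type} [PEnc α] [PEnc β] (f : α → β) : Prop :=
  ∃ F : List Bool → List Bool, FP F ∧ ∀ a, F (enc a) = enc (f a)

/-- Polynomially bounded numeric functions. -/
def PBd {α : Type} [PEnc α] (b : α → ℕ) : Prop := ∃ k, ∀ a, b a ≤ (size a + 2) ^ k

section basic

variable {α β γ δ : Type} [PEnc α] [PEnc β] [PEnc γ] [PEnc δ]

theorem enc_inj {a b : α} : enc a = enc b ↔ a = b := PEnc.inj.eq_iff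

/-- the official Mathlib notion follows -/
protected theorem PolyTime.tm2 {f : α → β} (h : PolyTime f) :
    Nonempty (Turing.TM2ComputableInPolyTime (enc : α → List Bool) (enc : β → List Bool) f) := by
  obtain ⟨F, ⟨M⟩, hF⟩ := h
  refine ⟨{ toTM2ComputableAux := M.toTM2ComputableAux, time := M.time, outputsFun := ?_ }⟩
  intro a
  have := M.outputsFun (enc a)
  simp only [id_eq] at this
  rw [hF a] at this
  exact this

protected theorem PolyTime.congr {f g : α → β} (hf : PolyTime f) (h : ∀ a, f a = g a) : PolyTime g := by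
  have : f = g := funext h
  rwa [← this]

@[fun_prop]
protected theorem PolyTime.id : PolyTime (fun a : α => a) := ⟨fun x => x, FP.id, fun _ => rfl⟩

@[fun_prop]
protected theorem PolyTime.const (b : β) : PolyTime (fun _ : α => b) :=
  ⟨fun _ => enc b, FP.const _, fun _ => rfl⟩

@[fun_prop]
protected theorem PolyTime.comp {g : β → γ} {f : α → β} (hg : PolyTime g) (hf : PolyTime f) :
    PolyTime (fun a => g (f a)) := by
  obtain ⟨G, hG, hG'⟩ := hg
  obtain ⟨F, hF, hF'⟩ := hf
  exact ⟨fun x => G (F x), hG.comp hF, fun a => by beta_reduce; rw [hF', hG']⟩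

protected theorem PBd.mono {b c : α → ℕ} (hc : PBd c) (h : ∀ a, b a ≤ c a) : PBd b := by
  obtain ⟨k, hk⟩ := hc
  exact ⟨k, fun x => (h x).trans (hk x)⟩

protected theorem PBd.const (c : ℕ) : PBd (fun _ : α => c) := ⟨c, fun _ => const_le_pow _ _⟩

protected theorem PBd.size : PBd (fun a : α => size a) := ⟨1, fun _ => self_le_pow _⟩

protected theorem PBd.add {b c : α → ℕ} (hb : PBd b) (hc : PBd c) : PBd (fun x => b x + c x) := by
  obtain ⟨k, hk⟩ := hb
  obtain ⟨l, hl⟩ := hc
  exact ⟨max k l + 1, fun x => (add_le_add (hk x) (hl x)).trans (pow_add_le _ _ _)⟩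

protected theorem PBd.mul {b c : α → ℕ} (hb : PBd b) (hc : PBd c) : PBd (fun x => b x * c x) := by
  obtain ⟨k, hk⟩ := hb
  obtain ⟨l, hl⟩ := hc
  refine ⟨k + l, fun x => ?_⟩
  rw [pow_add]
  exact Nat.mul_le_mul (hk x) (hl x)

protected theorem PBd.pow {b : α → ℕ} (hb : PBd b) (n : ℕ) : PBd (fun x => b x ^ n) := by
  obtain ⟨k, hk⟩ := hb
  refine ⟨k * n, fun x => ?_⟩
  rw [pow_mul]
  exact Nat.pow_le_pow_left (hk x) _

protected theorem PolyTime.pbd {f : α → β} (hf : PolyTime f) : PBd (fun a => PolyTime.size (f a)) := by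
  obtain ⟨F, hF, hF'⟩ := hf
  obtain ⟨k, hk⟩ := hF.length_pow
  refine ⟨k, fun a => ?_⟩
  have := hk (enc a)
  rwa [hF'] at this

protected theorem PBd.comp {b : β → ℕ} {f : α → β} (hb : PBd b) (hf : PolyTime f) :
    PBd (fun a => b (f a)) := by
  obtain ⟨k, hk⟩ := hb
  obtain ⟨l, hl⟩ := (hf.pbd.add (PBd.const 2)).pow k
  exact ⟨l, fun a => (hk (f a)).trans (hl a)⟩

/-- the basic iteration principle: iterate `size (c a)` times -/
protected theorem PolyTime.iterate_size {f : β → β} {g : α → β} {c : α → γ} (hf : PolyTime f)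
    (hg : PolyTime g) (hc : PolyTime c) {b : α → ℕ} (hb : PBd b)
    (h : ∀ a, ∀ i ≤ size (c a), size (f^[i] (g a)) ≤ b a) :
    PolyTime (fun a => f^[size (c a)] (g a)) := by
  obtain ⟨F, hF, hF'⟩ := hf
  obtain ⟨G, hG, hG'⟩ := hg
  obtain ⟨C, hC, hC'⟩ := hc
  obtain ⟨k, hk⟩ := hb
  have key : ∀ i b, F^[i] (enc b) = enc (f^[i] b) := by
    intro i
    induction i with
    | zero => intro b; rfl
    | succ i ih => intro b; rw [Function.iterate_succ_apply, Function.iterate_succ_apply, hF', ih]
  obtain ⟨R, hR, hR'⟩ := FP.iterOn hF hC hG (Set.range (enc : α → List Bool)) k (by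
    rintro _ ⟨a, rfl⟩ i hi
    rw [hG', key]
    rw [hC'] at hi
    exact (h a i hi).trans (hk a))
  refine ⟨R, hR, fun a => ?_⟩
  rw [hR' _ ⟨a, rfl⟩, hG', hC', key]
  rfl

end basic

/-! ### encodings -/

instance : PEnc Unit := ⟨fun _ => [], fun _ _ _ => rfl⟩

instance : PEnc Bool := ⟨fun b => [b], fun a b h => by simpa using h⟩

theorem bits_injective : Function.Injective Nat.bits := by
  intro m n h
  have key : ∀ m : ℕ, m = (Nat.bits m).foldr (fun b n => Nat.bit b n) 0 := by
    intro m
    induction m using Nat.binaryRec' with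
    | zero => simp
    | bit b n hn ih =>
      rw [Nat.bits_append_bit n b hn, List.foldr_cons, ← ih]
  rw [key m, key n, h]

/-- natural numbers in binary, least significant bit first -/
instance : PEnc ℕ := ⟨Nat.bits, bits_injective⟩

instance {α β : Type} [PEnc α] [PEnc β] : PEnc (α × β) :=
  ⟨fun p => pr (enc p.1) (enc p.2), fun p q h => by
    obtain ⟨h1, h2⟩ := pr_inj.1 h
    exact Prod.ext (PEnc.inj h1) (PEnc.inj h2)⟩

/-- encoding of an option -/
def encOption {α : Type} [PEnc α] : Option α → List Bool
  | none => []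
  | some a => true :: enc a

instance {α : Type} [PEnc α] : PEnc (Option α) :=
  ⟨encOption, fun a b h => by
    cases a <;> cases b <;> simp [encOption, enc_inj] at h ⊢
    exact h⟩

/-- encoding of a sum -/
def encSum {α β : Type} [PEnc α] [PEnc β] : α ⊕ β → List Bool
  | Sum.inl a => false :: enc a
  | Sum.inr b => true :: enc b

instance {α β : Type} [PEnc α] [PEnc β] : PEnc (α ⊕ β) :=
  ⟨encSum, fun a b h => by
    cases a <;> cases b <;> simp [encSum, enc_inj] at h ⊢ <;>
    exact h⟩

/-- encoding of a list -/
def encList {α : Type} [PEnc α] : List α → List Bool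
  | [] => []
  | a :: l => pr (enc a) (encList l)

theorem encList_injective {α : Type} [PEnc α] : Function.Injective (encList (α := α)) := by
  intro l
  induction l with
  | nil =>
    intro m h
    cases m with
    | nil => rfl
    | cons b m => exact absurd h.symm (pr_ne_nil _ _)
  | cons a l ih =>
    intro m h
    cases m with
    | nil => exact absurd h (pr_ne_nil _ _)
    | cons b m =>
      obtain ⟨h1, h2⟩ := pr_inj.1 h
      rw [PEnc.inj h1, ih h2]

instance {α : Type} [PEnc α] : PEnc (List α) := ⟨encList, encList_injective⟩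

/-- transport of an encoding along an injection -/
@[reducible] def PEnc.ofInj {α β : Type} [PEnc β] (f : α → β) (hf : Function.Injective f) : PEnc α :=
  ⟨fun a => enc (f a), fun _ _ h => hf (PEnc.inj h)⟩

instance {n : ℕ} : PEnc (Fin n) := PEnc.ofInj Fin.val Fin.val_injective

instance {α : Type} [PEnc α] {p : α → Prop} : PEnc (Subtype p) :=
  PEnc.ofInj Subtype.val Subtype.val_injective

/-- sign and absolute value -/
instance : PEnc ℤ := PEnc.ofInj (fun z : ℤ => (decide (z < 0), z.natAbs)) (by
  intro a b h
  simp only [Prod.mk.injEq, decide_eq_decide] at h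
  omega)

/-- numerator and denominator -/
instance : PEnc ℚ := PEnc.ofInj (fun q : ℚ => (q.num, q.den)) (by
  intro a b h
  simp only [Prod.mk.injEq] at h
  exact Rat.ext h.1 h.2)

theorem enc_unit (u : Unit) : enc u = [] := rfl
theorem enc_bool (b : Bool) : enc b = [b] := rfl
theorem enc_nat (n : ℕ) : enc n = n.bits := rfl
theorem enc_prod {α β : Type} [PEnc α] [PEnc β] (p : α × β) : enc p = pr (enc p.1) (enc p.2) := rfl
theorem enc_none {α : Type} [PEnc α] : enc (none : Option α) = [] := rfl
theorem enc_some {α : Type} [PEnc α] (a : α) : enc (some a) = true :: enc a := rfl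
theorem enc_inl {α β : Type} [PEnc α] [PEnc β] (a : α) :
    enc (Sum.inl a : α ⊕ β) = false :: enc a := rfl
theorem enc_inr {α β : Type} [PEnc α] [PEnc β] (b : β) :
    enc (Sum.inr b : α ⊕ β) = true :: enc b := rfl
theorem enc_nil {α : Type} [PEnc α] : enc ([] : List α) = [] := rfl
theorem enc_cons {α : Type} [PEnc α] (a : α) (l : List α) : enc (a :: l) = pr (enc a) (enc l) := rfl
theorem enc_fin {n : ℕ} (i : Fin n) : enc i = enc i.val := rfl
theorem enc_sub {α : Type} [PEnc α] {p : α → Prop} (a : Subtype p) : enc a = enc a.val := rfl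
theorem enc_int (z : ℤ) : enc z = enc (decide (z < 0), z.natAbs) := rfl
theorem enc_rat (q : ℚ) : enc q = enc (q.num, q.den) := rfl

@[simp] theorem size_unit (u : Unit) : size u = 0 := rfl
@[simp] theorem size_bool (b : Bool) : size b = 1 := rfl
theorem size_nat (n : ℕ) : size n = n.size := (Nat.size_eq_bits_len n).symm ▸ rfl
@[simp] theorem size_pair {α β : Type} [PEnc α] [PEnc β] (a : α) (b : β) :
    size (a, b) = 2 * size a + 1 + size b := length_pr _ _
theorem size_prod {α β : Type} [PEnc α] [PEnc β] (p : α × β) :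
    size p = 2 * size p.1 + 1 + size p.2 := length_pr _ _
@[simp] theorem size_none {α : Type} [PEnc α] : size (none : Option α) = 0 := rfl
@[simp] theorem size_some {α : Type} [PEnc α] (a : α) : size (some a) = size a + 1 := rfl
@[simp] theorem size_inl {α β : Type} [PEnc α] [PEnc β] (a : α) :
    size (Sum.inl a : α ⊕ β) = size a + 1 := rfl
@[simp] theorem size_inr {α β : Type} [PEnc α] [PEnc β] (b : β) :
    size (Sum.inr b : α ⊕ β) = size b + 1 := rfl
@[simp] theorem size_nil {α : Type} [PEnc α] : size ([] : List α) = 0 := rfl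
@[simp] theorem size_cons {α : Type} [PEnc α] (a : α) (l : List α) :
    size (a :: l) = 2 * size a + 1 + size l := length_pr _ _
theorem size_fin {n : ℕ} (i : Fin n) : size i = size i.val := rfl
theorem size_sub {α : Type} [PEnc α] {p : α → Prop} (a : Subtype p) : size a = size a.val := rfl

theorem length_le_size {α : Type} [PEnc α] (l : List α) : l.length ≤ size l := by
  induction l with
  | nil => simp
  | cons a l ih => simp only [List.length_cons, size_cons]; omega

theorem size_append {α : Type} [PEnc α] (l m : List α) : size (l ++ m) = size l + size m := by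
  induction l with
  | nil => simp
  | cons a l ih => simp only [List.cons_append, size_cons, ih]; omega

theorem size_list_eq_sum {α : Type} [PEnc α] (l : List α) :
    size l = (l.map (fun a => 2 * size a + 1)).sum := by
  induction l with
  | nil => simp
  | cons a l ih => simp only [List.map_cons, List.sum_cons, size_cons, ih]

theorem size_sublist {α : Type} [PEnc α] {l m : List α} (h : l.Sublist m) : size l ≤ size m := by
  rw [size_list_eq_sum, size_list_eq_sum]
  exact List.Sublist.sum_le_sum (h.map _) (fun _ _ => Nat.zero_le _)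

theorem size_mem_le {α : Type} [PEnc α] {l : List α} {a : α} (h : a ∈ l) : size a ≤ size l := by
  induction l with
  | nil => simp at h
  | cons b l ih =>
    simp only [size_cons]
    rcases List.mem_cons.1 h with rfl | h
    · omega
    · have := ih h; omega

theorem size_le_of_forall {α : Type} [PEnc α] {l : List α} {B : ℕ} (h : ∀ a ∈ l, size a ≤ B) :
    size l ≤ l.length * (2 * B + 1) := by
  induction l with
  | nil => simp
  | cons b l ih =>
    simp only [size_cons, List.length_cons]
    have h1 := h b (by simp)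
    have h2 := ih (fun a ha => h a (by simp [ha]))
    nlinarith

/-! ### products -/

section prod

variable {α β γ δ : Type} [PEnc α] [PEnc β] [PEnc γ] [PEnc δ]

@[fun_prop]
protected theorem PolyTime.prodMk {f : α → β} {g : α → γ} (hf : PolyTime f) (hg : PolyTime g) :
    PolyTime (fun a => (f a, g a)) := by
  obtain ⟨F, hF, hF'⟩ := hf
  obtain ⟨G, hG, hG'⟩ := hg
  exact ⟨fun x => pr (F x) (G x), hF.pair hG, fun a => by beta_reduce; rw [hF', hG']; rfl⟩

@[fun_prop]
protected theorem PolyTime.fst' : PolyTime (fun p : α × β => p.1) :=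
  ⟨p1, FP.p1, fun _ => p1_pr _ _⟩

@[fun_prop]
protected theorem PolyTime.snd' : PolyTime (fun p : α × β => p.2) :=
  ⟨p2, FP.p2, fun _ => p2_pr _ _⟩

protected theorem PolyTime.fst {f : α → β × γ} (hf : PolyTime f) : PolyTime (fun a => (f a).1) :=
  PolyTime.fst'.comp hf

protected theorem PolyTime.snd {f : α → β × γ} (hf : PolyTime f) : PolyTime (fun a => (f a).2) :=
  PolyTime.snd'.comp hf

/-- two-argument composition -/
protected theorem PolyTime.comp₂ {h : β → γ → δ} {f : α → β} {g : α → γ}
    (hh : PolyTime (fun p : β × γ => h p.1 p.2)) (hf : PolyTime f) (hg : PolyTime g) :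
    PolyTime (fun a => h (f a) (g a)) :=
  hh.comp (hf.prodMk hg)

end prod

/-! ### booleans -/

section bool

variable {α β γ δ : Type} [PEnc α] [PEnc β] [PEnc γ] [PEnc δ]

@[fun_prop]
protected theorem PolyTime.cond {c : α → Bool} {f g : α → β} (hc : PolyTime c) (hf : PolyTime f)
    (hg : PolyTime g) : PolyTime (fun a => cond (c a) (f a) (g a)) := by
  obtain ⟨C, hC, hC'⟩ := hc
  obtain ⟨F, hF, hF'⟩ := hf
  obtain ⟨G, hG, hG'⟩ := hg
  refine ⟨_, FP.cases hC hF hG hF, fun a => ?_⟩
  rw [hC']
  cases h : c a <;> simp [enc_bool, hF', hG', h]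

@[fun_prop]
protected theorem PolyTime.ite {p : α → Prop} [DecidablePred p] {f g : α → β}
    (hc : PolyTime (fun a => decide (p a))) (hf : PolyTime f) (hg : PolyTime g) :
    PolyTime (fun a => if p a then f a else g a) :=
  (PolyTime.cond hc hf hg).congr (fun a => by by_cases h : p a <;> simp [h])

@[fun_prop]
protected theorem PolyTime.not {c : α → Bool} (hc : PolyTime c) : PolyTime (fun a => !(c a)) :=
  (PolyTime.cond hc (PolyTime.const false) (PolyTime.const true)).congr
    (fun a => by cases c a <;> rfl)

@[fun_prop]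
protected theorem PolyTime.and {c d : α → Bool} (hc : PolyTime c) (hd : PolyTime d) :
    PolyTime (fun a => c a && d a) :=
  (PolyTime.cond hc hd (PolyTime.const false)).congr (fun a => by cases c a <;> rfl)

@[fun_prop]
protected theorem PolyTime.or {c d : α → Bool} (hc : PolyTime c) (hd : PolyTime d) :
    PolyTime (fun a => c a || d a) :=
  (PolyTime.cond hc (PolyTime.const true) hd).congr (fun a => by cases c a <;> rfl)

@[fun_prop]
protected theorem PolyTime.xor {c d : α → Bool} (hc : PolyTime c) (hd : PolyTime d) :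
    PolyTime (fun a => Bool.xor (c a) (d a)) :=
  (PolyTime.cond hc hd.not hd).congr (fun a => by cases c a <;> cases d a <;> rfl)

@[fun_prop]
protected theorem PolyTime.decide_not {p : α → Prop} [DecidablePred p]
    (hp : PolyTime (fun a => decide (p a))) : PolyTime (fun a => decide (¬ p a)) :=
  hp.not.congr (fun a => by simp)

@[fun_prop]
protected theorem PolyTime.decide_and {p q : α → Prop} [DecidablePred p] [DecidablePred q]
    (hp : PolyTime (fun a => decide (p a))) (hq : PolyTime (fun a => decide (q a))) :
    PolyTime (fun a => decide (p a ∧ q a)) :=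
  (hp.and hq).congr (fun a => by simp)

@[fun_prop]
protected theorem PolyTime.decide_or {p q : α → Prop} [DecidablePred p] [DecidablePred q]
    (hp : PolyTime (fun a => decide (p a))) (hq : PolyTime (fun a => decide (q a))) :
    PolyTime (fun a => decide (p a ∨ q a)) :=
  (hp.or hq).congr (fun a => by simp)

@[fun_prop]
protected theorem PolyTime.decide_imp {p q : α → Prop} [DecidablePred p] [DecidablePred q]
    (hp : PolyTime (fun a => decide (p a))) (hq : PolyTime (fun a => decide (q a))) :
    PolyTime (fun a => decide (p a → q a)) :=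
  (hp.not.or hq).congr (fun a => by by_cases h : p a <;> simp [h])

@[fun_prop]
protected theorem PolyTime.decide_bool {c : α → Bool} (hc : PolyTime c) :
    PolyTime (fun a => decide (c a = true)) :=
  hc.congr (fun a => by simp)

/-! ### equality -/

/-- one step of the comparison of two strings -/
def eqStep (t : List Bool) : List Bool :=
  match p1 t with
  | [] => t
  | false :: _ => (match p2 t with
    | [] => t
    | false :: _ => pr (p1 t).tail (p2 t).tail
    | true :: _ => t)
  | true :: _ => (match p2 t with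
    | [] => t
    | false :: _ => t
    | true :: _ => pr (p1 t).tail (p2 t).tail)

protected theorem FP.eqStep : FP eqStep :=
  FP.cases FP.p1 FP.id
    (FP.cases FP.p2 FP.id (FP.pair (FP.tail' FP.p1) (FP.tail' FP.p2)) FP.id)
    (FP.cases FP.p2 FP.id FP.id (FP.pair (FP.tail' FP.p1) (FP.tail' FP.p2)))

theorem eqStep_pr' (u v : List Bool) :
    eqStep (pr u v) = pr u v ∨ eqStep (pr u v) = pr u.tail v.tail := by
  rcases u with _ | ⟨_ | _, u⟩ <;> rcases v with _ | ⟨_ | _, v⟩ <;> simp [PolyTime.eqStep]

theorem eqStep_pr (u v : List Bool) : ∃ u' v', eqStep (pr u v) = pr u' v' ∧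
    u'.length ≤ u.length ∧ v'.length ≤ v.length := by
  rcases eqStep_pr' u v with h | h
  · exact ⟨_, _, h, le_rfl, le_rfl⟩
  · exact ⟨_, _, h, by simp, by simp⟩

theorem eqStep_iter_pr (n : ℕ) (u v : List Bool) : ∃ u' v', eqStep^[n] (pr u v) = pr u' v' ∧
    u'.length ≤ u.length ∧ v'.length ≤ v.length := by
  induction n with
  | zero => exact ⟨u, v, rfl, le_rfl, le_rfl⟩
  | succ n ih =>
    obtain ⟨u', v', h, h1, h2⟩ := ih
    obtain ⟨u'', v'', h', h3, h4⟩ := eqStep_pr u' v'
    exact ⟨u'', v'', by rw [Function.iterate_succ_apply', h, h'], h3.trans h1, h4.trans h2⟩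

theorem eqStep_iff (u v : List Bool) (n : ℕ) (hn : u.length ≤ n) :
    (eqStep^[n] (pr u v) = pr [] []) ↔ u = v := by
  induction n generalizing u v with
  | zero =>
    have : u = [] := List.length_eq_zero_iff.1 (by omega)
    subst this
    simp only [Function.iterate_zero, id_eq, pr_inj, true_and]
    exact eq_comm
  | succ n ih =>
    rw [Function.iterate_succ_apply]
    have stuck : ∀ u v : List Bool, eqStep (pr u v) = pr u v → ∀ n, eqStep^[n] (pr u v) = pr u v :=
      fun u v h n => Function.iterate_fixed h n
    rcases u with _ | ⟨b, u⟩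
    · have h : eqStep (pr [] v) = pr [] v := by simp [PolyTime.eqStep]
      rw [h, stuck _ _ h]
      simp only [pr_inj, true_and]
      exact eq_comm
    · rcases v with _ | ⟨c, v⟩
      · have h : eqStep (pr (b :: u) []) = pr (b :: u) [] := by
          cases b <;> simp [PolyTime.eqStep]
        rw [h, stuck _ _ h]
        simp [pr_inj]
      · by_cases hbc : b = c
        · subst hbc
          have h : eqStep (pr (b :: u) (b :: v)) = pr u v := by
            cases b <;> simp [PolyTime.eqStep]
          rw [h, ih u v (by simpa using hn)]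
          simp
        · have h : eqStep (pr (b :: u) (c :: v)) = pr (b :: u) (c :: v) := by
            cases b <;> cases c <;> simp [PolyTime.eqStep] at hbc ⊢
          rw [h, stuck _ _ h]
          simp [pr_inj, hbc]

protected theorem FP.decideEq {u v : List Bool → List Bool} (hu : FP u) (hv : FP v) :
    FP (fun x => [decide (u x = v x)]) := by
  have h1 : FP (fun x => PolyTime.eqStep^[(u x).length] (pr (u x) (v x))) := by
    refine FP.iterPB FP.eqStep hu (FP.pair hu hv)
      (b := fun x => 2 * (u x).length + 1 + (v x).length) ?_ ?_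
    · exact (((PB.const 2).mul hu.pb).add (PB.const 1)).add hv.pb
    · intro x i _
      obtain ⟨u', v', h, h1, h2⟩ := eqStep_iter_pr i (u x) (v x)
      rw [h, length_pr]
      omega
  have h2 : FP (fun x => if PolyTime.p1 (PolyTime.eqStep^[(u x).length] (pr (u x) (v x))) ++
      PolyTime.p2 (PolyTime.eqStep^[(u x).length] (pr (u x) (v x))) = [] then [true] else
      [false]) :=
    FP.ite_nil (FP.append (FP.p1' h1) (FP.p2' h1)) (FP.const [true]) (FP.const [false])
  refine h2.congr (fun x => ?_)
  obtain ⟨u', v', h, -, -⟩ := eqStep_iter_pr (u x).length (u x) (v x)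
  have h3 := eqStep_iff (u x) (v x) (u x).length le_rfl
  rw [h] at h3 ⊢
  rw [p1_pr, p2_pr]
  rw [pr_inj] at h3
  by_cases h4 : u x = v x
  · obtain ⟨rfl, rfl⟩ := h3.2 h4
    simp [h4]
  · have : ¬ (u' ++ v' = []) := by
      intro h5
      rw [List.append_eq_nil_iff] at h5
      exact h4 (h3.1 h5)
    simp [h4, this]

@[fun_prop]
protected theorem PolyTime.decideEq [DecidableEq β] {f g : α → β} (hf : PolyTime f) (hg : PolyTime g) :
    PolyTime (fun a => decide (f a = g a)) := by
  obtain ⟨F, hF, hF'⟩ := hf
  obtain ⟨G, hG, hG'⟩ := hg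
  refine ⟨_, FP.decideEq hF hG, fun a => ?_⟩
  rw [hF', hG', enc_bool]
  simp only [enc_inj]

end bool

end Pool.Agent.PolyTime
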